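import Pool.Agent.H12.HD.Gen

/-!
# Orders divisible by a large safe prime (MP_76589c_co)
-/

set_option autoImplicit false

namespace Pool.Agent.H12.HD

open Finset

theorem dvd_ord {q n a k : ℕ} (hq : q.Prime) (hn : n.Prime) (hqa : q = a * n + 1)
    (hk : Nat.Coprime k n) (x : ZMod q) (hx : x ≠ 0) (hxa : x ^ a ≠ 1) :
    n ∣ orderOf (x ^ k) := by
  have : Fact q.Prime := ⟨hq⟩
  have hq1 : q - 1 = a * n := by omega
  by_contra hcon
  have h1 : (x ^ k) ^ (q - 1) = 1 := ZMod.pow_card_sub_one_eq_one (pow_ne_zero _ hx)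
  have h2 : orderOf (x ^ k) ∣ a * n := by
    have := orderOf_dvd_of_pow_eq_one h1
    rwa [hq1] at this
  have h3 : Nat.Coprime (orderOf (x ^ k)) n := ((Nat.Prime.coprime_iff_not_dvd hn).2 hcon).symm
  have h4 : orderOf (x ^ k) ∣ a := h3.dvd_of_dvd_mul_right h2
  have h5 : x ^ (k * a) = 1 := by
    rw [pow_mul]
    exact orderOf_dvd_iff_pow_eq_one.1 h4
  have h6 : x ^ (a * n) = 1 := by
    have := ZMod.pow_card_sub_one_eq_one hx
    rwa [hq1] at this
  apply hxa
  rw [← orderOf_dvd_iff_pow_eq_one] at h5 h6 ⊢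
  have h7 := Nat.dvd_gcd h5 h6
  have h8 : Nat.gcd (k * a) (a * n) = a := by
    rw [mul_comm k a, Nat.gcd_mul_left, Nat.coprime_iff_gcd_eq_one.1 hk, mul_one]
  rwa [h8] at h7

/-- the common set-up: `q = a n + 1`, `n` an odd prime, no prime divisor of `w` is an `a`-th root
of unity modulo `q` -/
theorem root_test {u q n a w : ℕ} (hn : n.Prime) (hn2 : n ≠ 2) (hq : q.Prime)
    (hqa : q = a * n + 1) (hu : 1 < u) (huq : u < q) (hun : ¬ n ∣ Nat.totient u)
    (hv : u * q + 1 = 4 * w)
    (hroot : ∀ p : ℕ, p.Prime → p ∣ w → ((p : ZMod q)) ^ a ≠ 1)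
    (D : Finset (ZMod (u * q))) (hD : IsHDS w D) :
    (2 * n - 1) ^ 2 ≤ (u - 1) * (q - 1) + 1 := by
  have : Fact q.Prime := ⟨hq⟩
  have hcop : Nat.Coprime u q := by
    refine ((Nat.Prime.coprime_iff_not_dvd hq).2 fun h => ?_).symm
    have := Nat.le_of_dvd (by omega) h
    omega
  obtain ⟨J, M, hM, hJ, -, h1⟩ := (test (N := n) hu hq hcop hv (fun p hp hpw => by
    refine dvd_ord hq hn hqa ((Nat.Prime.coprime_iff_not_dvd hn).2 hun).symm _ ?_
      (hroot p hp hpw)
    rw [Ne, ZMod.natCast_eq_zero_iff]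
    intro h
    have h2 : q = p := (Nat.prime_dvd_prime_iff_eq hq hp).1 h
    rw [← h2] at hpw
    have h3 : q ∣ 4 * w := Dvd.dvd.mul_left hpw 4
    rw [← hv] at h3
    have h4 : q ∣ 1 := (Nat.dvd_add_right (dvd_mul_left q u)).1 h3
    exact hq.one_lt.ne' (Nat.dvd_one.1 h4)) D hD).1
  have h2 : Nat.lcm 2 n = 2 * n :=
    Nat.Coprime.lcm_eq_mul ((Nat.coprime_primes Nat.prime_two hn).2 hn2.symm)
  rw [h2] at h1
  have hn0 := hn.two_le
  have h3 := norm_ineq hM hJ (L := ((2 * n : ℕ) : ℤ)) (by push_cast; omega) h1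
  have h4 : (((2 * n - 1) ^ 2 : ℕ) : ℤ) ≤ (((u - 1) * (q - 1) + 1 : ℕ) : ℤ) := by
    have h5 : ((2 * n - 1 : ℕ) : ℤ) = 2 * n - 1 := by
      rw [Nat.cast_sub (by omega)]
      push_cast
      ring
    have h6 : ((u - 1 : ℕ) : ℤ) = (u : ℤ) - 1 := by
      rw [Nat.cast_sub (by omega)]
      simp
    have h7 : ((q - 1 : ℕ) : ℤ) = (q : ℤ) - 1 := by
      rw [Nat.cast_sub hq.one_le]
      simp
    push_cast
    rw [h5, h6, h7]
    push_cast at h3
    linarith
  exact_mod_cast h4

/-- the cofactor `c` of a prime `p ∣ w` -/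
theorem cofac {u q p w : ℕ} (hp : p.Prime) (hpw : p ∣ w) (hv : u * q + 1 = 4 * w) :
    ∃ c : ℕ, p * c = u * q + 1 ∧ 2 ≤ c ∧ 2 ≤ p := by
  obtain ⟨k, hk⟩ := hpw
  have hk0 : 0 < k := by
    rcases Nat.eq_zero_or_pos k with h | h
    · rw [h, mul_zero] at hk
      omega
    · exact h
  refine ⟨4 * k, ?_, by omega, hp.two_le⟩
  rw [hv, hk]
  ring

/-- no prime divisor of `w` is `±1` modulo `q` if `u + 2 < q` -/
theorem sq_ne_one {u q p w : ℕ} (hq : q.Prime) (huq : u + 2 < q) (hp : p.Prime) (hpw : p ∣ w)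
    (hv : u * q + 1 = 4 * w) : ((p : ZMod q)) ^ 2 ≠ 1 := by
  have : Fact q.Prime := ⟨hq⟩
  intro h
  obtain ⟨c, hc, hc2, hp2⟩ := cofac hp hpw hv
  have hcc : (p : ZMod q) * (c : ZMod q) = 1 := by
    have := congrArg (fun z : ℕ => (z : ZMod q)) hc
    push_cast at this
    rw [this, ZMod.natCast_self]
    ring
  have hfac : ((p : ZMod q) - 1) * ((p : ZMod q) + 1) = 0 := by linear_combination h
  have hq3 : 3 < q := by
    rcases Nat.eq_zero_or_pos u with h0 | h0
    · rw [h0] at hv
      omega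
    · omega
  rcases mul_eq_zero.1 hfac with h1 | h1
  · have hp1 : (p : ZMod q) = 1 := by linear_combination h1
    have hc1 : (c : ZMod q) = 1 := by rw [hp1, one_mul] at hcc; exact hcc
    have key : ∀ x : ℕ, 2 ≤ x → (x : ZMod q) = 1 → q + 1 ≤ x := by
      intro x hx hx1
      have h2 : ((x - 1 : ℕ) : ZMod q) = 0 := by
        rw [Nat.cast_sub (by omega), hx1]
        simp
      rw [ZMod.natCast_eq_zero_iff] at h2
      have := Nat.le_of_dvd (by omega) h2
      omega
    have h2 := Nat.mul_le_mul (key p hp2 hp1) (key c hc2 hc1)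
    rw [hc] at h2
    nlinarith
  · have hp1 : (p : ZMod q) = -1 := by linear_combination h1
    have hc1 : (c : ZMod q) = -1 := by
      rw [hp1] at hcc
      linear_combination -hcc
    have key : ∀ x : ℕ, (x : ZMod q) = -1 → q - 1 ≤ x := by
      intro x hx1
      have h2 : ((x + 1 : ℕ) : ZMod q) = 0 := by
        push_cast
        rw [hx1]
        ring
      rw [ZMod.natCast_eq_zero_iff] at h2
      have := Nat.le_of_dvd (by omega) h2
      omega
    have h2 := Nat.mul_le_mul (key p hp1) (key c hc1)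
    rw [hc] at h2
    obtain ⟨k, rfl⟩ : ∃ k, q = k + 1 := ⟨q - 1, by omega⟩
    simp only [Nat.add_sub_cancel] at h2
    nlinarith

/-- **Safe primes.** -/
theorem safe {u q n w : ℕ} (hn : n.Prime) (hq : q.Prime) (hqn : q = 2 * n + 1) (hu : 1 < u)
    (huq : u + 2 < q) (hv : u * q + 1 = 4 * w) (D : Finset (ZMod (u * q))) :
    ¬ IsHDS w D := by
  intro hD
  have hu3 : 3 ≤ u := by
    rcases Nat.lt_or_ge u 3 with h | h
    · have : u = 2 := by omega
      rw [this] at hv
      omega
    · exact h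
  have hn2 : n ≠ 2 := by omega
  have hev : Even (Nat.totient u) := Nat.totient_even (by omega)
  have hlt : Nat.totient u < u := Nat.totient_lt u hu
  have hpos : 0 < Nat.totient u := Nat.totient_pos.2 (by omega)
  have hun : ¬ n ∣ Nat.totient u := by
    rintro ⟨k, hk⟩
    have hk1 : k = 1 := by
      have h1 : n * k < n * 2 := by rw [← hk]; omega
      have h2 : k < 2 := Nat.lt_of_mul_lt_mul_left h1
      have h3 : k ≠ 0 := by rintro rfl; omega
      omega
    rw [hk1, mul_one] at hk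
    rw [hk] at hev
    exact hn2 ((Nat.Prime.even_iff hn).1 hev)
  have h1 := root_test hn hn2 hq hqn hu (by omega) hun hv
    (fun p hp hpw => sq_ne_one hq huq hp hpw hv) D hD
  have h2 : 2 * n - 1 = q - 2 := by omega
  rw [h2] at h1
  obtain ⟨k, rfl⟩ : ∃ k, q = k + 2 := ⟨q - 2, by omega⟩
  obtain ⟨y, rfl⟩ : ∃ y, u = y + 1 := ⟨u - 1, by omega⟩
  have h3 : k + 2 - 1 = k + 1 := by omega
  simp only [Nat.add_sub_cancel, h3] at h1
  have h4 : y + 2 ≤ k := by omega
  nlinarith

/-- `q = 4 n + 1` -/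
theorem four {u q n w : ℕ} (hn : n.Prime) (hq : q.Prime) (hqn : q = 4 * n + 1) (hu : 1 < u)
    (huq : 4 * u ^ 2 + 1 < q) (hv : u * q + 1 = 4 * w) (D : Finset (ZMod (u * q))) :
    ¬ IsHDS w D := by
  intro hD
  have : Fact q.Prime := ⟨hq⟩
  have hnu : u ^ 2 < n := by omega
  have hn2 : n ≠ 2 := by
    rintro rfl
    nlinarith
  have hlt : Nat.totient u < u := Nat.totient_lt u hu
  have hpos : 0 < Nat.totient u := Nat.totient_pos.2 (by omega)
  have hun : ¬ n ∣ Nat.totient u := by
    intro h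
    have := Nat.le_of_dvd hpos h
    nlinarith
  have huq' : u + 2 < q := by nlinarith
  have h1 := root_test hn hn2 hq hqn hu (by omega) hun hv (fun p hp hpw h => by
    have h2 := sq_ne_one hq huq' hp hpw hv
    obtain ⟨c, hc, hc2, hp2⟩ := cofac hp hpw hv
    have hcc : (p : ZMod q) * (c : ZMod q) = 1 := by
      have := congrArg (fun z : ℕ => (z : ZMod q)) hc
      push_cast at this
      rw [this, ZMod.natCast_self]
      ring
    have h3 : ((p : ZMod q) ^ 2 - 1) * ((p : ZMod q) ^ 2 + 1) = 0 := by linear_combination h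
    have h4 : (p : ZMod q) ^ 2 + 1 = 0 := by
      rcases mul_eq_zero.1 h3 with h5 | h5
      · exact absurd (by linear_combination h5) h2
      · exact h5
    have h5 : (c : ZMod q) ^ 2 + 1 = 0 := by
      linear_combination (c : ZMod q) ^ 2 * h4 - ((p : ZMod q) * c + 1) * hcc
    have h6 : (p : ZMod q) + c = 0 := by
      linear_combination (c : ZMod q) * h4 - (p : ZMod q) * hcc
    have key : ∀ x : ℕ, (x : ZMod q) ^ 2 + 1 = 0 → 2 * u + 1 ≤ x := by
      intro x hx
      have h7 : ((x ^ 2 + 1 : ℕ) : ZMod q) = 0 := by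
        push_cast
        exact hx
      rw [ZMod.natCast_eq_zero_iff] at h7
      have := Nat.le_of_dvd (by omega) h7
      by_contra hlt
      push Not at hlt
      have h8 : x ≤ 2 * u := by omega
      have h9 : x ^ 2 ≤ (2 * u) ^ 2 := Nat.pow_le_pow_left h8 2
      nlinarith
    have h7 : q ≤ p + c := by
      have h8 : ((p + c : ℕ) : ZMod q) = 0 := by
        push_cast
        exact h6
      rw [ZMod.natCast_eq_zero_iff] at h8
      exact Nat.le_of_dvd (by omega) h8
    have hpk := key p h4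
    have hck := key c h5
    rcases Nat.lt_or_ge p c with h8 | h8
    · have h9 : q ≤ 2 * c := by omega
      have h10 : (2 * u + 1) * q ≤ p * (2 * c) := Nat.mul_le_mul hpk h9
      nlinarith
    · have h9 : q ≤ 2 * p := by omega
      have h10 : (2 * u + 1) * q ≤ c * (2 * p) := Nat.mul_le_mul hck h9
      nlinarith) D hD
  have h2 : 4 * (2 * n - 1) ^ 2 = (q - 3) ^ 2 := by
    have : q - 3 = 2 * (2 * n - 1) := by omega
    rw [this]
    ring
  obtain ⟨k, rfl⟩ : ∃ k, q = k + 3 := ⟨q - 3, by omega⟩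
  obtain ⟨y, rfl⟩ : ∃ y, u = y + 1 := ⟨u - 1, by omega⟩
  have h5 : k + 3 - 1 = k + 2 := by omega
  simp only [Nat.add_sub_cancel, h5] at h1 h2
  have h3 : k ^ 2 ≤ 4 * (y * (k + 2)) + 4 := by
    rw [← h2]
    linarith
  have h4 : 4 * (y + 1) + 2 ≤ k + 3 := by nlinarith
  nlinarith

/-- `q = 6 n + 1` -/
theorem six {u q n w : ℕ} (hn : n.Prime) (hq : q.Prime) (hqn : q = 6 * n + 1) (hu : 1 < u)
    (huq : 4 * u ^ 2 + 6 * u + 3 < q) (hv : u * q + 1 = 4 * w) (D : Finset (ZMod (u * q))) :
    ¬ IsHDS w D := by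
  intro hD
  have : Fact q.Prime := ⟨hq⟩
  have hu3 : 3 ≤ u := by
    rcases Nat.lt_or_ge u 3 with h | h
    · have : u = 2 := by omega
      rw [this] at hv
      omega
    · exact h
  have hnu : u < n := by nlinarith
  have hn2 : n ≠ 2 := by omega
  have hlt : Nat.totient u < u := Nat.totient_lt u hu
  have hpos : 0 < Nat.totient u := Nat.totient_pos.2 (by omega)
  have hun : ¬ n ∣ Nat.totient u := by
    intro h
    have := Nat.le_of_dvd hpos h
    omega
  have huq' : u + 2 < q := by nlinarith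
  have h1 := root_test hn hn2 hq hqn hu (by omega) hun hv (fun p hp hpw h => by
    have h2 := sq_ne_one hq huq' hp hpw hv
    obtain ⟨c, hc, hc2, hp2⟩ := cofac hp hpw hv
    have hcc : (p : ZMod q) * (c : ZMod q) = 1 := by
      have := congrArg (fun z : ℕ => (z : ZMod q)) hc
      push_cast at this
      rw [this, ZMod.natCast_self]
      ring
    have h3 : ((p : ZMod q) ^ 2 - 1) *
        (((p : ZMod q) ^ 2 + p + 1) * ((p : ZMod q) ^ 2 - p + 1)) = 0 := by
      linear_combination h
    rcases mul_eq_zero.1 h3 with h4 | h4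
    · exact absurd (by linear_combination h4) h2
    rcases mul_eq_zero.1 h4 with h5 | h5
    · -- order three
      have h6 : (c : ZMod q) ^ 2 + c + 1 = 0 := by
        linear_combination (c : ZMod q) ^ 2 * h5 - ((p : ZMod q) * c + 1 + c) * hcc
      have h7 : (p : ZMod q) + c + 1 = 0 := by
        linear_combination (c : ZMod q) * h5 - ((p : ZMod q) + 1) * hcc
      have key : ∀ x : ℕ, (x : ZMod q) ^ 2 + x + 1 = 0 → 2 * u + 2 ≤ x := by
        intro x hx
        have h8 : ((x ^ 2 + x + 1 : ℕ) : ZMod q) = 0 := by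
          push_cast
          exact hx
        rw [ZMod.natCast_eq_zero_iff] at h8
        have := Nat.le_of_dvd (by omega) h8
        by_contra hlt
        push Not at hlt
        have h9 : x ≤ 2 * u + 1 := by omega
        have h10 : x ^ 2 ≤ (2 * u + 1) ^ 2 := Nat.pow_le_pow_left h9 2
        nlinarith
      have h8 : q ≤ p + c + 1 := by
        have h9 : ((p + c + 1 : ℕ) : ZMod q) = 0 := by
          push_cast
          exact h7
        rw [ZMod.natCast_eq_zero_iff] at h9
        exact Nat.le_of_dvd (by omega) h9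
      have hpk := key p h5
      have hck := key c h6
      rcases Nat.lt_or_ge p c with h9 | h9
      · have h10 : q ≤ 2 * c := by omega
        have h11 : (2 * u + 2) * q ≤ p * (2 * c) := Nat.mul_le_mul hpk h10
        nlinarith
      · have h10 : q ≤ 2 * p + 1 := by omega
        have h11 : (2 * u + 2) * q ≤ c * (2 * p + 1) := Nat.mul_le_mul hck h10
        nlinarith
    · -- order six
      have h6 : (c : ZMod q) ^ 2 - c + 1 = 0 := by
        linear_combination (c : ZMod q) ^ 2 * h5 - ((p : ZMod q) * c + 1 - c) * hcc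
      have h7 : (p : ZMod q) + c - 1 = 0 := by
        linear_combination (c : ZMod q) * h5 - ((p : ZMod q) - 1) * hcc
      have key : ∀ x : ℕ, 2 ≤ x → (x : ZMod q) ^ 2 - x + 1 = 0 → 2 * u + 2 ≤ x := by
        intro x hx2 hx
        obtain ⟨y, rfl⟩ : ∃ y, x = y + 1 := ⟨x - 1, by omega⟩
        have h8 : ((y * (y + 1) + 1 : ℕ) : ZMod q) = 0 := by
          push_cast
          push_cast at hx
          linear_combination hx
        rw [ZMod.natCast_eq_zero_iff] at h8
        have := Nat.le_of_dvd (by omega) h8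
        by_contra hlt
        push Not at hlt
        have h9 : y ≤ 2 * u := by omega
        have h10 : y * (y + 1) ≤ (2 * u) * (2 * u + 1) := Nat.mul_le_mul h9 (by omega)
        nlinarith
      have h8 : q ≤ p + c - 1 := by
        have h9 : ((p + c - 1 : ℕ) : ZMod q) = 0 := by
          rw [Nat.cast_sub (by omega)]
          push_cast
          exact h7
        rw [ZMod.natCast_eq_zero_iff] at h9
        exact Nat.le_of_dvd (by omega) h9
      have hpk := key p hp2 h5
      have hck := key c hc2 h6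
      rcases Nat.lt_or_ge p c with h9 | h9
      · have h10 : q ≤ 2 * c := by omega
        have h11 : (2 * u + 2) * q ≤ p * (2 * c) := Nat.mul_le_mul hpk h10
        nlinarith
      · have h10 : q ≤ 2 * p := by omega
        have h11 : (2 * u + 2) * q ≤ c * (2 * p) := Nat.mul_le_mul hck h10
        nlinarith) D hD
  have h2 : 9 * (2 * n - 1) ^ 2 = (q - 4) ^ 2 := by
    have : q - 4 = 3 * (2 * n - 1) := by omega
    rw [this]
    ring
  obtain ⟨k, rfl⟩ : ∃ k, q = k + 4 := ⟨q - 4, by omega⟩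
  obtain ⟨y, rfl⟩ : ∃ y, u = y + 1 := ⟨u - 1, by omega⟩
  have h5 : k + 4 - 1 = k + 3 := by omega
  simp only [Nat.add_sub_cancel, h5] at h1 h2
  have h3 : k ^ 2 ≤ 9 * (y * (k + 3)) + 9 := by
    rw [← h2]
    linarith
  have h4 : 9 * (y + 1) ≤ k + 4 := by nlinarith
  nlinarith

end Pool.Agent.H12.HD
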