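import Pool.Agent.H12.HD.Count3
import Pool.Agent.H56.DivBound

/-!
# Power saving (MP_76589c_co)
-/

set_option autoImplicit false

namespace Pool.Agent.H12.HD

open Finset

theorem rpow_mono {x a b : ℝ} (hx : 1 ≤ x) (h : a ≤ b) : x ^ a ≤ x ^ b :=
  Real.rpow_le_rpow_of_exponent_le hx h

/-- `x ≤ ⌈x⌉₊ ≤ 2 x` for `x ≥ 1` -/
theorem ceil_two {x : ℝ} (hx : 1 ≤ x) : x ≤ (⌈x⌉₊ : ℝ) ∧ (⌈x⌉₊ : ℝ) ≤ 2 * x ∧ 0 < ⌈x⌉₊ := by
  refine ⟨Nat.le_ceil x, ?_, Nat.ceil_pos.2 (by linarith)⟩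
  have := Nat.ceil_lt_add_one (show 0 ≤ x by linarith)
  linarith

/-- **Power saving for a fixed cofactor.** -/
theorem save_fixed {m u Q : ℕ} (hm : 0 < m) (hu : 1 < u) (hQ : 0 < Q) (S : Finset ℕ)
    (hS : ∀ q ∈ S, q ≤ Q ∧ IsBad m u q) :
    (S.card : ℝ) ≤ (16 * m * (K m) ^ 2 + 69) * u * (Q : ℝ) ^ (3 / 4 : ℝ) := by
  have hQ1 : (1 : ℝ) ≤ Q := by exact_mod_cast hQ
  have hQ0 : (0 : ℝ) < Q := by linarith
  set x : ℝ := (Q : ℝ) ^ (3 / 8 : ℝ) with hx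
  have hx1 : 1 ≤ x := Real.one_le_rpow hQ1 (by norm_num)
  obtain ⟨h1, h2, h3⟩ := ceil_two hx1
  set F : ℕ := ⌈x⌉₊ with hF
  set y : ℝ := (Q : ℝ) ^ (3 / 4 : ℝ) with hy
  have hy1 : 1 ≤ y := Real.one_le_rpow hQ1 (by norm_num)
  have hxy : x ^ 2 = y := by
    rw [hx, hy, ← Real.rpow_natCast, ← Real.rpow_mul hQ0.le]
    norm_num
  have hF0 : (0 : ℝ) < F := by exact_mod_cast h3
  have hF2 : (F : ℝ) ^ 2 ≤ 4 * y := by
    have := pow_le_pow_left₀ hF0.le h2 2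
    nlinarith
  have hF2' : y ≤ (F : ℝ) ^ 2 := by
    rw [← hxy]
    exact pow_le_pow_left₀ (by linarith) h1 2
  have hsq : (Q : ℝ) * √(Q : ℝ) = y * y := by
    rw [Real.sqrt_eq_rpow, hy, ← Real.rpow_add hQ0]
    nth_rw 1 [← Real.rpow_one (Q : ℝ)]
    rw [← Real.rpow_add hQ0]
    norm_num
  have hA : 64 * u * (Q * √(Q : ℝ)) / (F : ℝ) ^ 2 ≤ 64 * u * y := by
    rw [div_le_iff₀ (by positivity), hsq]
    have : (0 : ℝ) ≤ 64 * u * y := by positivity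
    nlinarith
  have hQF : (Q : ℝ) / F ≤ y := by
    rw [div_le_iff₀ hF0]
    have h4 : (Q : ℝ) ≤ y * x := by
      rw [hy, hx, ← Real.rpow_add hQ0]
      calc (Q : ℝ) = (Q : ℝ) ^ (1 : ℝ) := (Real.rpow_one _).symm
        _ ≤ _ := rpow_mono hQ1 (by norm_num)
    have : y * x ≤ y * F := mul_le_mul_of_nonneg_left h1 (by linarith)
    linarith
  have hB : 4 * u * (Q : ℝ) / F ≤ 4 * u * y := by
    have : 4 * u * (Q : ℝ) / F = 4 * u * (Q / F) := by ring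
    rw [this]
    exact mul_le_mul_of_nonneg_left hQF (by positivity)
  have hC : (4 : ℝ) * m * u * (K m) ^ 2 * F ^ 2 ≤ 4 * m * u * (K m) ^ 2 * (4 * y) :=
    mul_le_mul_of_nonneg_left hF2 (by positivity)
  have hD : (u : ℝ) ≤ u * y := by
    have : (0 : ℝ) ≤ u := by positivity
    nlinarith
  have h := bad_count1 hm hu h3 S hS
  calc (S.card : ℝ) ≤ _ := h
    _ ≤ 4 * m * u * (K m) ^ 2 * (4 * y) + (64 * u * y + 4 * u * y) + u * y := by linarith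
    _ = _ := by ring

/-- **Uniform power saving.** -/
theorem save_unif {m : ℕ} (hm : 0 < m) {η : ℝ} (hη : 0 < η) (hη2 : η < 1 / 12) :
    ∃ C : ℝ, 0 < C ∧ ∀ u Q : ℕ, 1 < u → 0 < Q → (u : ℝ) ≤ (Q : ℝ) ^ (1 / 2 - 6 * η) →
      ∀ S : Finset ℕ, (∀ q ∈ S, q ≤ Q ∧ IsBad m u q) → (S.card : ℝ) ≤ C * (Q : ℝ) ^ (1 - η / 2) := by
  obtain ⟨Cd, hCd, hdiv⟩ := Pool.Agent.H56.DivBound.divisors_card_le η hη
  refine ⟨16 * m * (K m) ^ 2 + 2 * Cd + 64 + 4 + 1, by positivity, ?_⟩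
  intro u Q hu hQ huQ S hS
  have hQ1 : (1 : ℝ) ≤ Q := by exact_mod_cast hQ
  have hQ0 : (0 : ℝ) < Q := by linarith
  set y : ℝ := (Q : ℝ) ^ (1 - η / 2) with hy
  have hy0 : 0 < y := Real.rpow_pos_of_pos hQ0 _
  set f : ℝ := (Q : ℝ) ^ (1 / 2 - 2 * η) with hf
  set t : ℝ := (Q : ℝ) ^ (1 / 2 - η) with ht
  have hf1 : 1 ≤ f := Real.one_le_rpow hQ1 (by linarith)
  have ht1 : 1 ≤ t := Real.one_le_rpow hQ1 (by linarith)
  obtain ⟨hF1, hF2, hF3⟩ := ceil_two hf1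
  obtain ⟨hT1, hT2, hT3⟩ := ceil_two ht1
  set F : ℕ := ⌈f⌉₊ with hF
  set T : ℕ := ⌈t⌉₊ with hT
  have hF0 : (0 : ℝ) < F := by exact_mod_cast hF3
  have hT0 : (0 : ℝ) < T := by exact_mod_cast hT3
  have h := bad_count hm hu hF3 hT3 S hS
  have hu0 : (0 : ℝ) < u := by exact_mod_cast (by omega : 0 < u)
  -- first term
  have hA : 4 * (m : ℝ) * (K m) ^ 2 * T ^ 2 ≤ 16 * m * (K m) ^ 2 * y := by
    have h1 : (T : ℝ) ^ 2 ≤ 4 * y := by
      have h2 : (T : ℝ) ^ 2 ≤ (2 * t) ^ 2 := pow_le_pow_left₀ hT0.le hT2 2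
      have h3 : t ^ 2 ≤ y := by
        rw [ht, hy, ← Real.rpow_natCast, ← Real.rpow_mul hQ0.le]
        refine rpow_mono hQ1 ?_
        push_cast
        linarith
      nlinarith
    calc 4 * (m : ℝ) * (K m) ^ 2 * T ^ 2 ≤ 4 * (m : ℝ) * (K m) ^ 2 * (4 * y) :=
          mul_le_mul_of_nonneg_left h1 (by positivity)
      _ = _ := by ring
  -- second term
  have hB : ((Nat.totient u).divisors.card : ℝ) * ((Q : ℝ) / (T / F)) ≤ 2 * Cd * y := by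
    have h1 := hdiv (Nat.totient u) (Nat.totient_pos.2 (by omega)).ne'
    have h2 : ((Nat.totient u : ℕ) : ℝ) ^ η ≤ (Q : ℝ) ^ (η / 2) := by
      have h3 : ((Nat.totient u : ℕ) : ℝ) ≤ (Q : ℝ) ^ (1 / 2 : ℝ) := by
        have h4 : ((Nat.totient u : ℕ) : ℝ) ≤ u := by exact_mod_cast Nat.totient_le u
        exact h4.trans (huQ.trans (rpow_mono hQ1 (by linarith)))
      calc ((Nat.totient u : ℕ) : ℝ) ^ η ≤ ((Q : ℝ) ^ (1 / 2 : ℝ)) ^ η :=
            Real.rpow_le_rpow (by positivity) h3 hη.le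
        _ = (Q : ℝ) ^ (η / 2) := by
            rw [← Real.rpow_mul hQ0.le]
            congr 1
            ring
    have h3 : (Q : ℝ) / (T / F) ≤ 2 * (Q : ℝ) ^ (1 - η) := by
      rw [div_div_eq_mul_div, div_le_iff₀ hT0]
      have h4 : (Q : ℝ) * F ≤ Q * (2 * f) := mul_le_mul_of_nonneg_left hF2 hQ0.le
      have h5 : 2 * (Q : ℝ) ^ (1 - η) * t ≤ 2 * (Q : ℝ) ^ (1 - η) * T :=
        mul_le_mul_of_nonneg_left hT1 (by positivity)
      have h6 : (Q : ℝ) * (2 * f) = 2 * (Q : ℝ) ^ (1 - η) * t := by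
        have h7 : (Q : ℝ) * f = (Q : ℝ) ^ (1 - η) * t := by
          rw [hf, ht, ← Real.rpow_add hQ0]
          nth_rw 1 [← Real.rpow_one (Q : ℝ)]
          rw [← Real.rpow_add hQ0]
          congr 1
          ring
        linarith
      linarith
    have h4 : (Q : ℝ) ^ (η / 2) * (Q : ℝ) ^ (1 - η) = y := by
      rw [hy, ← Real.rpow_add hQ0]
      congr 1
      ring
    calc ((Nat.totient u).divisors.card : ℝ) * ((Q : ℝ) / (T / F))
        ≤ (Cd * (Q : ℝ) ^ (η / 2)) * (2 * (Q : ℝ) ^ (1 - η)) := by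
          refine mul_le_mul (h1.trans (mul_le_mul_of_nonneg_left h2 hCd.le)) h3 (by positivity)
            (by positivity)
      _ = 2 * Cd * ((Q : ℝ) ^ (η / 2) * (Q : ℝ) ^ (1 - η)) := by ring
      _ = 2 * Cd * y := by rw [h4]
  -- third term
  have hC : 64 * u * (Q * √(Q : ℝ)) / (F : ℝ) ^ 2 ≤ 64 * y := by
    rw [div_le_iff₀ (by positivity)]
    have h1 : f ^ 2 ≤ (F : ℝ) ^ 2 := pow_le_pow_left₀ (by linarith) hF1 2
    have h2 : (u : ℝ) * (Q * √(Q : ℝ)) ≤ y * f ^ 2 := by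
      calc (u : ℝ) * (Q * √(Q : ℝ)) ≤ (Q : ℝ) ^ (1 / 2 - 6 * η) * (Q * √(Q : ℝ)) :=
            mul_le_mul_of_nonneg_right huQ (by positivity)
        _ = (Q : ℝ) ^ (2 - 6 * η) := by
            rw [Real.sqrt_eq_rpow]
            nth_rw 2 [← Real.rpow_one (Q : ℝ)]
            rw [← Real.rpow_add hQ0, ← Real.rpow_add hQ0]
            congr 1
            ring
        _ ≤ (Q : ℝ) ^ ((1 - η / 2) + (1 / 2 - 2 * η) * (2 : ℕ)) := by
            refine rpow_mono hQ1 ?_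
            push_cast
            linarith
        _ = y * f ^ 2 := by
            rw [hy, hf, ← Real.rpow_natCast, ← Real.rpow_mul hQ0.le, ← Real.rpow_add hQ0]
    have h3 : y * f ^ 2 ≤ y * (F : ℝ) ^ 2 := mul_le_mul_of_nonneg_left h1 hy0.le
    nlinarith
  -- fourth term
  have hD : 4 * u * (Q : ℝ) / F ≤ 4 * y := by
    rw [div_le_iff₀ hF0]
    have h2 : (u : ℝ) * Q ≤ y * f := by
      calc (u : ℝ) * Q ≤ (Q : ℝ) ^ (1 / 2 - 6 * η) * Q := mul_le_mul_of_nonneg_right huQ hQ0.le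
        _ = (Q : ℝ) ^ (3 / 2 - 6 * η) := by
            nth_rw 2 [← Real.rpow_one (Q : ℝ)]
            rw [← Real.rpow_add hQ0]
            congr 1
            ring
        _ ≤ (Q : ℝ) ^ ((1 - η / 2) + (1 / 2 - 2 * η)) := by
            refine rpow_mono hQ1 ?_
            linarith
        _ = y * f := by rw [hy, hf, ← Real.rpow_add hQ0]
    have h3 : y * f ≤ y * F := mul_le_mul_of_nonneg_left hF1 hy0.le
    nlinarith
  have hE : (u : ℝ) ≤ y := by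
    refine huQ.trans ?_
    rw [hy]
    refine rpow_mono hQ1 ?_
    linarith
  calc (S.card : ℝ) ≤ _ := h
    _ ≤ 16 * m * (K m) ^ 2 * y + 2 * Cd * y + (64 * y + 4 * y) + y := by linarith
    _ = _ := by ring

end Pool.Agent.H12.HD
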