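import Pool.Agent.H12.HD.Safe
import Pool.Agent.H12.HD.Save

/-!
# Primes `q` such that `q - 1` has a large prime factor (MP_76589c_co)
-/

set_option autoImplicit false

namespace Pool.Agent.H12.HD

open Finset

/-- the number of prime factors of `d ^ e - 1` -/
theorem card_pf_log {e d : ℕ} (hd : 1 < d) (he : 0 < e) :
    (d ^ e - 1).primeFactors.card ≤ e * (Nat.log 2 d + 1) := by
  have h1 : 1 < d ^ e := Nat.one_lt_pow he.ne' hd
  have h2 : 2 ^ (d ^ e - 1).primeFactors.card ≤ ∏ p ∈ (d ^ e - 1).primeFactors, p :=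
    Finset.pow_card_le_prod _ _ _ fun p hp => (Nat.prime_of_mem_primeFactors hp).two_le
  have h3 : ∏ p ∈ (d ^ e - 1).primeFactors, p ≤ d ^ e - 1 :=
    Nat.le_of_dvd (by omega) (Nat.prod_primeFactors_dvd _)
  have h4 : d ^ e ≤ 2 ^ (e * (Nat.log 2 d + 1)) := by
    rw [mul_comm, pow_mul]
    exact Nat.pow_le_pow_left (Nat.lt_pow_succ_log_self (by norm_num) d).le e
  have h5 : 2 ^ (d ^ e - 1).primeFactors.card < 2 ^ (e * (Nat.log 2 d + 1)) := by omega
  exact ((Nat.pow_lt_pow_iff_right (by norm_num)).1 h5).le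

/-- primes modulo which some small `d` has small order -/
theorem small_order {D z : ℕ} (S : Finset ℕ)
    (hS : ∀ q ∈ S, q.Prime ∧ ∃ d a : ℕ, 2 ≤ d ∧ d ≤ D ∧ 1 ≤ a ∧ a ≤ z ∧ q ∣ d ^ a - 1) :
    S.card ≤ D * z ^ 2 * (Nat.log 2 D + 1) := by
  have hsub : S ⊆ (Icc 2 D).biUnion fun d => (Icc 1 z).biUnion fun a =>
      (d ^ a - 1).primeFactors := by
    intro q hq
    obtain ⟨hqp, d, a, hd1, hd2, ha1, ha2, hdvd⟩ := hS q hq
    simp only [mem_biUnion, mem_Icc]
    refine ⟨d, ⟨hd1, hd2⟩, a, ⟨ha1, ha2⟩, ?_⟩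
    rw [Nat.mem_primeFactors]
    refine ⟨hqp, hdvd, ?_⟩
    have : 1 < d ^ a := Nat.one_lt_pow (by omega) hd1
    omega
  refine (card_le_card hsub).trans (card_biUnion_le.trans ?_)
  have h1 : ∀ d ∈ Icc 2 D, ((Icc 1 z).biUnion fun a =>
      (d ^ a - 1).primeFactors).card ≤ z * (z * (Nat.log 2 D + 1)) := by
    intro d hd
    rw [mem_Icc] at hd
    refine card_biUnion_le.trans ?_
    have h2 : ∀ a ∈ Icc 1 z, (d ^ a - 1).primeFactors.card ≤ z * (Nat.log 2 D + 1) := by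
      intro a ha
      rw [mem_Icc] at ha
      refine (card_pf_log hd.1 ha.1).trans ?_
      exact Nat.mul_le_mul ha.2 (Nat.add_le_add_right (Nat.log_mono_right hd.2) 1)
    refine (sum_le_card_nsmul _ _ _ h2).trans ?_
    rw [Nat.card_Icc, Nat.add_sub_cancel, smul_eq_mul]
  refine (sum_le_card_nsmul _ _ _ h1).trans ?_
  rw [Nat.card_Icc, smul_eq_mul]
  calc (D + 1 - 2) * (z * (z * (Nat.log 2 D + 1))) ≤ D * (z * (z * (Nat.log 2 D + 1))) :=
        Nat.mul_le_mul (by omega) le_rfl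
    _ = _ := by ring

/-- **All `w`, all small cofactors.** -/
theorem all_w {c δ : ℝ} (hc0 : 0 ≤ c) (hc1 : c ≤ 1) (hδ : 0 < δ) :
    ∃ C : ℝ, 0 < C ∧ ∀ Q : ℕ, 0 < Q → ∀ S : Finset ℕ,
      (∀ q ∈ S, q ≤ Q ∧ q.Prime ∧
        (∃ n : ℕ, n.Prime ∧ n ∣ q - 1 ∧ (Q : ℝ) ^ ((3 + c) / 4 + δ) ≤ n) ∧
        ∃ u w : ℕ, 1 < u ∧ (u : ℝ) ≤ (Q : ℝ) ^ c ∧ u * q + 1 = 4 * w ∧
          ∃ D : Finset (ZMod (u * q)), IsHDS w D) →
      (S.card : ℝ) ≤ C * (Q : ℝ) ^ (1 - δ) := by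
  refine ⟨2 * (3 / δ + 3), by positivity, ?_⟩
  intro Q hQ S hS
  have hQ1 : (1 : ℝ) ≤ Q := by exact_mod_cast hQ
  have hQ0 : (0 : ℝ) < Q := by linarith
  set Dr : ℝ := 2 * (Q : ℝ) ^ ((1 + c) / 2) with hDr
  set zr : ℝ := (Q : ℝ) ^ ((1 - c) / 4 - δ) with hzr
  have hDr0 : 0 < Dr := by positivity
  have hzr0 : 0 < zr := by positivity
  set D : ℕ := ⌊Dr⌋₊ with hD
  set z : ℕ := ⌊zr⌋₊ with hz
  have key : ∀ q ∈ S, q.Prime ∧ ∃ d a : ℕ, 2 ≤ d ∧ d ≤ D ∧ 1 ≤ a ∧ a ≤ z ∧ q ∣ d ^ a - 1 := by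
    intro q hq
    obtain ⟨hqQ, hqp, ⟨n, hn, hnq, hnlarge⟩, u, w, hu, huQ, hv, DD, hDD⟩ := hS q hq
    refine ⟨hqp, ?_⟩
    have : Fact q.Prime := ⟨hqp⟩
    obtain ⟨a, ha⟩ := hnq
    have hqa : q = a * n + 1 := by
      have := hqp.two_le
      rw [mul_comm] at ha
      omega
    have ha0 : 0 < a := by
      rcases Nat.eq_zero_or_pos a with h | h
      · rw [h] at hqa
        have := hqp.two_le
        omega
      · exact h
    have hn0 : (0 : ℝ) < n := by exact_mod_cast hn.pos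
    have hqQ' : (q : ℝ) ≤ Q := by exact_mod_cast hqQ
    have hnq' : (n : ℝ) < q := by
      have : n < q := by
        have : 1 * n ≤ a * n := Nat.mul_le_mul ha0 le_rfl
        omega
      exact_mod_cast this
    have hnQc : (Q : ℝ) ^ c ≤ n := (rpow_mono hQ1 (by linarith)).trans hnlarge
    have hnQ2 : (Q : ℝ) ^ ((1 + c) / 2) ≤ n := (rpow_mono hQ1 (by linarith)).trans hnlarge
    have hun : u ≤ n := by exact_mod_cast huQ.trans hnQc
    have huq : u < q := by
      have : (u : ℝ) < q := by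
        have : (u : ℝ) ≤ n := by exact_mod_cast hun
        linarith
      exact_mod_cast this
    have hn2 : n ≠ 2 := by
      rintro rfl
      have h1 : (3 : ℝ) ≤ Q := by
        have : 3 ≤ q := by omega
        have h3 : (3 : ℝ) ≤ q := by exact_mod_cast this
        linarith
      have h2 : (3 : ℝ) ^ (3 / 4 : ℝ) ≤ (Q : ℝ) ^ ((3 + c) / 4 + δ) :=
        (Real.rpow_le_rpow (by norm_num) h1 (by norm_num)).trans (rpow_mono hQ1 (by linarith))
      have h3 : (2 : ℝ) < (3 : ℝ) ^ (3 / 4 : ℝ) := by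
        have h4 : ((2 : ℝ) ^ (4 : ℕ)) ^ (1 / 4 : ℝ) < ((3 : ℝ) ^ (3 : ℕ)) ^ (1 / 4 : ℝ) :=
          Real.rpow_lt_rpow (by norm_num) (by norm_num) (by norm_num)
        rw [← Real.rpow_natCast, ← Real.rpow_mul (by norm_num), ← Real.rpow_natCast,
          ← Real.rpow_mul (by norm_num)] at h4
        norm_num at h4
        exact h4
      push_cast at hnlarge
      linarith
    have htn : ¬ n ∣ Nat.totient u := by
      intro h
      have h1 := Nat.le_of_dvd (Nat.totient_pos.2 (by omega)) h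
      have h2 := Nat.totient_lt u hu
      omega
    by_contra hcon
    push Not at hcon
    have haz : a ≤ z := by
      rw [hz]
      refine Nat.le_floor ?_
      have h1 : (a : ℝ) * n ≤ Q := by
        have : a * n ≤ Q := by omega
        exact_mod_cast this
      have h2 : zr * (Q : ℝ) ^ ((3 + c) / 4 + δ) = Q := by
        rw [hzr, ← Real.rpow_add hQ0]
        have : (1 - c) / 4 - δ + ((3 + c) / 4 + δ) = 1 := by ring
        rw [this, Real.rpow_one]
      have h3 : (a : ℝ) * n ≤ zr * n := by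
        calc (a : ℝ) * n ≤ Q := h1
          _ = zr * (Q : ℝ) ^ ((3 + c) / 4 + δ) := h2.symm
          _ ≤ zr * n := mul_le_mul_of_nonneg_left hnlarge hzr0.le
      exact le_of_mul_le_mul_right h3 hn0
    have hdivz : ∀ x : ℕ, 2 ≤ x → x ≤ D → ((x : ZMod q)) ^ a ≠ 1 := by
      intro x hx2 hxD hxa
      refine hcon x a hx2 hxD ha0 haz ?_
      have h1 : 1 ≤ x ^ a := Nat.one_le_pow _ _ (by omega)
      rw [← ZMod.natCast_eq_zero_iff, Nat.cast_sub h1]
      push_cast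
      rw [hxa, sub_self]
    have h1 := root_test hn hn2 hqp hqa hu huq htn hv (fun p hp hpw hroot => by
      obtain ⟨e, he, he2, hp2⟩ := cofac hp hpw hv
      have hcc : (p : ZMod q) * (e : ZMod q) = 1 := by
        have := congrArg (fun z : ℕ => (z : ZMod q)) he
        push_cast at this
        rw [this, ZMod.natCast_self]
        ring
      have heroot : (e : ZMod q) ^ a = 1 := by
        have h2 : ((p : ZMod q) * (e : ZMod q)) ^ a = 1 := by rw [hcc, one_pow]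
        rwa [mul_pow, hroot, one_mul] at h2
      have hle : ∀ x : ℕ, x ^ 2 ≤ u * q + 1 → x ≤ D := by
        intro x hx
        rw [hD]
        refine Nat.le_floor ?_
        have h3 : (x : ℝ) ^ 2 ≤ Dr ^ 2 := by
          have h4 : (x : ℝ) ^ 2 ≤ u * q + 1 := by exact_mod_cast hx
          have h5 : (u : ℝ) * q ≤ (Q : ℝ) ^ c * Q :=
            mul_le_mul huQ hqQ' (by positivity) (by positivity)
          have h6 : (Q : ℝ) ^ c * Q = ((Q : ℝ) ^ ((1 + c) / 2)) ^ 2 := by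
            nth_rw 2 [← Real.rpow_one (Q : ℝ)]
            rw [← Real.rpow_add hQ0, ← Real.rpow_natCast, ← Real.rpow_mul hQ0.le]
            congr 1
            push_cast
            ring
          have h7 : (1 : ℝ) ≤ ((Q : ℝ) ^ ((1 + c) / 2)) ^ 2 :=
            one_le_pow₀ (Real.one_le_rpow hQ1 (by linarith))
          have h8 : Dr ^ 2 = 4 * ((Q : ℝ) ^ ((1 + c) / 2)) ^ 2 := by
            rw [hDr]
            ring
          rw [h8]
          linarith
        exact (pow_le_pow_iff_left₀ (by positivity) hDr0.le two_ne_zero).1 h3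
      rcases Nat.lt_or_ge p e with h3 | h3
      · refine hdivz p hp2 (hle p ?_) hroot
        rw [← he, sq]
        exact Nat.mul_le_mul le_rfl h3.le
      · refine hdivz e he2 (hle e ?_) heroot
        rw [← he, sq]
        exact Nat.mul_le_mul h3 le_rfl) DD hDD
    -- numerical contradiction
    have h2 : u * q ≤ n ^ 2 := by
      have h3 : (u : ℝ) * q ≤ (n : ℝ) ^ 2 := by
        have h5 : (u : ℝ) * q ≤ (Q : ℝ) ^ c * Q :=
          mul_le_mul huQ hqQ' (by positivity) (by positivity)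
        have h6 : (Q : ℝ) ^ c * Q = ((Q : ℝ) ^ ((1 + c) / 2)) ^ 2 := by
          nth_rw 2 [← Real.rpow_one (Q : ℝ)]
          rw [← Real.rpow_add hQ0, ← Real.rpow_natCast, ← Real.rpow_mul hQ0.le]
          congr 1
          push_cast
          ring
        rw [h6] at h5
        exact h5.trans (pow_le_pow_left₀ (by positivity) hnQ2 2)
      exact_mod_cast h3
    obtain ⟨k, rfl⟩ : ∃ k, n = k + 1 := ⟨n - 1, by have := hn.pos; omega⟩
    obtain ⟨x, rfl⟩ : ∃ x, u = x + 1 := ⟨u - 1, by omega⟩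
    obtain ⟨y, rfl⟩ : ∃ y, q = y + 1 := ⟨q - 1, by have := hqp.pos; omega⟩
    have h3 : 2 * (k + 1) - 1 = 2 * k + 1 := by omega
    simp only [Nat.add_sub_cancel, h3] at h1
    nlinarith
  have hcard := small_order S key
  have h1 : (S.card : ℝ) ≤ D * z ^ 2 * ((Nat.log 2 D : ℕ) + 1) := by exact_mod_cast hcard
  have hDle : (D : ℝ) ≤ Dr := Nat.floor_le hDr0.le
  have hzle : (z : ℝ) ≤ zr := Nat.floor_le hzr0.le
  have hlog : ((Nat.log 2 D : ℕ) : ℝ) + 1 ≤ (3 / δ + 3) * (Q : ℝ) ^ δ := by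
    have hQδ : 1 ≤ (Q : ℝ) ^ δ := Real.one_le_rpow hQ1 hδ.le
    have hD2 : (D : ℝ) ≤ 2 * Q := by
      refine hDle.trans ?_
      rw [hDr]
      have : (Q : ℝ) ^ ((1 + c) / 2) ≤ (Q : ℝ) ^ (1 : ℝ) := rpow_mono hQ1 (by linarith)
      rw [Real.rpow_one] at this
      linarith
    have hD1 : 0 < D := by
      rw [hD, Nat.floor_pos, hDr]
      have := Real.one_le_rpow hQ1 (show 0 ≤ (1 + c) / 2 by linarith)
      linarith
    have h3 : (2 : ℝ) ^ (Nat.log 2 D) ≤ D := by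
      exact_mod_cast Nat.pow_log_le_self 2 hD1.ne'
    have h4 : ((Nat.log 2 D : ℕ) : ℝ) * Real.log 2 ≤ Real.log (2 * Q) := by
      rw [← Real.log_pow]
      exact Real.log_le_log (by positivity) (h3.trans hD2)
    rw [Real.log_mul (by norm_num) hQ0.ne'] at h4
    have h5 : Real.log Q ≤ (Q : ℝ) ^ δ / δ := Real.log_le_rpow_div hQ0.le hδ
    have h6 : (1 / 2 : ℝ) ≤ Real.log 2 := by
      have := Real.log_two_gt_d9
      linarith
    have h7 : Real.log 2 ≤ 1 := by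
      have := Real.log_two_lt_d9
      linarith
    have h8 : ((Nat.log 2 D : ℕ) : ℝ) * (1 / 2) ≤ 1 + (Q : ℝ) ^ δ / δ := by
      have h9 : ((Nat.log 2 D : ℕ) : ℝ) * (1 / 2) ≤ ((Nat.log 2 D : ℕ) : ℝ) * Real.log 2 :=
        mul_le_mul_of_nonneg_left h6 (by positivity)
      linarith
    have h9 : (0 : ℝ) ≤ (Q : ℝ) ^ δ / δ := by positivity
    have h10 : (3 / δ + 3) * (Q : ℝ) ^ δ = 3 * ((Q : ℝ) ^ δ / δ) + 3 * (Q : ℝ) ^ δ := by ring
    rw [h10]
    linarith
  have h2 : Dr * zr ^ 2 = 2 * (Q : ℝ) ^ (1 - 2 * δ) := by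
    rw [hDr, hzr, ← Real.rpow_natCast, ← Real.rpow_mul hQ0.le, mul_assoc, ← Real.rpow_add hQ0]
    congr 2
    push_cast
    ring
  calc (S.card : ℝ) ≤ D * z ^ 2 * ((Nat.log 2 D : ℕ) + 1) := h1
    _ ≤ Dr * zr ^ 2 * ((3 / δ + 3) * (Q : ℝ) ^ δ) := by
        refine mul_le_mul (mul_le_mul hDle (pow_le_pow_left₀ (by positivity) hzle 2)
          (by positivity) hDr0.le) hlog (by positivity) (by positivity)
    _ = 2 * (3 / δ + 3) * ((Q : ℝ) ^ (1 - 2 * δ) * (Q : ℝ) ^ δ) := by rw [h2]; ring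
    _ = 2 * (3 / δ + 3) * (Q : ℝ) ^ (1 - δ) := by
        rw [← Real.rpow_add hQ0]
        congr 2
        ring

end Pool.Agent.H12.HD
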