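import Pool.Agent.H12.HD.Desc

/-!
# Finiteness for a fixed cofactor (MP_76589c_co)
-/

set_option autoImplicit false

namespace Pool.Agent.H12.HD

open Finset

theorem inv_pow {v : ℕ} {g : ZMod v → ℤ} {a : ZMod v} (h : ∀ x, g (a * x) = g x) (j : ℕ) :
    ∀ x, g (a ^ j * x) = g x := by
  induction' j with j ih
  · simp
  · intro x
    rw [pow_succ, mul_assoc, ih, h]

theorem cop_four {v w m p b : ℕ} (hv : v + 1 = 4 * w) (hw : w = m * p ^ b) :
    Nat.Coprime (4 * m) v := by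
  have h1 : Nat.Coprime (v + 1) v := by simp
  have h2 : v + 1 = (4 * m) * p ^ b := by rw [hv, hw]; ring
  rw [h2] at h1
  exact h1.coprime_mul_right

/-- **Theorem 1.** If `q` divides none of the numbers `(4m)^(i φ(u) j) - 1`, then a cyclic Hadamard
difference set in `ℤ/(u q^c)` forces one in `ℤ/u` -/
theorem cofactor {m u p b q c w : ℕ} (hu : 1 < u) (hp : p.Prime) (hq : q.Prime) (hc : 0 < c)
    (hv : u * q ^ c + 1 = 4 * w) (hw : w = m * p ^ b)
    (hbig : ∀ i j, 1 ≤ i → i ≤ K m → 1 ≤ j → j ≤ u + 1 → Nat.lcm 2 j ≤ u + 1 → ¬ q ∣ (4 * m) ^ (i * Nat.totient u * j) - 1)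
    (D : Finset (ZMod (u * q ^ c))) (hD : IsHDS w D) :
    ∃ w', 0 < w' ∧ u + 1 = 4 * w' ∧ ∃ D' : Finset (ZMod u), IsHDS w' D' := by
  have hqc : 1 < q ^ c := Nat.one_lt_pow hc.ne' hq.one_lt
  have hu0 : NeZero u := ⟨by omega⟩
  have hqc0 : NeZero (q ^ c) := ⟨by omega⟩
  have hv0 : NeZero (u * q ^ c) := ⟨(Nat.mul_pos (by omega) (by omega)).ne'⟩
  have hw2 : 2 ≤ w := by
    have : 2 * 2 ≤ u * q ^ c := Nat.mul_le_mul hu hqc
    omega
  obtain ⟨i, hi1, hi2, g, hg, hinv⟩ := exists_mult hv hw hw2 hp D hD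
  have hcop := cop_four hv hw
  have hcu : Nat.Coprime (4 * m) u := hcop.coprime_mul_right_right
  have hcr : Nat.Coprime (4 * m) (q ^ c) := hcop.coprime_mul_left_right
  set t : ℕ := (4 * m) ^ (i * Nat.totient u) with ht
  have htg : ∀ x, g ((t : ZMod (u * q ^ c)) * x) = g x := by
    intro x
    have := inv_pow hinv (Nat.totient u) x
    rw [← pow_mul] at this
    rw [ht]
    push_cast at this ⊢
    exact this
  have ht1 : (t : ZMod u) = 1 := by
    have h1 := ZMod.pow_totient (ZMod.unitOfCoprime (4 * m) hcu)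
    have h2 := congrArg (fun z : (ZMod u)ˣ => ((z ^ i : (ZMod u)ˣ) : ZMod u)) h1
    simp only [one_pow, Units.val_one, Units.val_pow_eq_pow_val, ZMod.coe_unitOfCoprime] at h2
    rw [ht, Nat.cast_pow, mul_comm i, pow_mul]
    exact h2
  have htc : Nat.Coprime t (q ^ c) := Nat.Coprime.pow_left _ hcr
  have htq : Nat.Coprime t q := Nat.Coprime.coprime_dvd_right (dvd_pow_self q hc.ne') htc
  obtain ⟨g', hg'⟩ := descent_had (N := orderOf (t : ZMod q)) rfl ⟨2 * w - 1, by omega⟩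
    g hg t htc htg ht1
    (fun q' hq' hd => by
      rw [(Nat.prime_dvd_prime_iff_eq hq' hq).1 (hq'.dvd_of_dvd_pow hd)]) (by
      by_contra hcon
      push Not at hcon
      refine hbig i (orderOf (t : ZMod q)) hi1 hi2 (order_pos hq htq)
        ((Nat.le_of_dvd (Nat.lcm_pos two_pos (order_pos hq htq)) (Nat.dvd_lcm_right _ _)).trans
          hcon) hcon ?_
      have h1 : (t : ZMod q) ^ orderOf (t : ZMod q) = 1 := pow_orderOf_eq_one _
      have h2 : 1 ≤ (4 * m) ^ (i * Nat.totient u * orderOf (t : ZMod q)) := by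
        refine Nat.one_le_iff_ne_zero.2 (pow_ne_zero _ ?_)
        rintro h0
        rw [h0, Nat.coprime_zero_left] at hcu
        omega
      rw [← ZMod.natCast_eq_zero_iff, Nat.cast_sub h2, Nat.cast_one, sub_eq_zero, pow_mul, ← ht,
        Nat.cast_pow, h1])
  exact hds_of_had hu g' hg'

/-- the size of the exceptional primes -/
theorem cofactor_big {m u q : ℕ} (hm : 0 < m) (hu : 0 < u)
    (hq : (4 * m) ^ (K m * u * (u + 1)) ≤ q) :
    ∀ i j, 1 ≤ i → i ≤ K m → 1 ≤ j → j ≤ u + 1 → Nat.lcm 2 j ≤ u + 1 →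
      ¬ q ∣ (4 * m) ^ (i * Nat.totient u * j) - 1 := by
  intro i j hi1 hi2 hj1 hj2 _ hdvd
  have h1 : 1 < (4 * m) ^ (i * Nat.totient u * j) := by
    refine Nat.one_lt_pow ?_ (by omega)
    have := Nat.totient_pos.2 hu
    positivity
  have h2 := Nat.le_of_dvd (by omega) hdvd
  have h3 : (4 * m) ^ (i * Nat.totient u * j) ≤ (4 * m) ^ (K m * u * (u + 1)) := by
    refine Nat.pow_le_pow_right (by omega) ?_
    exact Nat.mul_le_mul (Nat.mul_le_mul hi2 (Nat.totient_le u)) hj2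
  omega

end Pool.Agent.H12.HD
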