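import Mathlib

/-!
# Hadamard functions on finite abelian groups, fixed points of multipliers (MP_76589c_co)
-/

set_option autoImplicit false

namespace Pool.Agent.H12.HD

open Finset

/-- a function with values `1, -1` on a finite abelian group all whose nontrivial
autocorrelations are `-1` -/
structure Had {A : Type*} [AddCommGroup A] [Fintype A] (g : A → ℤ) : Prop where
  val : ∀ x, g x = 1 ∨ g x = -1
  ac : ∀ s, s ≠ 0 → ∑ x, g x * g (x + s) = -1

theorem Had.mul_self {A : Type*} [AddCommGroup A] [Fintype A] {g : A → ℤ} (hg : Had g) (x : A) :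
    g x * g x = 1 := by
  rcases hg.val x with h | h <;> simp [h]

theorem Had.abs_le {A : Type*} [AddCommGroup A] [Fintype A] {g : A → ℤ} (hg : Had g) (x y : A) :
    |g x * g y| ≤ 1 := by
  rcases hg.val x with h | h <;> rcases hg.val y with h' | h' <;> simp [h, h']

theorem Had.equiv {A B : Type*} [AddCommGroup A] [Fintype A] [AddCommGroup B] [Fintype B]
    {g : A → ℤ} (hg : Had g) (e : B ≃+ A) : Had (fun x => g (e x)) := by
  refine ⟨fun x => hg.val _, fun s hs => ?_⟩
  have h := hg.ac (e s) (by simpa using hs)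
  rw [← h, ← Equiv.sum_comp e.toEquiv]
  exact Finset.sum_congr rfl fun x _ => by simp

/-- invariant sums over a union of orbits of length divisible by `N` -/
theorem orb {α : Type*} [Finite α] [DecidableEq α] (φ : α → α) (hφ : Function.Injective φ)
    (f : α → ℤ) (hf : ∀ x, f (φ x) = f x) (N : ℕ) (S : Finset α) (hS : ∀ x ∈ S, φ x ∈ S)
    (hN : ∀ x ∈ S, ∀ k, φ^[k] x = x → N ∣ k) : (N : ℤ) ∣ ∑ x ∈ S, f x := by
  induction' hc : S.card using Nat.strong_induction_on with c ih generalizing S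
  rcases S.eq_empty_or_nonempty with rfl | ⟨x, hx⟩
  · simp
  set P := Function.minimalPeriod φ x with hP
  have hPpos : 0 < P := Function.minimalPeriod_pos_of_mem_periodicPts (hφ.mem_periodicPts x)
  have hPx : φ^[P] x = x := Function.isPeriodicPt_minimalPeriod φ x
  set O : Finset α := (range P).image (fun k => φ^[k] x) with hO
  have hiter : ∀ k, φ^[k] x ∈ S := by
    intro k
    induction' k with k ihk
    · simpa using hx
    · rw [Function.iterate_succ_apply']
      exact hS _ ihk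
  have hOS : O ⊆ S := by
    intro y hy
    obtain ⟨k, _, rfl⟩ := mem_image.1 hy
    exact hiter k
  have hxO : x ∈ O := mem_image.2 ⟨0, mem_range.2 hPpos, rfl⟩
  have hinj : Set.InjOn (fun k => φ^[k] x) (range P : Set ℕ) := by
    intro a ha b hb hab
    have := Function.iterate_injOn_Iio_minimalPeriod (f := φ) (x := x)
    exact this (by simpa using ha) (by simpa using hb) hab
  have hfit : ∀ k, f (φ^[k] x) = f x := by
    intro k
    induction' k with k ihk
    · simp
    · rw [Function.iterate_succ_apply', hf, ihk]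
  have hsumO : ∑ y ∈ O, f y = P * f x := by
    rw [hO, sum_image hinj, sum_congr rfl (fun k _ => hfit k)]
    simp
  have hcompl : ∀ y ∈ S \ O, φ y ∈ S \ O := by
    intro y hy
    rw [mem_sdiff] at hy ⊢
    refine ⟨hS y hy.1, fun hcon => hy.2 ?_⟩
    obtain ⟨k, hk, hky⟩ := mem_image.1 hcon
    rw [mem_range] at hk
    rcases Nat.eq_zero_or_pos k with rfl | hkpos
    · have h1 : φ (φ^[P - 1] x) = φ y := by
        rw [← Function.iterate_succ_apply' φ (P - 1) x, Nat.succ_eq_add_one,
          Nat.sub_add_cancel hPpos, hPx]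
        simpa using hky
      rw [← hφ h1]
      exact mem_image.2 ⟨P - 1, mem_range.2 (by omega), rfl⟩
    · have h1 : φ (φ^[k - 1] x) = φ y := by
        rw [← Function.iterate_succ_apply' φ (k - 1) x, Nat.succ_eq_add_one,
          Nat.sub_add_cancel hkpos]
        exact hky
      rw [← hφ h1]
      exact mem_image.2 ⟨k - 1, mem_range.2 (by omega), rfl⟩
  have hcard : (S \ O).card < c := by
    rw [← hc]
    exact card_lt_card (sdiff_ssubset hOS ⟨x, hxO⟩)
  have h2 := ih _ hcard (S \ O) hcompl (fun y hy => hN y (mem_sdiff.1 hy).1) rfl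
  rw [← sum_sdiff hOS, hsumO]
  refine dvd_add h2 (Dvd.dvd.mul_right ?_ _)
  exact_mod_cast hN x hx P hPx

set_option linter.unusedSectionVars false

section prod

variable {B C : Type*} [AddCommGroup B] [Fintype B] [AddCommGroup C] [Fintype C]
  [DecidableEq B] [DecidableEq C]

/-- a sum of an even number of odd integers is even -/
theorem even_sum_odd {α : Type*} (S : Finset α) (f : α → ℤ) (hf : ∀ x ∈ S, Odd (f x))
    (hS : Even S.card) : Even (∑ x ∈ S, f x) := by
  have h1 : ∑ x ∈ S, f x = ∑ x ∈ S, (f x - 1) + S.card := by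
    rw [sum_sub_distrib]
    simp
  rw [h1]
  refine Even.add ?_ (by exact_mod_cast hS)
  exact Finset.even_sum (s := S) (f := fun x => f x - 1) (fun x hx => (hf x hx).sub_odd odd_one)

theorem Had.odd_sum {A : Type*} [AddCommGroup A] [Fintype A] {g : A → ℤ} (hg : Had g)
    {α : Type*} [Fintype α] (hα : Odd (Fintype.card α)) (i j : α → A) :
    Odd (∑ x, g (i x) * g (j x)) := by
  have h1 : ∑ x, g (i x) * g (j x) = ∑ x, (g (i x) * g (j x) - 1) + Fintype.card α := by
    rw [sum_sub_distrib]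
    simp
  rw [h1]
  refine Even.add_odd ?_ (by exact_mod_cast hα)
  refine Finset.even_sum (s := univ) (f := fun x => g (i x) * g (j x) - 1) fun x _ => ?_
  rcases hg.val (i x) with h | h <;> rcases hg.val (j x) with h' | h' <;> rw [h, h'] <;> decide

/-- **Descent**: a Hadamard function on `B × C` invariant under a permutation of `C` fixing only
`0`, all whose other orbits have length divisible by a number `N` with `lcm 2 N > |B| + 1`, is a
Hadamard function on `B × 0` (the orders are odd) -/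
theorem descent_prod (hoB : Odd (Fintype.card B)) (hoC : Odd (Fintype.card C))
    (g : B × C → ℤ) (hg : Had g) (φ : C → C) (hφ : Function.Injective φ)
    (h0 : φ 0 = 0) (hinv : ∀ x y, g (x, φ y) = g (x, y)) (N : ℕ)
    (hN : ∀ y, y ≠ 0 → ∀ k, φ^[k] y = y → N ∣ k) (hB : Fintype.card B + 1 < Nat.lcm 2 N) :
    Had (fun x => g (x, 0)) := by
  refine ⟨fun x => hg.val _, fun s hs => ?_⟩
  set f : C → ℤ := fun y => ∑ x, g (x, y) * g (x + s, y) with hf
  have h1 : ∑ y, f y = -1 := by
    rw [← hg.ac (s, 0) (by simpa using hs), Fintype.sum_prod_type_right]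
    simp [hf]
  have hdvd : (N : ℤ) ∣ ∑ y ∈ univ.erase 0, f y := by
    refine orb φ hφ f (fun y => ?_) N _ (fun y hy => ?_) (fun y hy => ?_)
    · simp only [hf, hinv]
    · rw [mem_erase] at hy ⊢
      refine ⟨fun h => hy.1 (hφ ?_), mem_univ _⟩
      rw [h, h0]
    · exact hN y (mem_erase.1 hy).1
  have hdvd2 : (2 : ℤ) ∣ ∑ y ∈ univ.erase 0, f y := by
    rw [← even_iff_two_dvd]
    refine even_sum_odd _ _ (fun y _ => hg.odd_sum hoB (fun x => (x, y)) (fun x => (x + s, y))) ?_
    rw [card_erase_of_mem (mem_univ _), card_univ]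
    obtain ⟨k, hk⟩ := hoC
    exact ⟨k, by omega⟩
  replace hdvd : ((Nat.lcm 2 N : ℕ) : ℤ) ∣ ∑ y ∈ univ.erase 0, f y := by
    rw [Int.natCast_dvd]
    exact Nat.lcm_dvd (by exact_mod_cast Int.natCast_dvd.1 hdvd2) (Int.natCast_dvd.1 hdvd)
  have h2 : f 0 + ∑ y ∈ univ.erase 0, f y = -1 := by
    rw [add_sum_erase _ _ (mem_univ _), h1]
  have h3 : |f 0| ≤ Fintype.card B := by
    calc |f 0| ≤ ∑ x : B, |g (x, 0) * g (x + s, 0)| := abs_sum_le_sum_abs _ _
      _ ≤ ∑ x : B, 1 := sum_le_sum fun x _ => hg.abs_le _ _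
      _ = Fintype.card B := by simp
  obtain ⟨c, hc⟩ := hdvd
  rw [hc] at h2
  have hN' : ((Fintype.card B : ℤ) + 1 < (Nat.lcm 2 N : ℕ)) := by exact_mod_cast hB
  set L : ℤ := ((Nat.lcm 2 N : ℕ) : ℤ) with hL
  have hcard : (0:ℤ) ≤ Fintype.card B := by positivity
  rw [abs_le] at h3
  have hc0 : c = 0 := by
    by_contra hne
    rcases lt_or_gt_of_ne hne with h | h
    · have : L * c ≤ -L := by nlinarith
      linarith [h3.2]
    · have : L ≤ L * c := by nlinarith
      linarith [h3.1]
  rw [hc0] at h2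
  show f 0 = -1
  linarith

/-- the norm of the sums over the fibres -/
theorem sum_fibre_sq (g : B × C → ℤ) (hg : Had g) :
    ∑ x, (∑ y, g (x, y)) ^ 2 =
      ((Fintype.card B : ℤ) - 1) * (Fintype.card C) + 1 := by
  have h1 : ∑ x, (∑ y, g (x, y)) ^ 2 = ∑ s : C, ∑ z : B × C, g z * g (z + (0, s)) := by
    rw [Finset.sum_comm (s := (univ : Finset C)) (t := (univ : Finset (B × C))),
      Fintype.sum_prod_type]
    refine sum_congr rfl fun x _ => ?_
    rw [sq, sum_mul_sum]
    refine sum_congr rfl fun y _ => ?_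
    rw [← Equiv.sum_comp (Equiv.addLeft y)]
    simp
  rw [h1, ← add_sum_erase _ _ (mem_univ (0 : C))]
  have h2 : ∑ z : B × C, g z * g (z + (0, 0)) = (Fintype.card B : ℤ) * Fintype.card C := by
    have : ∀ z : B × C, g z * g (z + (0, 0)) = 1 := by
      intro z
      rw [show ((0 : B), (0 : C)) = 0 from rfl, add_zero, hg.mul_self]
    rw [sum_congr rfl (fun z _ => this z)]
    simp
  have h3 : ∀ s ∈ univ.erase (0 : C), ∑ z : B × C, g z * g (z + (0, s)) = -1 := by
    intro s hs
    exact hg.ac _ (by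
      rw [mem_erase] at hs
      intro h
      exact hs.1 (Prod.ext_iff.1 h).2)
  rw [h2, sum_congr rfl h3, sum_const, card_erase_of_mem (mem_univ _), card_univ, nsmul_eq_mul,
    Nat.cast_sub Fintype.card_pos]
  push_cast
  ring

/-- the norm identity -/
theorem norm_id (g : B × C → ℤ) (hg : Had g) (F : ℤ) (l : B → ℤ)
    (hl : ∀ x, ∑ y, g (x, y) = g (x, 0) + F * l x) :
    ((Fintype.card B : ℤ) - 1) * ((Fintype.card C : ℤ) - 1) =
      2 * F * ∑ x, g (x, 0) * l x + F ^ 2 * ∑ x, l x ^ 2 := by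
  have h1 := sum_fibre_sq g hg
  have h2 : ∑ x, (∑ y, g (x, y)) ^ 2 = Fintype.card B + 2 * F * ∑ x, g (x, 0) * l x +
      F ^ 2 * ∑ x, l x ^ 2 := by
    have : ∀ x, (∑ y, g (x, y)) ^ 2 = 1 + 2 * F * (g (x, 0) * l x) + F ^ 2 * l x ^ 2 := by
      intro x
      rw [hl, ← hg.mul_self (x, 0)]
      ring
    rw [sum_congr rfl (fun x _ => this x), sum_add_distrib, sum_add_distrib, ← mul_sum, ← mul_sum]
    simp
  rw [h2] at h1
  linarith

/-- the sum over a fibre off zero is divisible by the orbit length -/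
theorem exists_l (hoC : Odd (Fintype.card C)) (g : B × C → ℤ) (hg : ∀ x, Odd (g x)) (φ : C → C)
    (hφ : Function.Injective φ)
    (h0 : φ 0 = 0) (hinv : ∀ x y, g (x, φ y) = g (x, y)) (N : ℕ)
    (hN : ∀ y, y ≠ 0 → ∀ k, φ^[k] y = y → N ∣ k) :
    ∃ l : B → ℤ, ∀ x, ∑ y, g (x, y) = g (x, 0) + (Nat.lcm 2 N : ℕ) * l x := by
  have hdvd : ∀ x, (N : ℤ) ∣ ∑ y ∈ univ.erase (0 : C), g (x, y) := by
    intro x
    refine orb φ hφ (fun y => g (x, y)) (fun y => hinv x y) N _ (fun y hy => ?_) (fun y hy => ?_)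
    · rw [mem_erase] at hy ⊢
      refine ⟨fun h => hy.1 (hφ ?_), mem_univ _⟩
      rw [h, h0]
    · exact hN y (mem_erase.1 hy).1
  have hdvd' : ∀ x, ((Nat.lcm 2 N : ℕ) : ℤ) ∣ ∑ y ∈ univ.erase (0 : C), g (x, y) := by
    intro x
    have hdvd2 : (2 : ℤ) ∣ ∑ y ∈ univ.erase (0 : C), g (x, y) := by
      rw [← even_iff_two_dvd]
      refine even_sum_odd _ _ (fun y _ => hg _) ?_
      rw [card_erase_of_mem (mem_univ _), card_univ]
      obtain ⟨k, hk⟩ := hoC
      exact ⟨k, by omega⟩
    rw [Int.natCast_dvd]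
    exact Nat.lcm_dvd (by exact_mod_cast Int.natCast_dvd.1 hdvd2) (Int.natCast_dvd.1 (hdvd x))
  choose l hl using hdvd'
  refine ⟨l, fun x => ?_⟩
  rw [← hl x, add_sum_erase _ (fun y => g (x, y)) (mem_univ _)]

end prod

end Pool.Agent.H12.HD
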