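import Mathlib

/-!
# Counting lemmas (MP_76589c_co)
-/

set_option autoImplicit false

namespace Pool.Agent.H12.HD

open Finset

/-- the number of prime factors of `a ^ e - 1` -/
theorem card_pf_le {e a : ℕ} (ha : 1 < a) (he : 0 < e) :
    (a ^ e - 1).primeFactors.card ≤ a * e := by
  have h1 : 1 < a ^ e := Nat.one_lt_pow he.ne' ha
  have h2 : 2 ^ (a ^ e - 1).primeFactors.card ≤ ∏ p ∈ (a ^ e - 1).primeFactors, p :=
    Finset.pow_card_le_prod _ _ _ fun p hp => (Nat.prime_of_mem_primeFactors hp).two_le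
  have h3 : ∏ p ∈ (a ^ e - 1).primeFactors, p ≤ a ^ e - 1 :=
    Nat.le_of_dvd (by omega) (Nat.prod_primeFactors_dvd _)
  have h4 : a ^ e ≤ 2 ^ (a * e) := by
    rw [pow_mul]
    exact Nat.pow_le_pow_left (Nat.lt_two_pow_self).le e
  have h5 : 2 ^ (a ^ e - 1).primeFactors.card < 2 ^ (a * e) := by omega
  exact ((Nat.pow_lt_pow_iff_right (by norm_num)).1 h5).le

/-- primes dividing one of the numbers `a ^ (i c n) - 1` -/
theorem small1 {a c K T : ℕ} (ha : 1 < a) (hc : 0 < c) (S : Finset ℕ)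
    (hS : ∀ q ∈ S, q.Prime ∧ ∃ i n : ℕ, 1 ≤ i ∧ i ≤ K ∧ 1 ≤ n ∧ n ≤ T ∧
      q ∣ a ^ (i * c * n) - 1) : S.card ≤ a * c * K ^ 2 * T ^ 2 := by
  have hsub : S ⊆ (Icc 1 K).biUnion fun i => (Icc 1 T).biUnion fun n =>
      (a ^ (i * c * n) - 1).primeFactors := by
    intro q hq
    obtain ⟨hqp, i, n, hi1, hi2, hn1, hn2, hd⟩ := hS q hq
    simp only [mem_biUnion, mem_Icc]
    refine ⟨i, ⟨hi1, hi2⟩, n, ⟨hn1, hn2⟩, ?_⟩
    rw [Nat.mem_primeFactors]
    refine ⟨hqp, hd, ?_⟩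
    have : 1 < a ^ (i * c * n) := Nat.one_lt_pow (by positivity) ha
    omega
  refine (card_le_card hsub).trans ?_
  refine card_biUnion_le.trans ?_
  have h1 : ∀ i ∈ Icc 1 K, ((Icc 1 T).biUnion fun n =>
      (a ^ (i * c * n) - 1).primeFactors).card ≤ T * (a * (K * c * T)) := by
    intro i hi
    rw [mem_Icc] at hi
    refine card_biUnion_le.trans ?_
    have h2 : ∀ n ∈ Icc 1 T, (a ^ (i * c * n) - 1).primeFactors.card ≤ a * (K * c * T) := by
      intro n hn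
      rw [mem_Icc] at hn
      have hpos : 0 < i * c * n := by
        have := hi.1
        have := hn.1
        positivity
      refine (card_pf_le ha hpos).trans ?_
      exact Nat.mul_le_mul le_rfl (Nat.mul_le_mul (Nat.mul_le_mul hi.2 le_rfl) hn.2)
    refine (sum_le_card_nsmul _ _ _ h2).trans ?_
    rw [Nat.card_Icc, Nat.add_sub_cancel, smul_eq_mul]
  refine (sum_le_card_nsmul _ _ _ h1).trans ?_
  rw [Nat.card_Icc, Nat.add_sub_cancel, smul_eq_mul]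
  apply le_of_eq
  ring

/-- integers `q ≤ Q` such that `q - 1` is divisible by a large divisor of `h` -/
theorem small2 {h Q : ℕ} {D₀ : ℝ} (hD : 0 < D₀) (S : Finset ℕ)
    (hS : ∀ q ∈ S, 2 ≤ q ∧ q ≤ Q ∧ ∃ d ∈ h.divisors, D₀ ≤ (d : ℝ) ∧ d ∣ q - 1) :
    (S.card : ℝ) ≤ h.divisors.card * ((Q : ℝ) / D₀) := by
  classical
  have hsub : S ⊆ (h.divisors.filter fun d : ℕ => D₀ ≤ (d : ℝ)).biUnion fun d =>
      ((Ioc 0 Q).filter fun x => d ∣ x).image fun x => x + 1 := by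
    intro q hq
    obtain ⟨hq2, hqQ, d, hd, hD0, hdq⟩ := hS q hq
    simp only [mem_biUnion, mem_filter, mem_image, mem_Ioc]
    exact ⟨d, ⟨hd, hD0⟩, q - 1, ⟨⟨by omega, by omega⟩, hdq⟩, by omega⟩
  have h1 : (S.card : ℝ) ≤ ∑ d ∈ h.divisors.filter fun d : ℕ => D₀ ≤ (d : ℝ), (Q : ℝ) / D₀ := by
    have h2 := (card_le_card hsub).trans card_biUnion_le
    have h3 : (S.card : ℝ) ≤ ∑ d ∈ h.divisors.filter fun d : ℕ => D₀ ≤ (d : ℝ),
        ((((Ioc 0 Q).filter fun x => d ∣ x).image fun x => x + 1).card : ℝ) := by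
      exact_mod_cast h2
    refine h3.trans (sum_le_sum fun d hd => ?_)
    have hd' := (mem_filter.1 hd).2
    have hdpos : (0 : ℝ) < d := hD.trans_le hd'
    calc ((((Ioc 0 Q).filter fun x => d ∣ x).image fun x => x + 1).card : ℝ)
        ≤ (((Ioc 0 Q).filter fun x => d ∣ x).card : ℝ) := by exact_mod_cast card_image_le
      _ = ((Q / d : ℕ) : ℝ) := by rw [Nat.Ioc_filter_dvd_card_eq_div]
      _ ≤ (Q : ℝ) / d := Nat.cast_div_le
      _ ≤ (Q : ℝ) / D₀ := div_le_div_of_nonneg_left (by positivity) hD hd'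
  refine h1.trans ?_
  rw [sum_const, nsmul_eq_mul]
  refine mul_le_mul_of_nonneg_right ?_ (by positivity)
  exact_mod_cast card_filter_le _ _

/-- natural numbers `j` with `|b j - x| ≤ R` -/
theorem card_interval {b : ℕ} (hb : 0 < b) (x R : ℝ) (hR : 0 ≤ R) (S : Finset ℕ)
    (hS : ∀ j ∈ S, |(b : ℝ) * j - x| ≤ R) : (S.card : ℝ) ≤ 2 * R / b + 1 := by
  have hb0 : (0 : ℝ) < b := by exact_mod_cast hb
  have hsub : S.image (fun j : ℕ => (j : ℤ)) ⊆ Icc ⌈(x - R) / b⌉ ⌊(x + R) / b⌋ := by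
    intro z hz
    obtain ⟨j, hj, rfl⟩ := mem_image.1 hz
    have := abs_le.1 (hS j hj)
    rw [mem_Icc, Int.ceil_le, Int.le_floor, div_le_iff₀ hb0, le_div_iff₀ hb0]
    push_cast
    constructor <;> linarith [this.1, this.2]
  have h1 := card_le_card hsub
  rw [card_image_of_injective _ Nat.cast_injective, Int.card_Icc] at h1
  have h2 : (S.card : ℤ) ≤ max (⌊(x + R) / b⌋ + 1 - ⌈(x - R) / b⌉) 0 := by
    have := Int.toNat_eq_max (⌊(x + R) / b⌋ + 1 - ⌈(x - R) / b⌉)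
    rw [← this]
    exact_mod_cast h1
  have h3 : ((⌊(x + R) / b⌋ + 1 - ⌈(x - R) / b⌉ : ℤ) : ℝ) ≤ 2 * R / b + 1 := by
    push_cast
    have h4 := Int.floor_le ((x + R) / (b : ℝ))
    have h5 := Int.le_ceil ((x - R) / (b : ℝ))
    have h6 : (x + R) / (b : ℝ) - (x - R) / b = 2 * R / b := by ring
    linarith
  have h4 : (0 : ℝ) ≤ 2 * R / b + 1 := by positivity
  have h5 : ((S.card : ℤ) : ℝ) ≤ ((max (⌊(x + R) / b⌋ + 1 - ⌈(x - R) / b⌉) 0 : ℤ) : ℝ) := by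
    exact_mod_cast h2
  rw [Int.cast_max] at h5
  have h6 : ((S.card : ℤ) : ℝ) = (S.card : ℝ) := by push_cast; rfl
  rw [h6] at h5
  refine h5.trans (max_le h3 ?_)
  push_cast
  exact h4

theorem sum_inv_sq {F : ℕ} (hF : 0 < F) (Q : ℕ) :
    ∑ L ∈ Ioc F Q, (1 : ℝ) / (L : ℝ) ^ 2 ≤ 1 / F := by
  rcases Nat.lt_or_ge F Q with h | h
  · have h1 : ∀ n ≥ F, ∑ L ∈ Ioc F n, (1 : ℝ) / (L : ℝ) ^ 2 ≤ 1 / F - 1 / n := by
      intro n hn
      induction' n, hn using Nat.le_induction with n hn ih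
      · simp
      · rw [Finset.sum_Ioc_succ_top hn]
        have hn0 : (0 : ℝ) < n := by exact_mod_cast (by omega : 0 < n)
        have h2 : (1 : ℝ) / ((n + 1 : ℕ) : ℝ) ^ 2 ≤ 1 / n - 1 / ((n + 1 : ℕ) : ℝ) := by
          push_cast
          rw [div_sub_div _ _ hn0.ne' (by positivity), div_le_div_iff₀ (by positivity)
            (by positivity)]
          nlinarith
        linarith
    have h2 := h1 Q h.le
    have : (0 : ℝ) ≤ 1 / Q := by positivity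
    linarith
  · rw [Ioc_eq_empty_of_le h]
    simp

theorem sum_inv_cube {F : ℕ} (hF : 0 < F) (Q : ℕ) :
    ∑ L ∈ Ioc F Q, (1 : ℝ) / (L : ℝ) ^ 3 ≤ 1 / (F : ℝ) ^ 2 := by
  have hF0 : (0 : ℝ) < F := by exact_mod_cast hF
  calc ∑ L ∈ Ioc F Q, (1 : ℝ) / (L : ℝ) ^ 3 ≤ ∑ L ∈ Ioc F Q, (1 / F) * ((1 : ℝ) / (L : ℝ) ^ 2) := by
        refine sum_le_sum fun L hL => ?_
        rw [mem_Ioc] at hL
        have hL0 : (0 : ℝ) < L := by exact_mod_cast (by omega : 0 < L)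
        have hFL : (F : ℝ) ≤ L := by exact_mod_cast hL.1.le
        rw [div_mul_div_comm, one_mul]
        refine one_div_le_one_div_of_le (by positivity) ?_
        calc (F : ℝ) * (L : ℝ) ^ 2 ≤ L * (L : ℝ) ^ 2 :=
              mul_le_mul_of_nonneg_right hFL (by positivity)
          _ = (L : ℝ) ^ 3 := by ring
    _ = (1 / F) * ∑ L ∈ Ioc F Q, (1 : ℝ) / (L : ℝ) ^ 2 := by rw [mul_sum]
    _ ≤ (1 / F) * (1 / F) := mul_le_mul_of_nonneg_left (sum_inv_sq hF Q) (by positivity)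
    _ = 1 / (F : ℝ) ^ 2 := by rw [sq]; field_simp

/-- the bound for `L² M` -/
theorem LM_bound {u q L : ℕ} {J M : ℤ} (hu : 1 < u) (hq : 2 ≤ q)
    (hJ : J ^ 2 ≤ u * M)
    (h : ((u : ℤ) - 1) * ((q : ℤ) - 1) = 2 * L * J + L ^ 2 * M) :
    (L : ℤ) ^ 2 * M ≤ 4 * u * q := by
  have hu' : (2 : ℤ) ≤ u := by exact_mod_cast hu
  have hq' : (2 : ℤ) ≤ q := by exact_mod_cast hq
  by_contra hcon
  push Not at hcon
  set X : ℤ := (L : ℤ) ^ 2 * M with hX
  set A : ℤ := ((u : ℤ) - 1) * ((q : ℤ) - 1) with hA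
  have h1 : (X - A) ^ 2 = 4 * L ^ 2 * J ^ 2 := by
    have : X - A = -(2 * L * J) := by linarith
    rw [this]
    ring
  have h2 : (X - A) ^ 2 ≤ 4 * u * X := by
    rw [h1, hX]
    nlinarith [sq_nonneg (L : ℤ)]
  have h3 : A ≤ u * q := by rw [hA]; nlinarith
  have hX0 : 0 < X := by nlinarith
  have h4 : 3 * X ≤ 4 * (X - A) := by nlinarith
  have h5 : (3 * X) ^ 2 ≤ (4 * (X - A)) ^ 2 := pow_le_pow_left₀ (by linarith) h4 2
  have h6 : 9 * X ^ 2 ≤ 64 * u * X := by nlinarith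
  have h7 : 9 * X ≤ 64 * u := by
    by_contra hc
    push Not at hc
    nlinarith
  nlinarith

end Pool.Agent.H12.HD
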