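import Pool.Agent.H12.HD.Count1

/-!
# Counting the solutions of the norm equation (MP_76589c_co)
-/

set_option autoImplicit false

namespace Pool.Agent.H12.HD

open Finset

theorem large_count {u Q F : ℕ} (hu : 1 < u) (hF : 0 < F) (S : Finset ℕ)
    (hS : ∀ q ∈ S, 2 ≤ q ∧ q ≤ Q ∧ ∃ (L j : ℕ) (J M : ℤ), F < L ∧ q = L * j + 1 ∧ 1 ≤ M ∧
      J ^ 2 ≤ u * M ∧ ((u : ℤ) - 1) * ((q : ℤ) - 1) = 2 * L * J + L ^ 2 * M) :
    (S.card : ℝ) ≤ 64 * u * (Q * √(Q : ℝ)) / (F : ℝ) ^ 2 + 4 * u * Q / F := by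
  classical
  have hu2 : (2 : ℝ) ≤ u := by exact_mod_cast hu
  set R : ℕ → ℝ := fun L => 4 * u * √(Q : ℝ) / L with hR
  set T : ℕ → ℕ → Finset ℕ := fun L M =>
    ((range (Q + 1)).filter fun j : ℕ => |((u - 1 : ℕ) : ℝ) * j - (L : ℝ) * M| ≤ R L).image
      fun j => L * j + 1 with hT
  have hsub : S ⊆ (Ioc F Q).biUnion fun L => (Icc 1 (4 * u * Q / L ^ 2)).biUnion fun M => T L M := by
    intro q hq
    obtain ⟨hq2, hqQ, L, j, J, M, hFL, hqj, hM, hJ, heq⟩ := hS q hq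
    have hL0 : 0 < L := by omega
    have hj0 : 0 < j := by
      rcases Nat.eq_zero_or_pos j with h | h
      · rw [h] at hqj
        omega
      · exact h
    have hLq : L ≤ Q := by
      have : L * 1 ≤ L * j := Nat.mul_le_mul le_rfl hj0
      omega
    have hjQ : j ≤ Q := by
      have : 1 * j ≤ L * j := Nat.mul_le_mul hL0 le_rfl
      omega
    have hLM := LM_bound hu hq2 hJ heq
    obtain ⟨m, rfl⟩ : ∃ m : ℕ, M = m := ⟨M.toNat, by omega⟩
    have hm1 : 1 ≤ m := by exact_mod_cast hM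
    have hLm : L ^ 2 * m ≤ 4 * u * q := by exact_mod_cast hLM
    have hLm' : L ^ 2 * m ≤ 4 * u * Q := hLm.trans (Nat.mul_le_mul le_rfl hqQ)
    have hmle : m ≤ 4 * u * Q / L ^ 2 := by
      rw [Nat.le_div_iff_mul_le (by positivity)]
      linarith
    have hJeq : ((u : ℤ) - 1) * j - L * m = 2 * J := by
      have h1 : (q : ℤ) - 1 = L * j := by rw [hqj]; push_cast; ring
      rw [h1] at heq
      have h2 : (L : ℤ) * (((u : ℤ) - 1) * j - L * m - 2 * J) = 0 := by linear_combination heq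
      rcases mul_eq_zero.1 h2 with h3 | h3
      · exfalso
        have : (L : ℤ) ≠ 0 := by exact_mod_cast hL0.ne'
        exact this h3
      · linarith
    have hLpos : (0 : ℝ) < L := by exact_mod_cast hL0
    have hJR : |((u - 1 : ℕ) : ℝ) * j - (L : ℝ) * m| ≤ R L := by
      have h1 : ((u - 1 : ℕ) : ℝ) * j - (L : ℝ) * m = 2 * (J : ℝ) := by
        have h2 : ((((u : ℤ) - 1) * j - L * m : ℤ) : ℝ) = ((2 * J : ℤ) : ℝ) := by rw [hJeq]
        rw [Nat.cast_sub (by omega)]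
        push_cast at h2 ⊢
        exact h2
      rw [h1, hR]
      simp only
      rw [le_div_iff₀ hLpos]
      have h3 : |2 * (J : ℝ)| * L = 2 * |(L : ℝ) * J| := by
        rw [abs_mul, abs_mul, abs_of_pos (by norm_num : (0:ℝ) < 2), abs_of_pos hLpos]
        ring
      rw [h3]
      have h4 : |(L : ℝ) * J| ≤ 2 * u * √(Q : ℝ) := by
        apply abs_le_of_sq_le_sq _ (by positivity)
        have h5 : ((L : ℝ) * (J : ℝ)) ^ 2 ≤ (u : ℝ) * ((L : ℝ) ^ 2 * (m : ℝ)) := by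
          have h6 : (J : ℝ) ^ 2 ≤ (u : ℝ) * (m : ℝ) := by exact_mod_cast hJ
          calc ((L : ℝ) * (J : ℝ)) ^ 2 = (L : ℝ) ^ 2 * (J : ℝ) ^ 2 := by ring
            _ ≤ (L : ℝ) ^ 2 * ((u : ℝ) * (m : ℝ)) := mul_le_mul_of_nonneg_left h6 (by positivity)
            _ = (u : ℝ) * ((L : ℝ) ^ 2 * (m : ℝ)) := by ring
        have h7 : (L : ℝ) ^ 2 * m ≤ 4 * u * Q := by exact_mod_cast hLm'
        have h8 : √(Q : ℝ) ^ 2 = Q := Real.sq_sqrt (by positivity)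
        calc ((L : ℝ) * (J : ℝ)) ^ 2 ≤ (u : ℝ) * ((L : ℝ) ^ 2 * (m : ℝ)) := h5
          _ ≤ (u : ℝ) * (4 * u * Q) := mul_le_mul_of_nonneg_left h7 (by positivity)
          _ = (2 * u * √(Q : ℝ)) ^ 2 := by rw [mul_pow, h8]; ring
      linarith
    simp only [mem_biUnion, mem_Ioc, mem_Icc, hT, mem_image, mem_filter, mem_range]
    exact ⟨L, ⟨hFL, hLq⟩, m, ⟨hm1, hmle⟩, j, ⟨by omega, hJR⟩, hqj.symm⟩
  have hTcard : ∀ L ∈ Ioc F Q, ∀ M, ((T L M).card : ℝ) ≤ 16 * √(Q : ℝ) / L + 1 := by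
    intro L hL M
    rw [mem_Ioc] at hL
    have hLpos : (0 : ℝ) < L := by exact_mod_cast (by omega : 0 < L)
    have h1 : ((T L M).card : ℝ) ≤ (((range (Q + 1)).filter fun j : ℕ =>
        |((u - 1 : ℕ) : ℝ) * j - (L : ℝ) * M| ≤ R L).card : ℝ) :=
      Nat.cast_le.2 card_image_le
    refine h1.trans ?_
    have h2 := card_interval (b := u - 1) (by omega) ((L : ℝ) * M) (R L) (by positivity)
      ((range (Q + 1)).filter fun j : ℕ => |((u - 1 : ℕ) : ℝ) * j - (L : ℝ) * M| ≤ R L)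
      (fun j hj => (mem_filter.1 hj).2)
    refine h2.trans ?_
    have h3 : 2 * R L / ((u - 1 : ℕ) : ℝ) ≤ 16 * √(Q : ℝ) / L := by
      rw [hR]
      simp only
      rw [Nat.cast_sub (by omega), Nat.cast_one]
      have h4 : (0 : ℝ) < (u : ℝ) - 1 := by linarith
      rw [div_le_div_iff₀ h4 hLpos]
      have h5 : 2 * (4 * ↑u * √(Q : ℝ) / ↑L) * ↑L = 8 * u * √(Q : ℝ) := by field_simp; ring
      rw [h5]
      have h7 : (0 : ℝ) ≤ √(Q : ℝ) := Real.sqrt_nonneg _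
      have h8 : 8 * (u : ℝ) ≤ 16 * (u - 1) := by linarith
      nlinarith
    linarith
  have h1 : (S.card : ℝ) ≤ ∑ L ∈ Ioc F Q, ((4 * u * Q / L ^ 2 : ℕ) : ℝ) * (16 * √(Q : ℝ) / L + 1) := by
    have h2 := (card_le_card hsub).trans card_biUnion_le
    have h3 : (S.card : ℝ) ≤ ∑ L ∈ Ioc F Q,
        (((Icc 1 (4 * u * Q / L ^ 2)).biUnion fun M => T L M).card : ℝ) := by exact_mod_cast h2
    refine h3.trans (sum_le_sum fun L hL => ?_)
    have h4 : (((Icc 1 (4 * u * Q / L ^ 2)).biUnion fun M => T L M).card : ℝ) ≤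
        ∑ M ∈ Icc 1 (4 * u * Q / L ^ 2), ((T L M).card : ℝ) := by exact_mod_cast card_biUnion_le
    refine h4.trans ((sum_le_sum fun M _ => hTcard L hL M).trans ?_)
    rw [sum_const, Nat.card_Icc, Nat.add_sub_cancel, nsmul_eq_mul]
  refine h1.trans ?_
  have h2 : ∀ L ∈ Ioc F Q, ((4 * u * Q / L ^ 2 : ℕ) : ℝ) * (16 * √(Q : ℝ) / L + 1) ≤
      64 * u * (Q * √(Q : ℝ)) * (1 / (L : ℝ) ^ 3) + 4 * u * Q * (1 / (L : ℝ) ^ 2) := by
    intro L hL
    rw [mem_Ioc] at hL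
    have hLpos : (0 : ℝ) < L := by exact_mod_cast (by omega : 0 < L)
    have h3 : ((4 * u * Q / L ^ 2 : ℕ) : ℝ) ≤ 4 * u * Q / (L : ℝ) ^ 2 := by
      have := Nat.cast_div_le (α := ℝ) (m := 4 * u * Q) (n := L ^ 2)
      push_cast at this
      exact this
    calc ((4 * u * Q / L ^ 2 : ℕ) : ℝ) * (16 * √(Q : ℝ) / L + 1)
        ≤ 4 * u * Q / (L : ℝ) ^ 2 * (16 * √(Q : ℝ) / L + 1) :=
          mul_le_mul_of_nonneg_right h3 (by positivity)
      _ = _ := by field_simp; ring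
  refine (sum_le_sum h2).trans ?_
  rw [sum_add_distrib, ← mul_sum, ← mul_sum]
  have h3 := sum_inv_cube hF Q
  have h4 := sum_inv_sq hF Q
  have h5 : 64 * u * (Q * √(Q : ℝ)) * ∑ L ∈ Ioc F Q, (1 / (L : ℝ) ^ 3) ≤
      64 * u * (Q * √(Q : ℝ)) * (1 / (F : ℝ) ^ 2) := mul_le_mul_of_nonneg_left h3 (by positivity)
  have h6 : 4 * (u : ℝ) * Q * ∑ L ∈ Ioc F Q, (1 / (L : ℝ) ^ 2) ≤ 4 * u * Q * (1 / F) :=
    mul_le_mul_of_nonneg_left h4 (by positivity)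
  calc _ ≤ 64 * u * (Q * √(Q : ℝ)) * (1 / (F : ℝ) ^ 2) + 4 * u * Q * (1 / F) := add_le_add h5 h6
    _ = _ := by ring

end Pool.Agent.H12.HD
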