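import Pool.Agent.H12.HD.Count2
import Pool.Agent.H12.HD.Cof

/-!
# Counting the primes `q` with a cyclic Hadamard difference set in `ℤ/(u q)` (MP_76589c_co)
-/

set_option autoImplicit false

namespace Pool.Agent.H12.HD

open Finset

/-- the prime `q` is such that `u q = 4 w - 1`, `w = m p^b`, and `ℤ/(u q)` has a cyclic Hadamard
difference set -/
def IsBad (m u q : ℕ) : Prop :=
  q.Prime ∧ ∃ w p b : ℕ, p.Prime ∧ u * q + 1 = 4 * w ∧ w = m * p ^ b ∧
    ∃ D : Finset (ZMod (u * q)), IsHDS w D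

/-- the data of a bad prime -/
theorem bad_data {m u q : ℕ} (hu : 1 < u) (huq : u < q) (h : IsBad m u q) :
    0 < m ∧ Nat.Coprime (4 * m) q ∧ ∃ i : ℕ, 1 ≤ i ∧ i ≤ K m ∧
      0 < orderOf (((4 * m) ^ (i * Nat.totient u) : ℕ) : ZMod q) ∧
      Nat.lcm 2 (orderOf (((4 * m) ^ (i * Nat.totient u) : ℕ) : ZMod q)) ∣ q - 1 ∧
      ∃ J M : ℤ, 1 ≤ M ∧ J ^ 2 ≤ u * M ∧ ((u : ℤ) - 1) * ((q : ℤ) - 1) =
        2 * (Nat.lcm 2 (orderOf (((4 * m) ^ (i * Nat.totient u) : ℕ) : ZMod q)) : ℕ) * J +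
        (Nat.lcm 2 (orderOf (((4 * m) ^ (i * Nat.totient u) : ℕ) : ZMod q)) : ℕ) ^ 2 * M := by
  obtain ⟨hq, w, p, b, hp, hv, hw, D, hD⟩ := h
  have : Fact q.Prime := ⟨hq⟩
  have hu0 : NeZero u := ⟨by omega⟩
  have hv0 : NeZero (u * q) := ⟨(Nat.mul_pos (by omega) hq.pos).ne'⟩
  have hw2 : 2 ≤ w := by
    have : 2 * 2 ≤ u * q := Nat.mul_le_mul hu hq.two_le
    omega
  have hcop : Nat.Coprime u q := by
    refine ((Nat.Prime.coprime_iff_not_dvd hq).2 fun h => ?_).symm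
    have := Nat.le_of_dvd (by omega) h
    omega
  have hm : 0 < m := by
    rcases Nat.eq_zero_or_pos m with h | h
    · rw [h, zero_mul] at hw
      omega
    · exact h
  obtain ⟨i, hi1, hi2, g, hg, hinv⟩ := exists_mult hv hw hw2 hp D hD
  have hcop4 := cop_four hv hw
  have hcu : Nat.Coprime (4 * m) u := hcop4.coprime_mul_right_right
  have hcq : Nat.Coprime (4 * m) q := hcop4.coprime_mul_left_right
  set t : ℕ := (4 * m) ^ (i * Nat.totient u) with ht
  have htg : ∀ x, g ((t : ZMod (u * q)) * x) = g x := by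
    intro x
    have := inv_pow hinv (Nat.totient u) x
    rw [← pow_mul] at this
    rw [ht]
    push_cast at this ⊢
    exact this
  have ht1 : (t : ZMod u) = 1 := by
    have h1 := ZMod.pow_totient (ZMod.unitOfCoprime (4 * m) hcu)
    have h2 := congrArg (fun z : (ZMod u)ˣ => ((z ^ i : (ZMod u)ˣ) : ZMod u)) h1
    simp only [one_pow, Units.val_one, Units.val_pow_eq_pow_val, ZMod.coe_unitOfCoprime] at h2
    rw [ht, Nat.cast_pow, mul_comm i, pow_mul]
    exact h2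
  have htc : Nat.Coprime t q := Nat.Coprime.pow_left _ hcq
  have hvo : Odd (u * q) := ⟨2 * w - 1, by omega⟩
  obtain ⟨J, M, hM, -, hJ, heq⟩ := norm_eq hq rfl hvo hcop hu g hg t htc htg ht1
  refine ⟨hm, hcq, i, hi1, hi2, order_pos hq htc, ?_, J, M, hM, hJ, heq⟩
  refine Nat.lcm_dvd ?_ ?_
  · obtain ⟨k, hk⟩ := (Nat.odd_mul.1 hvo).2
    exact ⟨k, by omega⟩
  · refine orderOf_dvd_of_pow_eq_one (ZMod.pow_card_sub_one_eq_one ?_)
    rw [Ne, ZMod.natCast_eq_zero_iff]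
    exact (Nat.Prime.coprime_iff_not_dvd hq).1 htc.symm

/-- the bound with two parameters -/
theorem bad_count {m u Q F T : ℕ} (hm : 0 < m) (hu : 1 < u) (hF : 0 < F) (hT : 0 < T)
    (S : Finset ℕ)
    (hS : ∀ q ∈ S, q ≤ Q ∧ IsBad m u q) :
    (S.card : ℝ) ≤ 4 * m * (K m) ^ 2 * T ^ 2 +
      (Nat.totient u).divisors.card * ((Q : ℝ) / (T / F)) +
      (64 * u * (Q * √(Q : ℝ)) / (F : ℝ) ^ 2 + 4 * u * Q / F) + u := by
  classical
  set S0 := S.filter fun q => q ≤ u with hS0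
  set S1 := S.filter fun q => q.Prime ∧ ∃ i n : ℕ, 1 ≤ i ∧ i ≤ K m ∧ 1 ≤ n ∧ n ≤ T ∧
      q ∣ (4 * m) ^ (i * 1 * n) - 1 with hS1
  set S2 := S.filter fun q => 2 ≤ q ∧ q ≤ Q ∧ ∃ d ∈ (Nat.totient u).divisors,
      ((T : ℝ) / F) ≤ (d : ℝ) ∧ d ∣ q - 1 with hS2
  set S3 := S.filter fun q => 2 ≤ q ∧ q ≤ Q ∧ ∃ (L j : ℕ) (J M : ℤ), F < L ∧ q = L * j + 1 ∧
      1 ≤ M ∧ J ^ 2 ≤ u * M ∧ ((u : ℤ) - 1) * ((q : ℤ) - 1) = 2 * L * J + L ^ 2 * M with hS3
  have hcover : S ⊆ ((S1 ∪ S2) ∪ S3) ∪ S0 := by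
    intro q hq
    obtain ⟨hqQ, hbad⟩ := hS q hq
    simp only [mem_union]
    by_cases huq : q ≤ u
    · right
      exact mem_filter.2 ⟨hq, huq⟩
    left
    push Not at huq
    obtain ⟨-, hcq, i, hi1, hi2, hpos, hdvd, J, M, hM, hJ, heq⟩ := bad_data hu huq hbad
    have hqp := hbad.1
    have : Fact q.Prime := ⟨hqp⟩
    set Fq := orderOf (((4 * m) ^ (i * Nat.totient u) : ℕ) : ZMod q) with hFq
    by_cases hlarge : F < Fq
    · right
      obtain ⟨j, hj⟩ := hdvd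
      refine mem_filter.2 ⟨hq, hqp.two_le, hqQ, Nat.lcm 2 Fq, j, J, M, ?_, ?_, hM, hJ, heq⟩
      · exact hlarge.trans_le (Nat.le_of_dvd (Nat.lcm_pos two_pos hpos) (Nat.dvd_lcm_right _ _))
      · have := hqp.two_le
        omega
    · left
      push Not at hlarge
      have hord : Fq = orderOf (((4 * m) ^ i : ℕ) : ZMod q) /
          Nat.gcd (orderOf (((4 * m) ^ i : ℕ) : ZMod q)) (Nat.totient u) := by
        rw [hFq, pow_mul, Nat.cast_pow ((4 * m) ^ i), orderOf_pow' _ (Nat.totient_pos.2 (by omega)).ne']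
      set o := orderOf (((4 * m) ^ i : ℕ) : ZMod q) with ho
      have hci : Nat.Coprime ((4 * m) ^ i) q := Nat.Coprime.pow_left _ hcq
      have hopos : 0 < o := order_pos hqp hci
      by_cases hoT : o ≤ T
      · left
        refine mem_filter.2 ⟨hq, hqp, i, o, hi1, hi2, hopos, hoT, ?_⟩
        have h1 : (((4 * m) ^ i : ℕ) : ZMod q) ^ o = 1 := pow_orderOf_eq_one _
        have h2 : 1 ≤ (4 * m) ^ (i * 1 * o) := Nat.one_le_pow _ _ (by omega)
        rw [← ZMod.natCast_eq_zero_iff, Nat.cast_sub h2, Nat.cast_one, sub_eq_zero, mul_one,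
          pow_mul, Nat.cast_pow, h1]
      · right
        push Not at hoT
        refine mem_filter.2 ⟨hq, hqp.two_le, hqQ, Nat.gcd o (Nat.totient u), ?_, ?_, ?_⟩
        · rw [Nat.mem_divisors]
          exact ⟨Nat.gcd_dvd_right _ _, (Nat.totient_pos.2 (by omega)).ne'⟩
        · have h1 : Fq * Nat.gcd o (Nat.totient u) = o := by
            rw [hord]
            exact Nat.div_mul_cancel (Nat.gcd_dvd_left _ _)
          have h2 : T ≤ F * Nat.gcd o (Nat.totient u) := by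
            have := Nat.mul_le_mul hlarge (le_refl (Nat.gcd o (Nat.totient u)))
            omega
          have hF0 : (0 : ℝ) < F := by exact_mod_cast hF
          rw [div_le_iff₀ hF0]
          have h3 : (T : ℝ) ≤ F * (Nat.gcd o (Nat.totient u) : ℕ) := by exact_mod_cast h2
          linarith
        · refine (Nat.gcd_dvd_left _ _).trans ?_
          refine orderOf_dvd_of_pow_eq_one (ZMod.pow_card_sub_one_eq_one ?_)
          rw [Ne, ZMod.natCast_eq_zero_iff]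
          exact (Nat.Prime.coprime_iff_not_dvd hqp).1 hci.symm
  have h1 : (S.card : ℝ) ≤ S1.card + S2.card + S3.card + S0.card := by
    have h2 := card_le_card hcover
    have h3 := card_union_le ((S1 ∪ S2) ∪ S3) S0
    have h4 := card_union_le (S1 ∪ S2) S3
    have h5 := card_union_le S1 S2
    have : S.card ≤ S1.card + S2.card + S3.card + S0.card := by omega
    exact_mod_cast this
  have hT0 : (0 : ℝ) < T := by exact_mod_cast hT
  have hF0 : (0 : ℝ) < F := by exact_mod_cast hF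
  have h2 : (S1.card : ℝ) ≤ 4 * m * (K m) ^ 2 * T ^ 2 := by
    have := small1 (a := 4 * m) (c := 1) (K := K m) (T := T) (by omega) one_pos S1
      (fun q hq => (mem_filter.1 hq).2)
    rw [mul_one] at this
    exact_mod_cast this
  have h3 := small2 (h := Nat.totient u) (Q := Q) (D₀ := (T : ℝ) / F) (by positivity) S2
    (fun q hq => (mem_filter.1 hq).2)
  have h4 := large_count hu hF S3 (fun q hq => (mem_filter.1 hq).2)
  have h5 : (S0.card : ℝ) ≤ u := by
    have h6 : S0 ⊆ Icc 1 u := by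
      intro q hq
      obtain ⟨h7, h8⟩ := mem_filter.1 hq
      exact mem_Icc.2 ⟨(hS q h7).2.1.one_le, h8⟩
    have := card_le_card h6
    rw [Nat.card_Icc, Nat.add_sub_cancel] at this
    exact_mod_cast this
  linarith

/-- the bound with one parameter -/
theorem bad_count1 {m u Q F : ℕ} (hm : 0 < m) (hu : 1 < u) (hF : 0 < F) (S : Finset ℕ)
    (hS : ∀ q ∈ S, q ≤ Q ∧ IsBad m u q) :
    (S.card : ℝ) ≤ 4 * m * u * (K m) ^ 2 * F ^ 2 +
      (64 * u * (Q * √(Q : ℝ)) / (F : ℝ) ^ 2 + 4 * u * Q / F) + u := by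
  classical
  set S0 := S.filter fun q => q ≤ u with hS0
  set S1 := S.filter fun q => q.Prime ∧ ∃ i n : ℕ, 1 ≤ i ∧ i ≤ K m ∧ 1 ≤ n ∧ n ≤ F ∧
      q ∣ (4 * m) ^ (i * Nat.totient u * n) - 1 with hS1
  set S3 := S.filter fun q => 2 ≤ q ∧ q ≤ Q ∧ ∃ (L j : ℕ) (J M : ℤ), F < L ∧ q = L * j + 1 ∧
      1 ≤ M ∧ J ^ 2 ≤ u * M ∧ ((u : ℤ) - 1) * ((q : ℤ) - 1) = 2 * L * J + L ^ 2 * M with hS3
  have hcover : S ⊆ (S1 ∪ S3) ∪ S0 := by
    intro q hq
    obtain ⟨hqQ, hbad⟩ := hS q hq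
    simp only [mem_union]
    by_cases huq : q ≤ u
    · right
      exact mem_filter.2 ⟨hq, huq⟩
    left
    push Not at huq
    obtain ⟨-, hcq, i, hi1, hi2, hpos, hdvd, J, M, hM, hJ, heq⟩ := bad_data hu huq hbad
    have hqp := hbad.1
    have : Fact q.Prime := ⟨hqp⟩
    set Fq := orderOf (((4 * m) ^ (i * Nat.totient u) : ℕ) : ZMod q) with hFq
    by_cases hlarge : F < Fq
    · right
      obtain ⟨j, hj⟩ := hdvd
      refine mem_filter.2 ⟨hq, hqp.two_le, hqQ, Nat.lcm 2 Fq, j, J, M, ?_, ?_, hM, hJ, heq⟩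
      · exact hlarge.trans_le (Nat.le_of_dvd (Nat.lcm_pos two_pos hpos) (Nat.dvd_lcm_right _ _))
      · have := hqp.two_le
        omega
    · left
      push Not at hlarge
      refine mem_filter.2 ⟨hq, hqp, i, Fq, hi1, hi2, hpos, hlarge, ?_⟩
      have h1 : (((4 * m) ^ (i * Nat.totient u) : ℕ) : ZMod q) ^ Fq = 1 := pow_orderOf_eq_one _
      have h2 : 1 ≤ (4 * m) ^ (i * Nat.totient u * Fq) := Nat.one_le_pow _ _ (by omega)
      rw [← ZMod.natCast_eq_zero_iff, Nat.cast_sub h2, Nat.cast_one, sub_eq_zero,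
        pow_mul, Nat.cast_pow ((4 * m) ^ (i * Nat.totient u)), h1]
  have h1 : (S.card : ℝ) ≤ S1.card + S3.card + S0.card := by
    have h2 := card_le_card hcover
    have h3 := card_union_le (S1 ∪ S3) S0
    have h5 := card_union_le S1 S3
    have : S.card ≤ S1.card + S3.card + S0.card := by omega
    exact_mod_cast this
  have h2 : (S1.card : ℝ) ≤ 4 * m * u * (K m) ^ 2 * F ^ 2 := by
    have h3 := small1 (a := 4 * m) (c := Nat.totient u) (K := K m) (T := F) (by omega)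
      (Nat.totient_pos.2 (by omega)) S1 (fun q hq => (mem_filter.1 hq).2)
    have h4 : 4 * m * Nat.totient u * (K m) ^ 2 * F ^ 2 ≤ 4 * m * u * (K m) ^ 2 * F ^ 2 :=
      Nat.mul_le_mul (Nat.mul_le_mul (Nat.mul_le_mul le_rfl (Nat.totient_le u)) le_rfl) le_rfl
    exact_mod_cast h3.trans h4
  have h4 := large_count hu hF S3 (fun q hq => (mem_filter.1 hq).2)
  have h5 : (S0.card : ℝ) ≤ u := by
    have h6 : S0 ⊆ Icc 1 u := by
      intro q hq
      obtain ⟨h7, h8⟩ := mem_filter.1 hq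
      exact mem_Icc.2 ⟨(hS q h7).2.1.one_le, h8⟩
    have := card_le_card h6
    rw [Nat.card_Icc, Nat.add_sub_cancel] at this
    exact_mod_cast this
  linarith

end Pool.Agent.H12.HD
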