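import Pool.Agent.H12.HD.Mult

/-!
# From Hadamard functions to difference sets, Chinese remainder form (MP_76589c_co)
-/

set_option autoImplicit false

namespace Pool.Agent.H12.HD

open Finset

theorem Had.neg {A : Type*} [AddCommGroup A] [Fintype A] {g : A → ℤ} (hg : Had g) :
    Had (fun x => -g x) := by
  refine ⟨fun x => ?_, fun s hs => ?_⟩
  · rcases hg.val x with h | h <;> simp [h]
  · rw [← hg.ac s hs]
    exact sum_congr rfl fun x _ => by ring

theorem Had.sum_sq {A : Type*} [AddCommGroup A] [Fintype A] [DecidableEq A] {g : A → ℤ}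
    (hg : Had g) : (∑ x, g x) ^ 2 = 1 := by
  have h1 : (∑ x, g x) ^ 2 = ∑ s, ∑ x, g x * g (x + s) := by
    rw [sum_comm, sq, sum_mul_sum]
    refine sum_congr rfl fun x _ => ?_
    rw [← Equiv.sum_comp (Equiv.addLeft x)]
    simp
  rw [h1, ← add_sum_erase _ _ (mem_univ (0 : A)),
    sum_congr rfl (fun s hs => hg.ac s (mem_erase.1 hs).1)]
  have h2 : ∑ x, g x * g (x + 0) = Fintype.card A := by
    rw [sum_congr rfl (fun x _ => by rw [add_zero, hg.mul_self])]
    simp
  rw [h2, sum_const, card_erase_of_mem (mem_univ _), card_univ, nsmul_eq_mul,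
    Nat.cast_sub Fintype.card_pos]
  push_cast
  ring

theorem hds_of_had_aux {u : ℕ} [NeZero u] (hu : 1 < u) (g : ZMod u → ℤ) (hg : Had g)
    (hsum : ∑ x, g x = -1) :
    ∃ w, 0 < w ∧ u + 1 = 4 * w ∧ ∃ D : Finset (ZMod u), IsHDS w D := by
  set D : Finset (ZMod u) := univ.filter (fun x => g x = 1) with hD
  have hgD : ∀ x, g x = 2 * (if x ∈ D then (1:ℤ) else 0) - 1 := by
    intro x
    rcases hg.val x with h | h
    · have : x ∈ D := by simp [hD, h]
      simp [this, h]
    · have : x ∉ D := by simp [hD, h]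
      simp [this, h]
  have h3 : ∑ x : ZMod u, (if x ∈ D then (1:ℤ) else 0) = D.card := by
    rw [← natCast_card_filter]
    simp
  have hk : 2 * (D.card : ℤ) - u = -1 := by
    rw [← hsum, sum_congr rfl (fun x _ => hgD x), sum_sub_distrib, ← mul_sum, h3]
    simp
  have hac : ∀ s : ZMod u, s ≠ 0 →
      4 * ((((D ×ˢ D).filter (fun t => t.1 - t.2 = s)).card : ℕ) : ℤ) - 4 * D.card + u = -1 := by
    intro s hs
    rw [← hg.ac s hs]
    have h1 : ∀ x : ZMod u, g x * g (x + s) =
        4 * ((if x ∈ D then (1:ℤ) else 0) * (if x + s ∈ D then 1 else 0)) -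
          2 * (if x ∈ D then (1:ℤ) else 0) - 2 * (if x + s ∈ D then (1:ℤ) else 0) + 1 := by
      intro x
      rw [hgD x, hgD (x + s)]
      ring
    rw [sum_congr rfl (fun x _ => h1 x), sum_add_distrib, sum_sub_distrib, sum_sub_distrib,
      ← mul_sum, ← mul_sum, ← mul_sum, sum_shift_card]
    have h2 : ∑ x : ZMod u, (if x + s ∈ D then (1:ℤ) else 0) =
        ∑ x : ZMod u, if x ∈ D then 1 else 0 :=
      Equiv.sum_comp (Equiv.addRight s) (fun x => if x ∈ D then (1:ℤ) else 0)
    rw [h2, h3]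
    simp only [sum_const, card_univ, ZMod.card, nsmul_eq_mul, mul_one]
    ring
  have : Nontrivial (ZMod u) := by
    have : Fact (1 < u) := ⟨hu⟩
    infer_instance
  have h1 := hac 1 one_ne_zero
  refine ⟨D.card - ((D ×ˢ D).filter (fun t => t.1 - t.2 = 1)).card, ?_, ?_, D, ?_, ?_⟩
  · omega
  · omega
  · omega
  · intro s hs
    have h2 := hac s hs
    omega

/-- a Hadamard function on `ZMod u`, `u > 1`, comes from a difference set -/
theorem hds_of_had {u : ℕ} [NeZero u] (hu : 1 < u) (g : ZMod u → ℤ) (hg : Had g) :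
    ∃ w, 0 < w ∧ u + 1 = 4 * w ∧ ∃ D : Finset (ZMod u), IsHDS w D := by
  have h := hg.sum_sq
  have h2 : (∑ x, g x - 1) * (∑ x, g x + 1) = 0 := by linear_combination h
  rcases mul_eq_zero.1 h2 with h3 | h3
  · refine hds_of_had_aux hu _ hg.neg ?_
    rw [sum_neg_distrib]
    linarith
  · exact hds_of_had_aux hu _ hg (by linarith)

/-- Chinese remainder form -/
theorem exists_prod {v u r : ℕ} [NeZero v] [NeZero u] [NeZero r] (hv : v = u * r)
    (hcop : Nat.Coprime u r) (g : ZMod v → ℤ) (hg : Had g) :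
    ∃ G : ZMod u × ZMod r → ℤ, Had G ∧ ∀ t : ℕ, (∀ x, g ((t : ZMod v) * x) = g x) →
      ∀ x y, G ((t : ZMod u) * x, (t : ZMod r) * y) = G (x, y) := by
  subst hv
  set e := ZMod.chineseRemainder hcop with he
  refine ⟨fun z => g (e.symm z), ?_, fun t ht x y => ?_⟩
  · exact hg.equiv e.symm.toAddEquiv
  · have h1 : e.symm ((t : ZMod u) * x, (t : ZMod r) * y) = (t : ZMod (u * r)) * e.symm (x, y) := by
      apply e.injective
      rw [map_mul, e.apply_symm_apply, e.apply_symm_apply]
      simp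
      rfl
    simp only [h1, ht]

end Pool.Agent.H12.HD
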