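import Pool.Agent.H12.HD.Crt

/-!
# The descent theorem and the bound for multipliers fixing a subgroup (MP_76589c_co)
-/

set_option autoImplicit false

namespace Pool.Agent.H12.HD

open Finset

theorem period_dvd {r N t : ℕ} [NeZero r]
    (hN : ∀ q : ℕ, q.Prime → q ∣ r → N ∣ orderOf (t : ZMod q)) (y : ZMod r) (hy : y ≠ 0) (k : ℕ)
    (h : (fun y : ZMod r => (t : ZMod r) * y)^[k] y = y) : N ∣ k := by
  rw [mul_left_iterate] at h
  have h1 : (r : ℤ) ∣ ((t : ℤ) ^ k - 1) * y.val := by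
    rw [← ZMod.intCast_zmod_eq_zero_iff_dvd]
    push_cast
    rw [ZMod.natCast_zmod_val]
    simp only at h
    linear_combination h
  have hr : 0 < r := Nat.pos_of_ne_zero (NeZero.ne r)
  set d := Nat.gcd r y.val with hd
  have hdpos : 0 < d := Nat.gcd_pos_of_pos_left _ hr
  obtain ⟨a, ha⟩ : d ∣ r := Nat.gcd_dvd_left _ _
  obtain ⟨b, hb⟩ : d ∣ y.val := Nat.gcd_dvd_right _ _
  have hab : Nat.Coprime a b := by
    have h2 : Nat.gcd (d * a) (d * b) = d := by rw [← ha, ← hb]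
    rw [Nat.gcd_mul_left] at h2
    exact Nat.eq_of_mul_eq_mul_left hdpos (by rw [h2, mul_one])
  have ha1 : a ≠ 1 := by
    rintro rfl
    rw [mul_one] at ha
    have h3 : r ∣ y.val := (dvd_of_eq ha).trans ⟨b, hb⟩
    have h4 : y.val < r := ZMod.val_lt y
    have h5 : y.val = 0 := Nat.eq_zero_of_dvd_of_lt h3 h4
    exact hy ((ZMod.val_eq_zero y).1 h5)
  have h2 : (a : ℤ) ∣ (t : ℤ) ^ k - 1 := by
    have h3 : (d : ℤ) * a ∣ d * (((t : ℤ) ^ k - 1) * b) := by
      have : (r : ℤ) = d * a := by exact_mod_cast ha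
      rw [← this]
      refine h1.trans (dvd_of_eq ?_)
      have : (y.val : ℤ) = d * b := by exact_mod_cast hb
      rw [this]
      ring
    have h4 : (a : ℤ) ∣ ((t : ℤ) ^ k - 1) * b :=
      (mul_dvd_mul_iff_left (by exact_mod_cast hdpos.ne')).1 h3
    exact (Nat.isCoprime_iff_coprime.2 hab).dvd_of_dvd_mul_right h4
  obtain ⟨q, hq, hqa⟩ := Nat.exists_prime_and_dvd ha1
  have hqr : q ∣ r := by rw [ha]; exact Dvd.dvd.mul_left hqa d
  refine (hN q hq hqr).trans (orderOf_dvd_of_pow_eq_one ?_)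
  have h5 : (q : ℤ) ∣ (t : ℤ) ^ k - 1 := (by exact_mod_cast hqa : (q : ℤ) ∣ a).trans h2
  rw [← ZMod.intCast_zmod_eq_zero_iff_dvd] at h5
  push_cast at h5
  linear_combination h5

theorem mul_inj {r t : ℕ} (h : Nat.Coprime t r) :
    Function.Injective (fun y : ZMod r => (t : ZMod r) * y) := by
  intro a b hab
  have hu := ZMod.coe_unitOfCoprime t h
  simp only at hab
  rw [← hu] at hab
  exact (Units.mul_right_inj _).1 hab

/-- descent for Hadamard functions on `ZMod v` -/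
theorem descent_had {v u r N : ℕ} [NeZero v] [NeZero u] [NeZero r] (hv : v = u * r)
    (hvo : Odd v) (g : ZMod v → ℤ) (hg : Had g) (t : ℕ) (htc : Nat.Coprime t r)
    (ht : ∀ x, g ((t : ZMod v) * x) = g x) (ht1 : (t : ZMod u) = 1)
    (hN : ∀ q : ℕ, q.Prime → q ∣ r → N ∣ orderOf (t : ZMod q)) (hNu : u + 1 < Nat.lcm 2 N) :
    ∃ g' : ZMod u → ℤ, Had g' := by
  have hu0 : u ≠ 0 := NeZero.ne u
  have hvo' := hvo
  rw [hv, Nat.odd_mul] at hvo'
  have hcop : Nat.Coprime u r := by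
    rw [Nat.coprime_iff_gcd_eq_one]
    by_contra hne
    obtain ⟨q, hq, hqd⟩ := Nat.exists_prime_and_dvd hne
    have hqu : q ∣ u := hqd.trans (Nat.gcd_dvd_left _ _)
    have hqr : q ∣ r := hqd.trans (Nat.gcd_dvd_right _ _)
    have h1 : (t : ZMod q) = 1 := by
      have h2 := congrArg (ZMod.castHom hqu (ZMod q)) ht1
      rwa [map_natCast, map_one] at h2
    have h3 := hN q hq hqr
    rw [h1, orderOf_one, Nat.dvd_one] at h3
    rw [h3] at hNu
    norm_num at hNu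
    omega
  obtain ⟨G, hG, hinv⟩ := exists_prod hv hcop g hg
  refine ⟨fun x => G (x, 0), descent_prod (by rw [ZMod.card]; exact hvo'.1)
    (by rw [ZMod.card]; exact hvo'.2) G hG (fun y => (t : ZMod r) * y) (mul_inj htc)
    (by simp) (fun x y => ?_) N (fun y hy k hk => period_dvd hN y hy k hk) (by
      rw [ZMod.card]; exact hNu)⟩
  have := hinv t ht x y
  rwa [ht1, one_mul] at this

/-- the data given by a multiplier `t ≡ 1 mod u`, `v = u q`, `q` prime -/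
theorem norm_data {v u q : ℕ} [NeZero v] [NeZero u] (hq : q.Prime) (hv : v = u * q)
    (hvo : Odd v) (hcop : Nat.Coprime u q)
    (g : ZMod v → ℤ) (hg : Had g) (t : ℕ) (htc : Nat.Coprime t q)
    (ht : ∀ x, g ((t : ZMod v) * x) = g x) (ht1 : (t : ZMod u) = 1) :
    ∃ (g₀ l : ZMod u → ℤ), (∀ x, g₀ x = 1 ∨ g₀ x = -1) ∧
      ((u : ℤ) - 1) * ((q : ℤ) - 1) =
        2 * ((Nat.lcm 2 (orderOf (t : ZMod q)) : ℕ) : ℤ) * ∑ x, g₀ x * l x +
        ((Nat.lcm 2 (orderOf (t : ZMod q)) : ℕ) : ℤ) ^ 2 * ∑ x, l x ^ 2 ∧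
      ∑ x, (g₀ x + ((Nat.lcm 2 (orderOf (t : ZMod q)) : ℕ) : ℤ) * l x) ^ 2 =
        ((u : ℤ) - 1) * q + 1 := by
  have : NeZero q := ⟨hq.ne_zero⟩
  have hvo' := hvo
  rw [hv, Nat.odd_mul] at hvo'
  obtain ⟨G, hG, hinv⟩ := exists_prod hv hcop g hg
  have hinv' : ∀ x y, G (x, (t : ZMod q) * y) = G (x, y) := fun x y => by
    have := hinv t ht x y
    rwa [ht1, one_mul] at this
  have hN : ∀ q' : ℕ, q'.Prime → q' ∣ q → orderOf (t : ZMod q) ∣ orderOf (t : ZMod q') := by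
    intro q' hq' hd
    rw [(Nat.prime_dvd_prime_iff_eq hq' hq).1 hd]
  have hodd : ∀ x, Odd (G x) := fun x => by
    rcases hG.val x with h | h <;> rw [h] <;> decide
  obtain ⟨l, hl⟩ := exists_l (by rw [ZMod.card]; exact hvo'.2) G hodd
    (fun y => (t : ZMod q) * y) (mul_inj htc) (by simp) hinv'
    (orderOf (t : ZMod q)) (fun y hy k hk => period_dvd hN y hy k hk)
  refine ⟨fun x => G (x, 0), l, fun x => hG.val _, ?_, ?_⟩
  · have := norm_id G hG _ l hl
    simpa [ZMod.card] using this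
  · have := sum_fibre_sq G hG
    rw [← sum_congr rfl (fun x _ => by rw [← hl x])]
    simpa [ZMod.card] using this

theorem sq_ge {F l e : ℤ} (hF : 1 ≤ F) (hl : l ≠ 0) (he : e = 1 ∨ e = -1) :
    (F - 1) ^ 2 ≤ (e + F * l) ^ 2 := by
  rcases lt_or_gt_of_ne hl with h | h
  · have h1 : F * l ≤ -F := by nlinarith
    have h2 : (e + F * l) ^ 2 = (-(e + F * l)) ^ 2 := by ring
    rw [h2]
    refine pow_le_pow_left₀ (by omega) ?_ 2
    rcases he with h' | h' <;> rw [h'] <;> linarith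
  · have h1 : F ≤ F * l := by nlinarith
    refine pow_le_pow_left₀ (by omega) ?_ 2
    rcases he with h' | h' <;> rw [h'] <;> linarith

theorem order_pos {q t : ℕ} (hq : q.Prime) (htc : Nat.Coprime t q) :
    0 < orderOf (t : ZMod q) := by
  have : Fact q.Prime := ⟨hq⟩
  have h3 : orderOf (t : ZMod q) = orderOf (ZMod.unitOfCoprime t htc) := by
    rw [← ZMod.coe_unitOfCoprime t htc, orderOf_units]
  rw [h3]
  exact orderOf_pos _

/-- a multiplier `t ≡ 1 mod u`, `v = u q`, has small order modulo `q` -/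
theorem order_bound {v u q : ℕ} [NeZero v] [NeZero u] (hq : q.Prime) (hv : v = u * q)
    (hvo : Odd v) (hcop : Nat.Coprime u q) (hu : 1 < u)
    (g : ZMod v → ℤ) (hg : Had g) (t : ℕ) (htc : Nat.Coprime t q)
    (ht : ∀ x, g ((t : ZMod v) * x) = g x) (ht1 : (t : ZMod u) = 1) :
    (((Nat.lcm 2 (orderOf (t : ZMod q)) : ℕ) : ℤ) - 1) ^ 2 + q ≤ v + 1 := by
  obtain ⟨g₀, l, h0, h1, h2⟩ := norm_data hq hv hvo hcop g hg t htc ht ht1
  set F : ℤ := ((Nat.lcm 2 (orderOf (t : ZMod q)) : ℕ) : ℤ) with hF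
  have hex : ∃ x, l x ≠ 0 := by
    by_contra hcon
    push Not at hcon
    have h3 : ((u : ℤ) - 1) * ((q : ℤ) - 1) = 0 := by
      rw [h1]
      simp [hcon]
    have h4 : (1 : ℤ) < u := by exact_mod_cast hu
    have h5 : (1 : ℤ) < q := by exact_mod_cast hq.one_lt
    nlinarith
  obtain ⟨x, hx⟩ := hex
  have hF1 : 1 ≤ F := by
    have := Nat.lcm_pos two_pos (order_pos hq htc)
    rw [hF]
    exact_mod_cast this
  have h3 : (F - 1) ^ 2 ≤ (g₀ x + F * l x) ^ 2 := sq_ge hF1 hx (h0 x)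
  have h4 : (g₀ x + F * l x) ^ 2 ≤ ∑ x, (g₀ x + F * l x) ^ 2 :=
    single_le_sum (f := fun x => (g₀ x + F * l x) ^ 2) (fun _ _ => sq_nonneg _) (mem_univ x)
  rw [h2] at h4
  have h5 : (v : ℤ) = u * q := by exact_mod_cast hv
  rw [h5]
  nlinarith

/-- **The norm equation** for a multiplier `t ≡ 1 mod u`, `v = u q` -/
theorem norm_eq {v u q : ℕ} [NeZero v] [NeZero u] (hq : q.Prime) (hv : v = u * q)
    (hvo : Odd v) (hcop : Nat.Coprime u q) (hu : 1 < u)
    (g : ZMod v → ℤ) (hg : Had g) (t : ℕ) (htc : Nat.Coprime t q)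
    (ht : ∀ x, g ((t : ZMod v) * x) = g x) (ht1 : (t : ZMod u) = 1) :
    ∃ J M : ℤ, 1 ≤ M ∧ |J| ≤ M ∧ J ^ 2 ≤ u * M ∧
      ((u : ℤ) - 1) * ((q : ℤ) - 1) =
        2 * ((Nat.lcm 2 (orderOf (t : ZMod q)) : ℕ) : ℤ) * J +
        ((Nat.lcm 2 (orderOf (t : ZMod q)) : ℕ) : ℤ) ^ 2 * M := by
  obtain ⟨g₀, l, h0, h1, h2⟩ := norm_data hq hv hvo hcop g hg t htc ht ht1
  refine ⟨∑ x, g₀ x * l x, ∑ x, l x ^ 2, ?_, ?_, ?_, h1⟩
  · have hex : ∃ x, l x ≠ 0 := by
      by_contra hcon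
      push Not at hcon
      have h3 : ((u : ℤ) - 1) * ((q : ℤ) - 1) = 0 := by
        rw [h1]
        simp [hcon]
      have h4 : (1 : ℤ) < u := by exact_mod_cast hu
      have h5 : (1 : ℤ) < q := by exact_mod_cast hq.one_lt
      nlinarith
    obtain ⟨x, hx⟩ := hex
    have h3 : l x ^ 2 ≤ ∑ x, l x ^ 2 :=
      single_le_sum (f := fun x => l x ^ 2) (fun _ _ => sq_nonneg _) (mem_univ x)
    have h4 : 0 < l x ^ 2 := by positivity
    omega
  · refine (abs_sum_le_sum_abs _ _).trans (sum_le_sum fun x _ => ?_)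
    have h3 : |g₀ x * l x| = |l x| := by
      rw [abs_mul]
      rcases h0 x with h | h <;> simp [h]
    rw [h3, ← sq_abs]
    rcases eq_or_ne (l x) 0 with h | h
    · simp [h]
    · have : 1 ≤ |l x| := Int.one_le_abs h
      nlinarith
  · have h3 := sum_mul_sq_le_sq_mul_sq univ g₀ l
    have h4 : ∑ x, g₀ x ^ 2 = (u : ℤ) := by
      rw [sum_congr rfl (g := fun _ => (1 : ℤ)) (fun x _ => by
        rcases h0 x with h | h <;> rw [h] <;> norm_num)]
      simp [ZMod.card]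
    rwa [h4] at h3

/-- consequence of the norm equation -/
theorem norm_ineq {a J M L : ℤ} (hM : 1 ≤ M) (hJ : |J| ≤ M) (hL : 2 ≤ L)
    (h : a = 2 * L * J + L ^ 2 * M) : (L - 1) ^ 2 ≤ a + 1 := by
  rw [abs_le] at hJ
  have h1 : L * (L - 2) * 1 ≤ L * (L - 2) * M :=
    mul_le_mul_of_nonneg_left hM (mul_nonneg (by linarith) (by linarith))
  have h2 : 2 * L * (-M) ≤ 2 * L * J := mul_le_mul_of_nonneg_left hJ.1 (by linarith)
  nlinarith

end Pool.Agent.H12.HD
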