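import Pool.Agent.H12.HD.Cof

/-!
# A test for all orders, from the second multiplier theorem (MP_76589c_co)
-/

set_option autoImplicit false

namespace Pool.Agent.H12.HD

open Finset

/-- the second multiplier theorem for Hadamard parameters -/
theorem second_mult {v w : ℕ} [NeZero v] (hv : v + 1 = 4 * w) {D : Finset (ZMod v)}
    (hD : IsHDS w D) (t : (ZMod v)ˣ)
    (ht : ∀ p : ℕ, p.Prime → p ∣ w → ∃ j : ℕ, (t : ZMod v) = (p : ZMod v) ^ j) :
    IsMult D t := by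
  have hcop : Nat.Coprime w v := by
    have h1 : Nat.Coprime (v + 1) v := by simp
    rw [hv] at h1
    exact h1.coprime_mul_left
  have hds := isDS_of hD
  have hcard : (D.card : ℤ) + 1 = 2 * w := by exact_mod_cast hD.1
  have hw0 : 0 < w := by omega
  have hn : (D.card : ℤ) - ((w : ℤ) - 1) = w := by omega
  refine Pool.Agent.H58.Mult.mult_of_pos hds (by rw [hn]; exact_mod_cast hw0) t fun g => ?_
  have hd := Pool.Agent.H58.Mult.div_all (n1 := w) hds (by rw [hn]) hcop t ht g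
  refine Pool.Agent.H58.Mult.nonneg_of_dvd (c := (w : ℤ) - 1) (by omega) ?_ hd
  have := Pool.Agent.H58.Mult.cnt_nonneg D (t : ZMod v) g
  unfold Pool.Agent.H58.Mult.E
  omega

theorem exists_test {u q w N : ℕ} [NeZero u] [NeZero (u * q)] (hq : q.Prime)
    (hcop : Nat.Coprime u q)
    (hv : u * q + 1 = 4 * w) (hw : 2 ≤ w)
    (hN : ∀ p : ℕ, p.Prime → p ∣ w → N ∣ orderOf ((p : ZMod q) ^ Nat.totient u))
    (D : Finset (ZMod (u * q))) (hD : IsHDS w D) :
    ∃ g : ZMod (u * q) → ℤ, Had g ∧ ∃ t : ℕ, Nat.Coprime t q ∧ (t : ZMod u) = 1 ∧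
      orderOf (t : ZMod q) = N ∧ ∀ x, g ((t : ZMod (u * q)) * x) = g x := by
  have : Fact q.Prime := ⟨hq⟩
  have hwv : Nat.Coprime w (u * q) := by
    have h1 : Nat.Coprime (u * q + 1) (u * q) := by simp
    rw [hv] at h1
    exact h1.coprime_mul_left
  have hwu : Nat.Coprime w u := hwv.coprime_mul_right_right
  have hwq : Nat.Coprime w q := hwv.coprime_mul_left_right
  obtain ⟨g, hg, -, hinv⟩ := exists_inv hv D hD
  have hpq : ∀ p : ℕ, p.Prime → p ∣ w → (p : ZMod q) ≠ 0 := by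
    intro p hp hpw
    rw [Ne, ZMod.natCast_eq_zero_iff]
    exact (Nat.Prime.coprime_iff_not_dvd hq).1 (Nat.Coprime.coprime_dvd_left hpw hwq).symm
  -- an element of order `N` modulo `q`
  obtain ⟨p₀, hp₀, hp₀w⟩ := Nat.exists_prime_and_dvd (show w ≠ 1 by omega)
  set a₀ : ZMod q := (p₀ : ZMod q) ^ Nat.totient u with ha₀
  have ha₀0 : a₀ ≠ 0 := pow_ne_zero _ (hpq p₀ hp₀ hp₀w)
  have hord0 : ∀ a : ZMod q, a ≠ 0 → 0 < orderOf a := by
    intro a ha
    have h3 : orderOf a = orderOf (Units.mk0 a ha) := by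
      rw [← orderOf_units, Units.val_mk0]
    rw [h3]
    exact orderOf_pos _
  obtain ⟨k, hk⟩ := hN p₀ hp₀ hp₀w
  have hkpos : 0 < k := by
    rcases Nat.eq_zero_or_pos k with h | h
    · rw [h, mul_zero] at hk
      exact absurd hk (hord0 a₀ ha₀0).ne'
    · exact h
  set τ : ZMod q := a₀ ^ k with hτ
  have hτN : orderOf τ = N := by
    rw [hτ, orderOf_pow_of_dvd hkpos.ne' (by rw [hk]; exact dvd_mul_left _ _), hk]
    exact Nat.mul_div_cancel _ hkpos
  have hτ0 : τ ≠ 0 := pow_ne_zero _ ha₀0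
  have hNpos : 0 < N := by rw [← hτN]; exact hord0 τ hτ0
  have hqne : NeZero q := ⟨hq.ne_zero⟩
  -- the multiplier
  obtain ⟨t, ht1, ht2⟩ := Nat.chineseRemainder hcop 1 τ.val
  have htu : (t : ZMod u) = 1 := by
    have := (ZMod.natCast_eq_natCast_iff _ _ _).2 ht1
    rw [this, Nat.cast_one]
  have htq : (t : ZMod q) = τ := by
    have := (ZMod.natCast_eq_natCast_iff _ _ _).2 ht2
    rw [this, ZMod.natCast_zmod_val]
  have htcq : Nat.Coprime t q := by
    have : (t : ZMod q) ≠ 0 := by rw [htq]; exact hτ0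
    rw [Ne, ZMod.natCast_eq_zero_iff] at this
    exact ((Nat.Prime.coprime_iff_not_dvd hq).2 this).symm
  have htcu : Nat.Coprime t u := by
    have h1 : IsUnit ((t : ℕ) : ZMod u) := by rw [htu]; exact isUnit_one
    exact (ZMod.isUnit_iff_coprime t u).1 h1
  have htcv : Nat.Coprime t (u * q) := Nat.Coprime.mul_right htcu htcq
  have hpow : ∀ p : ℕ, p.Prime → p ∣ w →
      ∃ j : ℕ, ((ZMod.unitOfCoprime t htcv : (ZMod (u * q))ˣ) : ZMod (u * q)) =
        (p : ZMod (u * q)) ^ j := by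
    intro p hp hpw
    set a : ZMod q := (p : ZMod q) ^ Nat.totient u with ha
    have ha0 : a ≠ 0 := pow_ne_zero _ (hpq p hp hpw)
    have hprim : IsPrimitiveRoot a (orderOf a) := IsPrimitiveRoot.orderOf a
    have hτa : τ ^ orderOf a = 1 := by
      apply orderOf_dvd_iff_pow_eq_one.1
      rw [hτN]
      exact hN p hp hpw
    have : NeZero (orderOf a) := ⟨(hord0 a ha0).ne'⟩
    obtain ⟨j, -, hj⟩ := hprim.eq_pow_of_pow_eq_one hτa
    refine ⟨Nat.totient u * j, ?_⟩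
    rw [ZMod.coe_unitOfCoprime, ← Nat.cast_pow, ZMod.natCast_eq_natCast_iff]
    refine (Nat.modEq_and_modEq_iff_modEq_mul hcop).1 ⟨?_, ?_⟩
    · rw [← ZMod.natCast_eq_natCast_iff, htu]
      have hpu : Nat.Coprime p u := Nat.Coprime.coprime_dvd_left hpw hwu
      have h1 := ZMod.pow_totient (ZMod.unitOfCoprime p hpu)
      have h2 := congrArg (fun z : (ZMod u)ˣ => ((z ^ j : (ZMod u)ˣ) : ZMod u)) h1
      simp only [one_pow, Units.val_one, Units.val_pow_eq_pow_val, ZMod.coe_unitOfCoprime] at h2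
      rw [Nat.cast_pow, pow_mul, h2]
    · rw [← ZMod.natCast_eq_natCast_iff, htq, Nat.cast_pow, pow_mul, ← ha, hj]
  have hmult := hinv _ (second_mult hv hD (ZMod.unitOfCoprime t htcv) hpow)
  refine ⟨g, hg, t, htcq, htu, by rw [htq, hτN], fun x => ?_⟩
  have := hmult x
  rwa [ZMod.coe_unitOfCoprime] at this

/-- **The test.** For all `w`: the orders modulo `q` of the primes dividing `w` -/
theorem test {u q w N : ℕ} (hu : 1 < u) (hq : q.Prime)
    (hcop : Nat.Coprime u q) (hv : u * q + 1 = 4 * w)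
    (hN : ∀ p : ℕ, p.Prime → p ∣ w → N ∣ orderOf ((p : ZMod q) ^ Nat.totient u))
    (D : Finset (ZMod (u * q))) (hD : IsHDS w D) :
    (∃ J M : ℤ, 1 ≤ M ∧ |J| ≤ M ∧ J ^ 2 ≤ u * M ∧
      ((u : ℤ) - 1) * ((q : ℤ) - 1) = 2 * (Nat.lcm 2 N : ℕ) * J + (Nat.lcm 2 N : ℕ) ^ 2 * M) ∧
    (u + 1 < Nat.lcm 2 N →
      ∃ w', 0 < w' ∧ u + 1 = 4 * w' ∧ ∃ D' : Finset (ZMod u), IsHDS w' D') := by
  have hu0 : NeZero u := ⟨by omega⟩
  have hq2 := hq.two_le
  have hv0 : NeZero (u * q) := ⟨(Nat.mul_pos (by omega) hq.pos).ne'⟩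
  have hw2 : 2 ≤ w := by
    have : 2 * 2 ≤ u * q := Nat.mul_le_mul hu hq2
    omega
  obtain ⟨g, hg, t, htc, ht1, htN, ht⟩ := exists_test hq hcop hv hw2 hN D hD
  have hvo : Odd (u * q) := ⟨2 * w - 1, by omega⟩
  have : NeZero q := ⟨hq.ne_zero⟩
  constructor
  · have h1 := norm_eq hq rfl hvo hcop hu g hg t htc ht ht1
    rwa [htN] at h1
  · intro hbig
    obtain ⟨g', hg'⟩ := descent_had (N := N) rfl hvo g hg t htc ht ht1
      (fun q' hq' hd => by rw [(Nat.prime_dvd_prime_iff_eq hq' hq).1 hd, htN]) hbig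
    exact hds_of_had hu g' hg'

end Pool.Agent.H12.HD
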