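import Pool.Agent.H12.HD.Core
import Pool.Agent.H58.Mult.Power
import Pool.Agent.H58.Mult.Event

/-!
# Cyclic Hadamard difference sets as Hadamard functions, and their multipliers (MP_76589c_co)
-/

set_option autoImplicit false

namespace Pool.Agent.H12.HD

open Finset

/-- `D` is a Hadamard difference set in `ZMod v` (used with `v + 1 = 4 * w`) -/
def IsHDS {v : ℕ} (w : ℕ) (D : Finset (ZMod v)) : Prop :=
  D.card + 1 = 2 * w ∧ ∀ d : ZMod v, d ≠ 0 →
    ((D ×ˢ D).filter (fun t => t.1 - t.2 = d)).card + 1 = w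

/-- the unit `t` is a multiplier of `D` -/
def IsMult {v : ℕ} (D : Finset (ZMod v)) (t : (ZMod v)ˣ) : Prop :=
  ∃ s : ZMod v, D.image (fun x => (t : ZMod v) * x) = D.image (fun x => x + s)

/-- the signed indicator function -/
def ind {v : ℕ} (D : Finset (ZMod v)) (x : ZMod v) : ℤ := if x ∈ D then 1 else -1

theorem sum_shift_card {v : ℕ} [NeZero v] (D : Finset (ZMod v)) (s : ZMod v) :
    ∑ x, (if x ∈ D then (1:ℤ) else 0) * (if x + s ∈ D then 1 else 0) =
      ((D ×ˢ D).filter (fun t => t.1 - t.2 = s)).card := by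
  have h1 : ∀ x : ZMod v, (if x ∈ D then (1:ℤ) else 0) * (if x + s ∈ D then 1 else 0) =
      if (x ∈ D ∧ x + s ∈ D) then 1 else 0 := by
    intro x
    by_cases h : x ∈ D <;> by_cases h' : x + s ∈ D <;> simp [h, h']
  rw [sum_congr rfl (fun x _ => h1 x), ← natCast_card_filter]
  norm_cast
  refine card_nbij' (fun x => (x + s, x)) (fun t => t.2) ?_ ?_ ?_ ?_
  · intro x hx
    simp only [coe_filter, mem_univ, true_and, Set.mem_ofPred_eq, mem_product] at hx ⊢
    exact ⟨⟨hx.2, hx.1⟩, by ring⟩
  · intro t ht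
    simp only [coe_filter, mem_univ, true_and, Set.mem_ofPred_eq, mem_product] at ht ⊢
    refine ⟨ht.1.2, ?_⟩
    rw [← ht.2]
    simpa using ht.1.1
  · intro x _
    rfl
  · intro t ht
    simp only [coe_filter, Set.mem_ofPred_eq, mem_product] at ht
    refine Prod.ext ?_ rfl
    show t.2 + s = t.1
    rw [← ht.2]
    ring

theorem had_ind {v w : ℕ} [NeZero v] (hv : v + 1 = 4 * w) {D : Finset (ZMod v)}
    (hD : IsHDS w D) : Had (ind D) := by
  refine ⟨fun x => by unfold ind; split_ifs <;> simp, fun s hs => ?_⟩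
  have h1 : ∀ x : ZMod v, ind D x * ind D (x + s) =
      4 * ((if x ∈ D then (1:ℤ) else 0) * (if x + s ∈ D then 1 else 0)) -
        2 * (if x ∈ D then (1:ℤ) else 0) - 2 * (if x + s ∈ D then (1:ℤ) else 0) + 1 := by
    intro x
    unfold ind
    by_cases h : x ∈ D <;> by_cases h' : x + s ∈ D <;> simp [h, h']
  rw [sum_congr rfl (fun x _ => h1 x), sum_add_distrib, sum_sub_distrib, sum_sub_distrib,
    ← mul_sum, ← mul_sum, ← mul_sum, sum_shift_card]
  have h2 : ∑ x : ZMod v, (if x + s ∈ D then (1:ℤ) else 0) = ∑ x : ZMod v, if x ∈ D then 1 else 0 :=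
    Equiv.sum_comp (Equiv.addRight s) (fun x => if x ∈ D then (1:ℤ) else 0)
  have h3 : ∑ x : ZMod v, (if x ∈ D then (1:ℤ) else 0) = D.card := by
    rw [← natCast_card_filter]
    simp
  rw [h2, h3]
  have h4 := hD.2 s hs
  have h5 := hD.1
  simp only [sum_const, card_univ, ZMod.card, nsmul_eq_mul, mul_one]
  have h6 : (v : ℤ) + 1 = 4 * w := by exact_mod_cast hv
  have h7 : (D.card : ℤ) + 1 = 2 * w := by exact_mod_cast h5
  have h8 : ((((D ×ˢ D).filter (fun t => t.1 - t.2 = s)).card : ℕ) : ℤ) + 1 = w := by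
    exact_mod_cast h4
  linarith

theorem card_unit {v w : ℕ} (hv : v + 1 = 4 * w) {D : Finset (ZMod v)}
    (hD : IsHDS w D) : (D.card : ZMod v) * (-2) = 1 := by
  have h1 : ((2 * D.card + 1 : ℕ) : ZMod v) = 0 := by
    rw [show 2 * D.card + 1 = v by have := hD.1; omega]
    exact ZMod.natCast_self v
  push_cast at h1
  linear_combination -h1

/-- a translate of a cyclic Hadamard difference set is fixed by all multipliers -/
theorem exists_inv {v w : ℕ} [NeZero v] (hv : v + 1 = 4 * w) (D : Finset (ZMod v))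
    (hD : IsHDS w D) :
    ∃ g : ZMod v → ℤ, Had g ∧ (∃ c, ∀ x, g x = ind D (x - c)) ∧
      ∀ t : (ZMod v)ˣ, IsMult D t → ∀ x, g (t * x) = g x := by
  have hu := card_unit hv hD
  set c : ZMod v := 2 * ∑ x ∈ D, x with hc
  have hcard : (D.card : ZMod v) * c = -∑ x ∈ D, x := by
    rw [hc]
    linear_combination (-(∑ x ∈ D, x)) * hu
  refine ⟨fun x => ind D (x - c), ?_, ⟨c, fun _ => rfl⟩, ?_⟩
  · have h := had_ind hv hD
    refine ⟨fun x => h.val _, fun s hs => ?_⟩
    rw [← h.ac s hs, ← Equiv.sum_comp (Equiv.subRight c) (fun x => ind D x * ind D (x + s))]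
    refine sum_congr rfl fun x _ => ?_
    simp only [Equiv.subRight_apply]
    rw [show x + s - c = x - c + s by ring]
  · rintro t ⟨s, hs⟩ x
    have htinj : Function.Injective (fun x : ZMod v => (t : ZMod v) * x) :=
      fun a b hab => by
        have := congrArg (fun z => ((t⁻¹ : (ZMod v)ˣ) : ZMod v) * z) hab
        simpa [← mul_assoc] using this
    have hsum := congrArg (fun S : Finset (ZMod v) => ∑ x ∈ S, x) hs
    rw [sum_image htinj.injOn, sum_image (add_left_injective s).injOn, ← mul_sum,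
      sum_add_distrib, sum_const, nsmul_eq_mul] at hsum
    have hs' : s = c - t * c := by
      have h1 : (D.card : ZMod v) * (s + t * c - c) = 0 := by
        linear_combination -hsum + (t - 1) * hcard
      have h2 : s + t * c - c = 0 := by
        linear_combination (-2) * h1 - (s + t * c - c) * hu
      linear_combination h2
    have key : (t * x - c ∈ D) ↔ (x - c ∈ D) := by
      have h1 : (t * x - c ∈ D) ↔ t * x - c + s ∈ D.image (fun x => x + s) := by
        constructor
        · intro h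
          exact mem_image_of_mem _ h
        · intro h
          obtain ⟨y, hy, hyx⟩ := mem_image.1 h
          rwa [add_right_cancel hyx] at hy
      have h2 : t * x - c + s = t * (x - c) := by
        rw [hs']
        ring
      rw [h1, ← hs, h2]
      constructor
      · intro h
        obtain ⟨y, hy, hyx⟩ := mem_image.1 h
        rwa [htinj hyx] at hy
      · intro h
        exact mem_image.2 ⟨x - c, h, rfl⟩
    show ind D _ = ind D _
    unfold ind
    simp only [key]

/-- the number of candidates in the power multiplier theorem; one candidate for `m = 1` -/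
def K (m : ℕ) : ℕ := if m = 1 then 1 else Pool.Agent.H58.Mult.bound m

theorem K_pos (m : ℕ) : 0 < K m := by
  unfold K Pool.Agent.H58.Mult.bound
  split_ifs
  · omega
  · positivity

theorem isDS_of {v w : ℕ} [NeZero v] {D : Finset (ZMod v)} (hD : IsHDS w D) :
    Pool.Agent.H58.Mult.IsDS D ((w : ℤ) - 1) := by
  intro α hα
  have h := hD.2 α hα
  have h' : ((((D ×ˢ D).filter (fun t => t.1 - t.2 = α)).card : ℕ) : ℤ) = (w : ℤ) - 1 := by
    omega
  rw [← h']
  unfold Pool.Agent.H58.Mult.cnt
  rw [Finset.card_filter, Finset.sum_product]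
  push_cast
  simp only [one_mul]

/-- the multiplier `(4m)^i` of a cyclic Hadamard difference set with `w = m p^b` -/
theorem exists_mult {v w m p b : ℕ} [NeZero v] (hv : v + 1 = 4 * w) (hw : w = m * p ^ b)
    (hw2 : 2 ≤ w) (hp : p.Prime) (D : Finset (ZMod v)) (hD : IsHDS w D) :
    ∃ i : ℕ, 1 ≤ i ∧ i ≤ K m ∧ ∃ g : ZMod v → ℤ, Had g ∧
      ∀ x, g (((4 * m : ℕ) : ZMod v) ^ i * x) = g x := by
  have hcop : Nat.Coprime w v := by
    have h1 : Nat.Coprime (v + 1) v := by simp
    rw [hv] at h1
    exact h1.coprime_mul_left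
  have hw0 : 0 < w := by omega
  have hm : 0 < m := by
    rcases Nat.eq_zero_or_pos m with h | h
    · rw [h, zero_mul] at hw
      omega
    · exact h
  have hq : 0 < p ^ b := pow_pos hp.pos b
  have hds := isDS_of hD
  have hcard : (D.card : ℤ) + 1 = 2 * w := by exact_mod_cast hD.1
  have hn : (D.card : ℤ) - ((w : ℤ) - 1) = m * (p ^ b : ℕ) := by
    have : (w : ℤ) = m * (p ^ b : ℕ) := by rw [hw]; push_cast; ring
    omega
  obtain ⟨g, hg, -, hinv⟩ := exists_inv hv D hD
  -- the unit `p` (or one, if `b = 0`)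
  obtain ⟨t, ht⟩ : ∃ t : (ZMod v)ˣ, (t : ZMod v) ^ b = ((p ^ b : ℕ) : ZMod v) ∧
      (b ≠ 0 → (t : ZMod v) = (p : ZMod v)) := by
    rcases Nat.eq_zero_or_pos b with hb | hb
    · exact ⟨1, by simp [hb], fun h => absurd hb h⟩
    · have hpv : Nat.Coprime p v := by
        refine Nat.Coprime.coprime_dvd_left ?_ hcop
        rw [hw]
        exact Dvd.dvd.mul_left (dvd_pow_self p hb.ne') m
      exact ⟨ZMod.unitOfCoprime p hpv, by simp, fun _ => by simp⟩
  have hex : ∃ i : ℕ, 1 ≤ i ∧ i ≤ K m ∧ IsMult D (t ^ i) := by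
    by_cases hm1 : m = 1
    · refine ⟨1, le_rfl, K_pos m, ?_⟩
      have hb : b ≠ 0 := by
        rintro rfl
        rw [hm1] at hw
        simp at hw
        omega
      have hpv : Nat.Coprime p v := by
        refine Nat.Coprime.coprime_dvd_left ?_ hcop
        rw [hw]
        exact Dvd.dvd.mul_left (dvd_pow_self p hb) m
      have hwp : (w : ℤ) = (p : ℤ) ^ b := by rw [hw, hm1]; push_cast; ring
      rw [pow_one]
      refine Pool.Agent.H58.Mult.mult_of_min hds ?_ hp hpv (b := b) ?_ t (ht.2 hb) (Or.inl ?_)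
      · rw [hn]
        positivity
      · rw [hn, hm1]
        push_cast
        simp
      · rw [← hwp]
        omega
    · obtain ⟨i, h1, h2, h3⟩ := Pool.Agent.H58.Mult.power_mult hds hm hq hn
        (by rw [← hw]; exact hcop) t (fun r hr hrp => ⟨1, by
          have hb : b ≠ 0 := by
            rintro rfl
            rw [pow_zero] at hrp
            exact hr.one_lt.ne' (Nat.dvd_one.1 hrp)
          rw [pow_one, ht.2 hb, (Nat.prime_dvd_prime_iff_eq hr hp).1 (hr.dvd_of_dvd_pow hrp)]⟩)
      refine ⟨i, h1, ?_, h3⟩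
      unfold K
      rw [if_neg hm1]
      exact h2
  obtain ⟨i, hi1, hi2, hi3⟩ := hex
  refine ⟨i, hi1, hi2, g, hg, fun x => ?_⟩
  have hinv1 : ∀ y, g (((t : ZMod v) ^ i) * y) = g y := by
    intro y
    have := hinv _ hi3 y
    push_cast at this
    exact this
  have hinvj : ∀ j y, g ((((t : ZMod v) ^ i) ^ j) * y) = g y := by
    intro j
    induction' j with j ih
    · simp
    · intro y
      rw [pow_succ, mul_assoc, ih, hinv1]
  rw [← hinvj b, ← mul_assoc]
  congr 1
  have h1 : (((t : ZMod v) ^ i) ^ b) * ((4 * m : ℕ) : ZMod v) ^ i = 1 := by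
    rw [pow_right_comm, ht.1, ← mul_pow, ← Nat.cast_mul,
      show p ^ b * (4 * m) = v + 1 by rw [hv, hw]; ring]
    simp
  rw [h1, one_mul]

end Pool.Agent.H12.HD
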