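import Pool.Agent.H12.HD.Save

/-!
# Power saving over all orders with a large prime factor (MP_76589c_co)
-/

set_option autoImplicit false

namespace Pool.Agent.H12.HD

open Finset

/-- `w` is bad: `w = m p^b`, `4w - 1` is composite with a prime factor larger than
`(4w-1)^(2/3+ε)`, and there is a cyclic Hadamard difference set of order `4w - 1` -/
def BadW (m : ℕ) (ε : ℝ) (w : ℕ) : Prop :=
  0 < w ∧ (∃ p b : ℕ, p.Prime ∧ w = m * p ^ b) ∧ ¬ (4 * w - 1).Prime ∧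
    (∃ q : ℕ, q.Prime ∧ q ∣ 4 * w - 1 ∧ ((4 * w - 1 : ℕ) : ℝ) ^ (2 / 3 + ε) < q) ∧
    ∃ D : Finset (ZMod (4 * w - 1)), IsHDS w D

theorem sum_harm (U : ℕ) : ∑ u ∈ Icc 1 U, (1 : ℝ) / u ≤ 1 + Real.log U := by
  have h1 := harmonic_le_one_add_log U
  rw [harmonic_eq_sum_Icc] at h1
  push_cast at h1
  simpa [one_div] using h1

theorem save_w {m : ℕ} (hm : 0 < m) {ε : ℝ} (hε : 0 < ε) (hε4 : ε ≤ 1 / 4) :
    ∃ C δ : ℝ, 0 < C ∧ 0 < δ ∧ ∀ X : ℕ, 0 < X → ∀ W : Finset ℕ,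
      (∀ w ∈ W, w ≤ X ∧ BadW m ε w) → (W.card : ℝ) ≤ C * (X : ℝ) ^ (1 - δ) := by
  classical
  set η : ℝ := ε / 8 with hη
  have hη0 : 0 < η := by positivity
  obtain ⟨C, hC, hsave⟩ := save_unif hm hη0 (by linarith)
  refine ⟨C * (1 + 6 / η) * 4, η / 6, by positivity, by positivity, ?_⟩
  intro X hX W hW
  set Y : ℝ := 4 * X with hY
  have hX1 : (1 : ℝ) ≤ X := by exact_mod_cast hX
  have hY1 : 1 ≤ Y := by rw [hY]; linarith
  have hY0 : 0 < Y := by linarith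
  set U : ℕ := ⌊Y ^ (1 / 3 : ℝ)⌋₊ with hU
  set Wu : ℕ → Finset ℕ := fun u => W.filter fun w => ∃ q : ℕ, u * q = 4 * w - 1 ∧ 1 < u ∧
    (u : ℝ) ≤ (q : ℝ) ^ (1 / 2 - 6 * η) ∧ IsBad m u q with hWu
  have hcover : W ⊆ (Icc 1 U).biUnion Wu := by
    intro w hw
    obtain ⟨hwX, hw0, ⟨p, b, hp, hwm⟩, hnp, ⟨q, hq, hqd, hqlarge⟩, D, hD⟩ := hW w hw
    obtain ⟨u, hu⟩ := hqd
    have hv3 : 3 ≤ 4 * w - 1 := by omega
    have hu0 : 0 < u := by
      rcases Nat.eq_zero_or_pos u with h | h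
      · rw [h, mul_zero] at hu
        omega
      · exact h
    have hu1 : u ≠ 1 := by
      rintro rfl
      rw [mul_one] at hu
      exact hnp (by rw [hu]; exact hq)
    set v : ℝ := ((4 * w - 1 : ℕ) : ℝ) with hv
    have hvq : v = q * u := by rw [hv, hu]; push_cast; ring
    have hv1 : 1 ≤ v := by
      rw [hv]
      exact_mod_cast (by omega : 1 ≤ 4 * w - 1)
    have hv0 : 0 < v := by linarith
    have hq0 : (0 : ℝ) < q := by exact_mod_cast hq.pos
    have hulow : (u : ℝ) < v ^ (1 / 3 - ε) := by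
      have h0 : v ^ (2 / 3 + ε) * v ^ (1 / 3 - ε) = v := by
        rw [← Real.rpow_add hv0, show (2 / 3 + ε) + (1 / 3 - ε) = 1 by ring, Real.rpow_one]
      have h1 : v ^ (2 / 3 + ε) * u < v ^ (2 / 3 + ε) * v ^ (1 / 3 - ε) := by
        rw [h0]
        calc v ^ (2 / 3 + ε) * u < q * u :=
              mul_lt_mul_of_pos_right hqlarge (Nat.cast_pos.2 hu0)
          _ = v := hvq.symm
      exact lt_of_mul_lt_mul_left h1 (Real.rpow_nonneg hv0.le _)
    have huq : (u : ℝ) ≤ (q : ℝ) ^ (1 / 2 - 6 * η) := by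
      have h1 : v ^ (1 / 3 - ε) ≤ v ^ ((2 / 3 + ε) * (1 / 2 - 6 * η)) := by
        refine rpow_mono hv1 ?_
        rw [hη]
        nlinarith
      have h2 : v ^ ((2 / 3 + ε) * (1 / 2 - 6 * η)) ≤ (q : ℝ) ^ (1 / 2 - 6 * η) := by
        rw [Real.rpow_mul hv0.le]
        refine Real.rpow_le_rpow (Real.rpow_nonneg hv0.le _) hqlarge.le ?_
        rw [hη]
        linarith
      exact hulow.le.trans (h1.trans h2)
    have huU : u ≤ U := by
      rw [hU]
      refine Nat.le_floor ?_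
      have h1 : v ≤ Y := by
        rw [hv, hY]
        exact_mod_cast (by omega : 4 * w - 1 ≤ 4 * X)
      calc (u : ℝ) ≤ v ^ (1 / 3 - ε) := hulow.le
        _ ≤ v ^ (1 / 3 : ℝ) := rpow_mono hv1 (by linarith)
        _ ≤ Y ^ (1 / 3 : ℝ) := Real.rpow_le_rpow hv0.le h1 (by norm_num)
    have huq' : u * q = 4 * w - 1 := by rw [hu]; ring
    simp only [mem_biUnion, mem_Icc]
    refine ⟨u, ⟨hu0, huU⟩, mem_filter.2 ⟨hw, q, huq', by omega, huq, hq, w, p, b, hp, by omega,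
      hwm, ?_⟩⟩
    rw [huq']
    exact ⟨D, hD⟩
  -- the bound for each `u`
  have hWucard : ∀ u ∈ Icc 1 U, ((Wu u).card : ℝ) ≤ C * (Y / u) ^ (1 - η / 2) := by
    intro u hu
    rw [mem_Icc] at hu
    have hu0 : (0 : ℝ) < u := by exact_mod_cast hu.1
    by_cases hne : (Wu u).Nonempty
    · obtain ⟨w₁, hw₁⟩ := hne
      obtain ⟨hw₁W, q₁, hq₁, hu1, huq₁, hbad₁⟩ := mem_filter.1 hw₁
      set Q : ℕ := 4 * X / u with hQ
      have hqQ : ∀ w ∈ W, ∀ q : ℕ, u * q = 4 * w - 1 → q ≤ Q := by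
        intro w hw q hq
        rw [hQ, Nat.le_div_iff_mul_le hu.1]
        have := (hW w hw).1
        have h1 : q * u = 4 * w - 1 := by rw [mul_comm]; exact hq
        omega
      have hq₁Q : q₁ ≤ Q := hqQ w₁ hw₁W q₁ hq₁
      have hQ0 : 0 < Q := lt_of_lt_of_le hbad₁.1.pos hq₁Q
      have huQ : (u : ℝ) ≤ (Q : ℝ) ^ (1 / 2 - 6 * η) := by
        refine huq₁.trans (Real.rpow_le_rpow (by positivity) (by exact_mod_cast hq₁Q) ?_)
        rw [hη]
        linarith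
      set S : Finset ℕ := (Wu u).image fun w => (4 * w - 1) / u with hS
      have hScard : S.card = (Wu u).card := by
        rw [hS, card_image_of_injOn]
        intro w hw w' hw' hww
        obtain ⟨hwW, q, hq, -, -, -⟩ := mem_filter.1 (mem_coe.1 hw)
        obtain ⟨hwW', q', hq', -, -, -⟩ := mem_filter.1 (mem_coe.1 hw')
        have h1 : (4 * w - 1) / u = q := by rw [← hq]; exact Nat.mul_div_cancel_left _ hu.1
        have h2 : (4 * w' - 1) / u = q' := by rw [← hq']; exact Nat.mul_div_cancel_left _ hu.1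
        simp only [h1, h2] at hww
        have h3 := (hW w hwW).2.1
        have h4 := (hW w' hwW').2.1
        rw [hww] at hq
        omega
      have h1 := hsave u Q hu1 hQ0 huQ S (by
        intro q hq
        obtain ⟨w, hw, rfl⟩ := mem_image.1 hq
        obtain ⟨hwW, q, hq, -, -, hbad⟩ := mem_filter.1 hw
        have h1 : (4 * w - 1) / u = q := by rw [← hq]; exact Nat.mul_div_cancel_left _ hu.1
        rw [h1]
        exact ⟨hqQ w hwW q hq, hbad⟩)
      rw [hScard] at h1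
      refine h1.trans (mul_le_mul_of_nonneg_left ?_ hC.le)
      refine Real.rpow_le_rpow (by positivity) ?_ (by rw [hη]; linarith)
      have := Nat.cast_div_le (α := ℝ) (m := 4 * X) (n := u)
      rw [hQ, hY]
      push_cast at this
      exact this
    · rw [not_nonempty_iff_eq_empty.1 hne, card_empty]
      push_cast
      positivity
  have h1 : (W.card : ℝ) ≤ ∑ u ∈ Icc 1 U, C * (Y / u) ^ (1 - η / 2) := by
    have h2 := (card_le_card hcover).trans card_biUnion_le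
    have h3 : (W.card : ℝ) ≤ ∑ u ∈ Icc 1 U, ((Wu u).card : ℝ) := by exact_mod_cast h2
    exact h3.trans (sum_le_sum hWucard)
  have hU0 : 0 < U := by
    rw [hU, Nat.floor_pos]
    exact Real.one_le_rpow hY1 (by norm_num)
  have hUY : (U : ℝ) ≤ Y ^ (1 / 3 : ℝ) := Nat.floor_le (by positivity)
  have hU1 : (1 : ℝ) ≤ U := by exact_mod_cast hU0
  have h2 : ∀ u ∈ Icc 1 U, C * (Y / u) ^ (1 - η / 2) ≤
      C * Y ^ (1 - η / 2) * Y ^ (η / 6) * (1 / u) := by
    intro u hu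
    rw [mem_Icc] at hu
    have hu0 : (0 : ℝ) < u := by exact_mod_cast hu.1
    have huU : (u : ℝ) ≤ U := by exact_mod_cast hu.2
    rw [Real.div_rpow hY0.le hu0.le]
    have h3 : (1 : ℝ) / (u : ℝ) ^ (1 - η / 2) ≤ Y ^ (η / 6) * (1 / u) := by
      have h4 : (u : ℝ) = (u : ℝ) ^ (1 - η / 2) * (u : ℝ) ^ (η / 2) := by
        rw [← Real.rpow_add hu0]
        simp
      have h5 : (u : ℝ) ^ (η / 2) ≤ Y ^ (η / 6) := by
        calc (u : ℝ) ^ (η / 2) ≤ (Y ^ (1 / 3 : ℝ)) ^ (η / 2) :=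
              Real.rpow_le_rpow hu0.le (huU.trans hUY) (by positivity)
          _ = Y ^ (η / 6) := by
              rw [← Real.rpow_mul hY0.le]
              congr 1
              ring
      have h6 : 0 < (u : ℝ) ^ (1 - η / 2) := Real.rpow_pos_of_pos hu0 _
      rw [mul_one_div, div_le_div_iff₀ h6 hu0]
      calc (1 : ℝ) * u = (u : ℝ) ^ (1 - η / 2) * (u : ℝ) ^ (η / 2) := by rw [one_mul]; exact h4
        _ ≤ (u : ℝ) ^ (1 - η / 2) * Y ^ (η / 6) := mul_le_mul_of_nonneg_left h5 h6.le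
        _ = Y ^ (η / 6) * (u : ℝ) ^ (1 - η / 2) := by ring
    calc C * (Y ^ (1 - η / 2) / (u : ℝ) ^ (1 - η / 2))
        = C * Y ^ (1 - η / 2) * (1 / (u : ℝ) ^ (1 - η / 2)) := by ring
      _ ≤ C * Y ^ (1 - η / 2) * (Y ^ (η / 6) * (1 / u)) :=
          mul_le_mul_of_nonneg_left h3 (by positivity)
      _ = _ := by ring
  have h3 : ∑ u ∈ Icc 1 U, C * (Y / u) ^ (1 - η / 2) ≤
      C * Y ^ (1 - η / 2) * Y ^ (η / 6) * (1 + Real.log U) := by
    refine (sum_le_sum h2).trans ?_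
    rw [← mul_sum]
    exact mul_le_mul_of_nonneg_left (sum_harm U) (by positivity)
  have h4 : 1 + Real.log U ≤ (1 + 6 / η) * Y ^ (η / 6) := by
    have h5 : Real.log U ≤ Real.log Y := by
      refine Real.log_le_log (by linarith) (hUY.trans ?_)
      calc Y ^ (1 / 3 : ℝ) ≤ Y ^ (1 : ℝ) := rpow_mono hY1 (by norm_num)
        _ = Y := Real.rpow_one Y
    have h6 : Real.log Y ≤ Y ^ (η / 6) / (η / 6) := Real.log_le_rpow_div hY0.le (by positivity)
    have h7 : 1 ≤ Y ^ (η / 6) := Real.one_le_rpow hY1 (by positivity)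
    have h8 : Y ^ (η / 6) / (η / 6) = 6 / η * Y ^ (η / 6) := by
      field_simp
    rw [h8] at h6
    linarith
  have h5 : Y ^ (1 - η / 2) * Y ^ (η / 6) * Y ^ (η / 6) = Y ^ (1 - η / 6) := by
    rw [← Real.rpow_add hY0, ← Real.rpow_add hY0]
    congr 1
    ring
  have h6 : Y ^ (1 - η / 6) ≤ 4 * (X : ℝ) ^ (1 - η / 6) := by
    rw [hY, Real.mul_rpow (by norm_num) (by positivity)]
    refine mul_le_mul_of_nonneg_right ?_ (by positivity)
    calc (4 : ℝ) ^ (1 - η / 6) ≤ (4 : ℝ) ^ (1 : ℝ) := rpow_mono (by norm_num) (by linarith)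
      _ = 4 := Real.rpow_one 4
  calc (W.card : ℝ) ≤ _ := h1
    _ ≤ C * Y ^ (1 - η / 2) * Y ^ (η / 6) * (1 + Real.log U) := h3
    _ ≤ C * Y ^ (1 - η / 2) * Y ^ (η / 6) * ((1 + 6 / η) * Y ^ (η / 6)) :=
        mul_le_mul_of_nonneg_left h4 (by positivity)
    _ = C * (1 + 6 / η) * (Y ^ (1 - η / 2) * Y ^ (η / 6) * Y ^ (η / 6)) := by ring
    _ = C * (1 + 6 / η) * Y ^ (1 - η / 6) := by rw [h5]
    _ ≤ C * (1 + 6 / η) * (4 * (X : ℝ) ^ (1 - η / 6)) :=
        mul_le_mul_of_nonneg_left h6 (by positivity)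
    _ = _ := by ring

end Pool.Agent.H12.HD
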