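import Pool.Agent.H12.HD.Desc

/-!
# A large multiplier group forces twin primes (MP_76589c_co)
-/

set_option autoImplicit false

namespace Pool.Agent.H12.HD

open Finset

/-- the units fixing a function -/
def stab {v : ℕ} (g : ZMod v → ℤ) : Subgroup (ZMod v)ˣ where
  carrier := {t | ∀ x, g (t * x) = g x}
  one_mem' := by intro x; simp
  mul_mem' := by
    intro a b ha hb x
    rw [Units.val_mul, mul_assoc, ha, hb]
  inv_mem' := by
    intro a ha x
    have := ha ((a⁻¹ : (ZMod v)ˣ) * x)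
    rw [← mul_assoc, Units.mul_inv, one_mul] at this
    exact this.symm

theorem rowsum_inv {p q v : ℕ} [NeZero v] [NeZero p] [NeZero q] {g : ZMod v → ℤ}
    {G : ZMod p × ZMod q → ℤ}
    (hinv : ∀ t : ℕ, (∀ x, g ((t : ZMod v) * x) = g x) →
      ∀ x y, G ((t : ZMod p) * x, (t : ZMod q) * y) = G (x, y))
    (t : ℕ) (ht : ∀ x, g ((t : ZMod v) * x) = g x) (htq : Nat.Coprime t q) (x : ZMod p) :
    ∑ y, G ((t : ZMod p) * x, y) = ∑ y, G (x, y) := by
  have hb : Function.Bijective (fun y : ZMod q => (t : ZMod q) * y) :=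
    Finite.injective_iff_bijective.1 (mul_inj htq)
  rw [← Equiv.sum_comp (Equiv.ofBijective _ hb) (fun y => G ((t : ZMod p) * x, y))]
  refine sum_congr rfl fun y _ => ?_
  simp only [Equiv.ofBijective_apply]
  exact hinv t ht x y

theorem twin {p q w : ℕ} (hp : p.Prime) (hq : q.Prime) (hpq : p < q)
    (hv : p * q + 1 = 4 * w) (D : Finset (ZMod (p * q))) (hD : IsHDS w D)
    (hbig : (p : ℝ) * (1 + √(q : ℝ)) < Nat.card {t : (ZMod (p * q))ˣ // IsMult D t}) :
    q = p + 2 := by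
  have : Fact p.Prime := ⟨hp⟩
  have : Fact q.Prime := ⟨hq⟩
  have hv0 : NeZero (p * q) := ⟨(Nat.mul_pos hp.pos hq.pos).ne'⟩
  have hcop : Nat.Coprime p q := (Nat.coprime_primes hp hq).2 hpq.ne
  obtain ⟨g, hg, -, hmult⟩ := exists_inv hv D hD
  obtain ⟨G, hG, hinv⟩ := exists_prod rfl hcop g hg
  set M := stab g with hM
  have hcardM : (p : ℝ) * (1 + √(q : ℝ)) < Nat.card M := by
    refine hbig.trans_le ?_
    have : Nat.card {t : (ZMod (p * q))ˣ // IsMult D t} ≤ Nat.card M :=
      Nat.card_le_card_of_injective (fun t => (⟨t.1, hmult t.1 t.2⟩ : M))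
        (fun a b hab => Subtype.ext (congrArg (fun z : M => (z : (ZMod (p * q))ˣ)) hab))
    exact_mod_cast this
  -- the two projections
  set πp : M →* (ZMod p)ˣ := (ZMod.unitsMap (dvd_mul_right p q)).comp M.subtype with hπp
  set πq : M →* (ZMod q)ˣ := (ZMod.unitsMap (dvd_mul_left q p)).comp M.subtype with hπq
  have hnat : ∀ t : M, (((t : (ZMod (p * q))ˣ) : ZMod (p * q)).val : ZMod (p * q)) =
      ((t : (ZMod (p * q))ˣ) : ZMod (p * q)) := fun t => ZMod.natCast_zmod_val _
  have hfix : ∀ t : M, ∀ x,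
      g (((((t : (ZMod (p * q))ˣ) : ZMod (p * q)).val : ℕ) : ZMod (p * q)) * x) = g x := by
    intro t x
    rw [hnat]
    exact t.2 x
  have hvp : ∀ t : M, ((((t : (ZMod (p * q))ˣ) : ZMod (p * q)).val : ℕ) : ZMod p) = (πp t : ZMod p) := by
    intro t
    rw [hπp]
    simp [ZMod.unitsMap_def]
  have hvq : ∀ t : M, ((((t : (ZMod (p * q))ˣ) : ZMod (p * q)).val : ℕ) : ZMod q) = (πq t : ZMod q) := by
    intro t
    rw [hπq]
    simp [ZMod.unitsMap_def]
  have hcq : ∀ t : M, Nat.Coprime ((t : (ZMod (p * q))ˣ) : ZMod (p * q)).val q := by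
    intro t
    have h1 := ZMod.val_coe_unit_coprime (t : (ZMod (p * q))ˣ)
    exact h1.coprime_mul_left_right
  have hinj : Function.Injective (fun t : πp.ker => πq t) := by
    intro a b hab
    have ha := MonoidHom.mem_ker.1 a.2
    have hb := MonoidHom.mem_ker.1 b.2
    apply Subtype.ext
    apply Subtype.ext
    apply Units.ext
    rw [← hnat a, ← hnat b]
    rw [ZMod.natCast_eq_natCast_iff]
    refine (Nat.modEq_and_modEq_iff_modEq_mul hcop).1 ⟨?_, ?_⟩
    · rw [← ZMod.natCast_eq_natCast_iff, hvp, hvp, ha, hb]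
    · rw [← ZMod.natCast_eq_natCast_iff, hvq, hvq]
      exact congrArg Units.val hab
  set ρ : πp.ker →* (ZMod q)ˣ := πq.comp πp.ker.subtype with hρ
  have hcyc : IsCyclic πp.ker := isCyclic_of_injective ρ hinj
  obtain ⟨τ, hτ⟩ := hcyc.exists_generator
  set F : ℕ := Nat.card πp.ker with hF
  have hord : orderOf τ = F := orderOf_eq_card_of_forall_mem_zpowers hτ
  set T : ℕ := ((((τ : M) : (ZMod (p * q))ˣ) : ZMod (p * q)).val) with hT
  have hT1 : (T : ZMod p) = 1 := by
    rw [hT, hvp, MonoidHom.mem_ker.1 τ.2]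
    rfl
  have hTq : orderOf (T : ZMod q) = F := by
    rw [hT, hvq, orderOf_units, ← hord]
    exact orderOf_injective ρ hinj τ
  have hinv' : ∀ x y, G (x, (T : ZMod q) * y) = G (x, y) := fun x y => by
    have := hinv T (hfix τ) x y
    rwa [hT1, one_mul] at this
  have hN : ∀ q' : ℕ, q'.Prime → q' ∣ q → F ∣ orderOf (T : ZMod q') := by
    intro q' hq' hd
    rw [(Nat.prime_dvd_prime_iff_eq hq' hq).1 hd, hTq]
  have hodd : ∀ x, Odd (G x) := fun x => by
    rcases hG.val x with h | h <;> rw [h] <;> decide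
  have hpqo : Odd (p * q) := ⟨2 * w - 1, by omega⟩
  rw [Nat.odd_mul] at hpqo
  obtain ⟨l, hl⟩ := exists_l (by rw [ZMod.card]; exact hpqo.2) G hodd
    (fun y => (T : ZMod q) * y) (mul_inj (hcq τ)) (by simp) hinv'
    F (fun y hy k hk => period_dvd hN y hy k hk)
  have hsq := sum_fibre_sq G hG
  rw [ZMod.card, ZMod.card] at hsq
  set R : ZMod p → ℤ := fun x => ∑ y, G (x, y) with hR
  -- `l` vanishes off zero
  have hFpos : 1 ≤ F := Nat.card_pos
  have hl0 : ∀ x, x ≠ 0 → l x = 0 := by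
    intro x hx
    by_contra hlx
    set f : ℕ := Nat.card πp.range with hf
    have hMf : Nat.card M = F * f := by
      have h1 := Subgroup.card_eq_card_quotient_mul_card_subgroup πp.ker
      rw [h1, mul_comm]
      congr 1
      exact Nat.card_congr (QuotientGroup.quotientKerEquivRange πp).toEquiv
    have hfp : f ≤ p - 1 := by
      have h1 : f ≤ Nat.card (ZMod p)ˣ := Nat.card_le_card_of_injective _ Subtype.val_injective
      rwa [Nat.card_eq_fintype_card, ZMod.card_units] at h1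
    have hfpos : 0 < f := Nat.card_pos
    have horb : (f : ℤ) * ((F : ℤ) - 1) ^ 2 ≤ ((p : ℤ) - 1) * q + 1 := by
      rw [← hsq]
      classical
      set O : Finset (ZMod p) := (univ : Finset πp.range).image
        (fun a : πp.range => ((a : (ZMod p)ˣ) : ZMod p) * x) with hO
      have hOc : O.card = f := by
        rw [hO, card_image_of_injective, card_univ, hf, Nat.card_eq_fintype_card]
        intro a b hab
        apply Subtype.ext
        apply Units.ext
        exact mul_right_cancel₀ hx hab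
      have h1 : ∀ z ∈ O, ((F : ℤ) - 1) ^ 2 ≤ (∑ y, G (z, y)) ^ 2 := by
        intro z hz
        obtain ⟨⟨a, t, rfl⟩, -, rfl⟩ := mem_image.1 hz
        have h2 := rowsum_inv hinv _ (hfix t) (hcq t) x
        rw [hvp] at h2
        simp only
        rw [h2, hl x]
        have hFL : (F : ℤ) ≤ (Nat.lcm 2 F : ℕ) := by
          exact_mod_cast Nat.le_of_dvd (Nat.lcm_pos two_pos hFpos) (Nat.dvd_lcm_right _ _)
        have hF1 : (1 : ℤ) ≤ F := by exact_mod_cast hFpos
        refine le_trans ?_ (sq_ge (by linarith) hlx (hG.val _))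
        exact pow_le_pow_left₀ (by linarith) (by linarith) 2
      calc (f : ℤ) * ((F : ℤ) - 1) ^ 2 = ∑ z ∈ O, ((F : ℤ) - 1) ^ 2 := by
            rw [sum_const, hOc, nsmul_eq_mul]
        _ ≤ ∑ z ∈ O, (∑ y, G (z, y)) ^ 2 := sum_le_sum h1
        _ ≤ ∑ z, (∑ y, G (z, y)) ^ 2 := sum_le_univ_sum_of_nonneg (fun _ => sq_nonneg _)
    -- numerical contradiction
    have h1 : (p : ℝ) * (1 + √(q : ℝ)) < F * f := by
      rw [hMf] at hcardM
      exact_mod_cast hcardM
    have h2 : (f : ℝ) * ((F : ℝ) - 1) ^ 2 ≤ ((p : ℝ) - 1) * q + 1 := by exact_mod_cast horb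
    have h3 : (f : ℝ) ≤ p - 1 := by
      have : f + 1 ≤ p := by have := hp.one_lt; omega
      have : (f : ℝ) + 1 ≤ p := by exact_mod_cast this
      linarith
    have hp1 : (2 : ℝ) ≤ p := by exact_mod_cast hp.two_le
    have hq1 : (3 : ℝ) ≤ q := by
      have : 3 ≤ q := by have := hp.two_le; omega
      exact_mod_cast this
    have hs : √(q : ℝ) ^ 2 = q := Real.sq_sqrt (by positivity)
    have hs0 : 0 ≤ √(q : ℝ) := Real.sqrt_nonneg _
    have h4 : (p : ℝ) * √(q : ℝ) < f * (F - 1) := by nlinarith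
    have h5 : ((p : ℝ) * √(q : ℝ)) ^ 2 < (f * (F - 1)) ^ 2 :=
      pow_lt_pow_left₀ h4 (by positivity) two_ne_zero
    have h6 : ((p : ℝ) * √(q : ℝ)) ^ 2 = p ^ 2 * q := by rw [mul_pow, hs]
    have h7 : ((f : ℝ) * (F - 1)) ^ 2 = f * (f * (F - 1) ^ 2) := by ring
    rw [h6, h7] at h5
    have h8 : (f : ℝ) * (f * (F - 1) ^ 2) ≤ (p - 1) * ((p - 1) * q + 1) := by
      have hf0 : (0 : ℝ) ≤ f := by positivity
      have : 0 ≤ ((p : ℝ) - 1) * q + 1 := by nlinarith
      calc (f : ℝ) * (f * (F - 1) ^ 2) ≤ f * ((p - 1) * q + 1) :=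
            mul_le_mul_of_nonneg_left h2 hf0
        _ ≤ (p - 1) * ((p - 1) * q + 1) := mul_le_mul_of_nonneg_right h3 this
    nlinarith
  -- conclusion
  have hR0 : ∀ x, x ≠ 0 → R x = 1 ∨ R x = -1 := by
    intro x hx
    have : R x = G (x, 0) := by
      simp only [hR]
      rw [hl x, hl0 x hx, mul_zero, add_zero]
    rw [this]
    exact hG.val _
  have h1 : R 0 ^ 2 = ((p : ℤ) - 1) * (q - 1) + 1 := by
    have h2 : ∑ x, R x ^ 2 = R 0 ^ 2 + (p - 1) := by
      rw [← add_sum_erase _ _ (mem_univ (0 : ZMod p))]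
      congr 1
      rw [sum_congr rfl (g := fun _ => (1 : ℤ)) (fun x hx => by
        rcases hR0 x (mem_erase.1 hx).1 with h | h <;> rw [h] <;> norm_num)]
      rw [sum_const, card_erase_of_mem (mem_univ _), card_univ, ZMod.card, nsmul_eq_mul, mul_one,
        Nat.cast_sub hp.one_le]
      simp
    have h3 : ∑ x, R x ^ 2 = ((p : ℤ) - 1) * q + 1 := hsq
    rw [h2] at h3
    linarith
  have h2 : |R 0| ≤ p := by
    have h3 := hG.sum_sq
    have h4 : ∑ z, G z = ∑ x, R x := by rw [Fintype.sum_prod_type]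
    rw [h4, ← add_sum_erase _ _ (mem_univ (0 : ZMod p))] at h3
    have h5 : |∑ x ∈ univ.erase (0 : ZMod p), R x| ≤ (p : ℤ) - 1 := by
      calc |∑ x ∈ univ.erase (0 : ZMod p), R x| ≤ ∑ x ∈ univ.erase (0 : ZMod p), |R x| :=
            abs_sum_le_sum_abs _ _
        _ = ∑ x ∈ univ.erase (0 : ZMod p), (1 : ℤ) := by
            refine sum_congr rfl fun x hx => ?_
            rcases hR0 x (mem_erase.1 hx).1 with h | h <;> rw [h] <;> norm_num
        _ = (p : ℤ) - 1 := by
            rw [sum_const, card_erase_of_mem (mem_univ _), card_univ, ZMod.card, nsmul_eq_mul,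
              mul_one, Nat.cast_sub hp.one_le]
            simp
    have h6 : |R 0 + ∑ x ∈ univ.erase (0 : ZMod p), R x| ≤ 1 := by
      rw [← sq_le_one_iff_abs_le_one, h3]
    have h7 := abs_sub_abs_le_abs_sub (R 0) (-∑ x ∈ univ.erase (0 : ZMod p), R x)
    rw [sub_neg_eq_add, abs_neg] at h7
    linarith
  have h3 : R 0 ^ 2 ≤ (p : ℤ) ^ 2 := by
    rw [← sq_abs]
    exact pow_le_pow_left₀ (abs_nonneg _) h2 2
  rw [h1] at h3
  have h4 : (q : ℤ) ≤ p + 2 := by
    have hp2 : (2 : ℤ) ≤ p := by exact_mod_cast hp.two_le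
    by_contra hcon
    push Not at hcon
    nlinarith
  have h5 : q ≤ p + 2 := by exact_mod_cast h4
  have h6 : q ≠ p + 1 := by
    rintro rfl
    have h7 : Even (p * (p + 1)) := Nat.even_mul_succ_self p
    obtain ⟨k, hk⟩ := h7
    omega
  omega

end Pool.Agent.H12.HD
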