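import Pool.Agent.H12.HD.AllW

/-!
# Ingredients for the count over all `w` (MP_76589c_co)
-/

set_option autoImplicit false

namespace Pool.Agent.H12.HD

open Finset

/-- the norm equation when no prime divisor of `w` is an `a`-th root of unity modulo `q` -/
theorem norm_test {u q n a w : ℕ} (hn : n.Prime) (hn2 : n ≠ 2) (hq : q.Prime)
    (hqa : q = a * n + 1) (hu : 1 < u) (hqu : ¬ q ∣ u) (hun : ¬ n ∣ Nat.totient u)
    (hv : u * q + 1 = 4 * w)
    (hroot : ∀ p : ℕ, p.Prime → p ∣ w → ((p : ZMod q)) ^ a ≠ 1)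
    (D : Finset (ZMod (u * q))) (hD : IsHDS w D) :
    ∃ J M : ℤ, 1 ≤ M ∧ |J| ≤ M ∧ ((u : ℤ) - 1) * a = 4 * (n * M + J) := by
  have : Fact q.Prime := ⟨hq⟩
  have hcop : Nat.Coprime u q := ((Nat.Prime.coprime_iff_not_dvd hq).2 hqu).symm
  obtain ⟨J, M, hM, hJ, -, h1⟩ := (test (N := n) hu hq hcop hv (fun p hp hpw => by
    refine dvd_ord hq hn hqa ((Nat.Prime.coprime_iff_not_dvd hn).2 hun).symm _ ?_
      (hroot p hp hpw)
    rw [Ne, ZMod.natCast_eq_zero_iff]
    intro h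
    have h2 : q = p := (Nat.prime_dvd_prime_iff_eq hq hp).1 h
    rw [← h2] at hpw
    have h3 : q ∣ 4 * w := Dvd.dvd.mul_left hpw 4
    rw [← hv] at h3
    have h4 : q ∣ 1 := (Nat.dvd_add_right (dvd_mul_left q u)).1 h3
    exact hq.one_lt.ne' (Nat.dvd_one.1 h4)) D hD).1
  refine ⟨J, M, hM, hJ, ?_⟩
  have h2 : Nat.lcm 2 n = 2 * n :=
    Nat.Coprime.lcm_eq_mul ((Nat.coprime_primes Nat.prime_two hn).2 hn2.symm)
  rw [h2] at h1
  have hn0 : (n : ℤ) ≠ 0 := by exact_mod_cast hn.ne_zero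
  have hq1 : (q : ℤ) - 1 = a * n := by rw [hqa]; push_cast; ring
  rw [hq1] at h1
  push_cast at h1
  refine mul_left_cancel₀ hn0 ?_
  linear_combination h1

/-- `w ≤ X` with `E ∣ 4 w - 1` -/
theorem ap4 {X E : ℕ} (hE : 0 < E) (S : Finset ℕ)
    (hS : ∀ w ∈ S, 0 < w ∧ w ≤ X ∧ E ∣ 4 * w - 1) : (S.card : ℝ) ≤ 5 * X / E := by
  have hE0 : (0 : ℝ) < E := by exact_mod_cast hE
  rcases S.eq_empty_or_nonempty with h | ⟨w₀, hw₀⟩
  · rw [h]
    simp only [card_empty, Nat.cast_zero]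
    positivity
  have hEX : E ≤ 4 * X := by
    obtain ⟨h1, h2, h3⟩ := hS w₀ hw₀
    have := Nat.le_of_dvd (by omega) h3
    omega
  have hodd : Nat.Coprime E 4 := by
    obtain ⟨h1, h2, h3⟩ := hS w₀ hw₀
    refine Nat.Coprime.coprime_dvd_left h3 ?_
    have h4 : Nat.Coprime (4 * w₀ - 1) (4 * w₀) := by
      have h5 : 4 * w₀ = (4 * w₀ - 1) + 1 := by omega
      nth_rw 2 [h5]
      simp
    exact h4.coprime_mul_right_right
  have hinj : Set.InjOn (fun w : ℕ => w / E) (S : Set ℕ) := by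
    intro x hx y hy hxy
    obtain ⟨hx1, hx2, hx3⟩ := hS x hx
    obtain ⟨hy1, hy2, hy3⟩ := hS y hy
    have hmod : x ≡ y [MOD E] := by
      have h1 : (4 * x - 1) ≡ (4 * y - 1) [MOD E] :=
        ((Nat.modEq_zero_iff_dvd).2 hx3).trans ((Nat.modEq_zero_iff_dvd).2 hy3).symm
      have h2 : (4 * x - 1) + 1 ≡ (4 * y - 1) + 1 [MOD E] := h1.add_right 1
      rw [show 4 * x - 1 + 1 = 4 * x by omega, show 4 * y - 1 + 1 = 4 * y by omega] at h2
      exact Nat.ModEq.cancel_left_of_coprime hodd h2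
    have h1 := Nat.div_add_mod x E
    have h2 := Nat.div_add_mod y E
    have h3 : x % E = y % E := hmod
    have h4 : x / E = y / E := hxy
    rw [← h1, ← h2, h3, h4]
  have hcard : S.card ≤ X / E + 1 := by
    rw [← card_image_of_injOn hinj, ← card_range (X / E + 1)]
    refine card_le_card fun x hx => ?_
    obtain ⟨w, hw, rfl⟩ := mem_image.1 hx
    rw [mem_range]
    exact Nat.lt_succ_of_le (Nat.div_le_div_right (hS w hw).2.1)
  have h1 : (S.card : ℝ) ≤ (X / E : ℕ) + 1 := by exact_mod_cast hcard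
  have h2 : ((X / E : ℕ) : ℝ) ≤ X / E := Nat.cast_div_le
  have h3 : (1 : ℝ) ≤ 4 * X / E := by
    rw [le_div_iff₀ hE0, one_mul]
    exact_mod_cast hEX
  have h4 : (5 : ℝ) * X / E = X / E + 4 * X / E := by ring
  rw [h4]
  linarith

/-- `w ≤ X` with `d ∣ 4 w` and `q ∣ 4 w - 1` -/
theorem ap_dq {X d q : ℕ} (hd : 0 < d) (hq : 0 < q) (S : Finset ℕ)
    (hS : ∀ w ∈ S, 0 < w ∧ w ≤ X ∧ d ∣ 4 * w ∧ q ∣ 4 * w - 1) :
    (S.card : ℝ) ≤ 4 * X / (d * q) + 1 := by
  have hd0 : (0 : ℝ) < d := by exact_mod_cast hd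
  have hq0 : (0 : ℝ) < q := by exact_mod_cast hq
  rcases S.eq_empty_or_nonempty with h | ⟨w₀, hw₀⟩
  · rw [h]
    simp only [card_empty, Nat.cast_zero]
    positivity
  have hcop : Nat.Coprime d q := by
    obtain ⟨h1, h2, h3, h4⟩ := hS w₀ hw₀
    have h5 : Nat.Coprime (4 * w₀) (4 * w₀ - 1) := by
      have h5 : 4 * w₀ = (4 * w₀ - 1) + 1 := by omega
      nth_rw 1 [h5]
      simp
    exact Nat.Coprime.coprime_dvd_left h3 (Nat.Coprime.coprime_dvd_right h4 h5)
  have hinj : Set.InjOn (fun w : ℕ => 4 * w / (d * q)) (S : Set ℕ) := by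
    intro x hx y hy hxy
    obtain ⟨hx1, hx2, hx3, hx4⟩ := hS x hx
    obtain ⟨hy1, hy2, hy3, hy4⟩ := hS y hy
    have hmod : 4 * x ≡ 4 * y [MOD (d * q)] := by
      refine (Nat.modEq_and_modEq_iff_modEq_mul hcop).1 ⟨?_, ?_⟩
      · exact ((Nat.modEq_zero_iff_dvd).2 hx3).trans ((Nat.modEq_zero_iff_dvd).2 hy3).symm
      · have h1 : (4 * x - 1) ≡ (4 * y - 1) [MOD q] :=
          ((Nat.modEq_zero_iff_dvd).2 hx4).trans ((Nat.modEq_zero_iff_dvd).2 hy4).symm
        have h2 : (4 * x - 1) + 1 ≡ (4 * y - 1) + 1 [MOD q] := h1.add_right 1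
        rwa [show 4 * x - 1 + 1 = 4 * x by omega, show 4 * y - 1 + 1 = 4 * y by omega] at h2
    have h1 := Nat.div_add_mod (4 * x) (d * q)
    have h2 := Nat.div_add_mod (4 * y) (d * q)
    have h3 : (4 * x) % (d * q) = (4 * y) % (d * q) := hmod
    have h4 : (4 * x) / (d * q) = (4 * y) / (d * q) := hxy
    have h5 : 4 * x = 4 * y := by rw [← h1, ← h2, h3, h4]
    omega
  have hcard : S.card ≤ 4 * X / (d * q) + 1 := by
    rw [← card_image_of_injOn hinj, ← card_range (4 * X / (d * q) + 1)]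
    refine card_le_card fun x hx => ?_
    obtain ⟨w, hw, rfl⟩ := mem_image.1 hx
    rw [mem_range]
    exact Nat.lt_succ_of_le (Nat.div_le_div_right (by have := (hS w hw).2.1; omega))
  have h1 : (S.card : ℝ) ≤ (4 * X / (d * q) : ℕ) + 1 := by exact_mod_cast hcard
  have h2 : ((4 * X / (d * q) : ℕ) : ℝ) ≤ ((4 * X : ℕ) : ℝ) / ((d * q : ℕ) : ℝ) :=
    Nat.cast_div_le
  push_cast at h2
  linarith

/-- roots of unity in an initial segment -/
theorem roots_count {q a D : ℕ} (hq : q.Prime) (ha : 0 < a) (S : Finset ℕ)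
    (hS : ∀ d ∈ S, d ≤ D ∧ ((d : ZMod q)) ^ a = 1) : S.card ≤ a * (D / q + 1) := by
  classical
  have : Fact q.Prime := ⟨hq⟩
  have h1 : S.card = ∑ r ∈ Polynomial.nthRootsFinset a (1 : ZMod q),
      (S.filter fun d : ℕ => (d : ZMod q) = r).card := by
    rw [← card_biUnion]
    · congr 1
      ext d
      simp only [mem_biUnion, mem_filter]
      constructor
      · intro hd
        exact ⟨(d : ZMod q), (Polynomial.mem_nthRootsFinset ha _).2 (hS d hd).2, hd, rfl⟩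
      · rintro ⟨r, -, hd, -⟩
        exact hd
    · intro r _ s _ hrs
      rw [Function.onFun, Finset.disjoint_left]
      intro d hd1 hd2
      rw [mem_filter] at hd1 hd2
      exact hrs (hd1.2.symm.trans hd2.2)
  rw [h1]
  have h2 : ∀ r ∈ Polynomial.nthRootsFinset a (1 : ZMod q),
      (S.filter fun d : ℕ => (d : ZMod q) = r).card ≤ D / q + 1 := by
    intro r _
    have hinj : Set.InjOn (fun d : ℕ => d / q) (S.filter fun d : ℕ => (d : ZMod q) = r : Finset ℕ) := by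
      intro x hx y hy hxy
      rw [coe_filter] at hx hy
      have hmod : x ≡ y [MOD q] := by
        rw [← ZMod.natCast_eq_natCast_iff]
        exact hx.2.trans hy.2.symm
      have h1 := Nat.div_add_mod x q
      have h2 := Nat.div_add_mod y q
      have h3 : x % q = y % q := hmod
      have h4 : x / q = y / q := hxy
      rw [← h1, ← h2, h3, h4]
    rw [← card_image_of_injOn hinj, ← card_range (D / q + 1)]
    refine card_le_card fun x hx => ?_
    obtain ⟨d, hd, rfl⟩ := mem_image.1 hx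
    rw [mem_range]
    exact Nat.lt_succ_of_le (Nat.div_le_div_right (hS d (mem_filter.1 hd).1).1)
  refine (sum_le_card_nsmul _ _ _ h2).trans ?_
  rw [smul_eq_mul]
  refine Nat.mul_le_mul ?_ le_rfl
  rw [Polynomial.nthRootsFinset_def]
  exact (Multiset.toFinset_card_le _).trans (Polynomial.card_nthRoots a 1)

theorem sum_inv_sq' {F : ℕ} (hF : 0 < F) (Q : ℕ) :
    ∑ L ∈ Icc F Q, (1 : ℝ) / (L : ℝ) ^ 2 ≤ 2 / F := by
  have hF0 : (0 : ℝ) < F := by exact_mod_cast hF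
  have hF1 : (1 : ℝ) ≤ F := by exact_mod_cast hF
  rcases Nat.lt_or_ge Q F with h | h
  · rw [Icc_eq_empty (by omega)]
    simp only [sum_empty]
    positivity
  have h1 := sum_inv_sq hF Q
  have h2 : Icc F Q = insert F (Ioc F Q) := by
    ext x
    simp only [mem_Icc, mem_insert, mem_Ioc]
    omega
  rw [h2, sum_insert (by simp)]
  have h3 : (1 : ℝ) / (F : ℝ) ^ 2 ≤ 1 / F := by
    rw [div_le_div_iff₀ (by positivity) hF0]
    nlinarith
  have h4 : (2 : ℝ) / F = 1 / F + 1 / F := by ring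
  rw [h4]
  linarith

/-- a prime divisor of `φ(u)` -/
theorem dvd_totient {n u : ℕ} (hn : n.Prime) (hu : u ≠ 0) (h : n ∣ Nat.totient u) :
    ∃ m : ℕ, m ∣ u ∧ (m = n ∨ ∃ k : ℕ, 0 < k ∧ m = n * k + 1) := by
  rw [Nat.totient_eq_prod_factorization hu, Finsupp.prod] at h
  obtain ⟨p, hp, hd⟩ := (Prime.dvd_finsetProd_iff hn.prime _).1 h
  have hpp : p.Prime := Nat.prime_of_mem_primeFactors (by rwa [Nat.support_factorization] at hp)
  have hpu : p ∣ u := Nat.dvd_of_mem_primeFactors (by rwa [Nat.support_factorization] at hp)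
  rcases (Nat.Prime.dvd_mul hn).1 hd with h1 | h1
  · have h2 : n = p := (Nat.prime_dvd_prime_iff_eq hn hpp).1 (hn.dvd_of_dvd_pow h1)
    exact ⟨n, by rw [h2]; exact hpu, Or.inl rfl⟩
  · obtain ⟨k, hk⟩ := h1
    have := hpp.two_le
    refine ⟨p, hpu, Or.inr ⟨k, ?_, by omega⟩⟩
    rcases Nat.eq_zero_or_pos k with h | h
    · rw [h, mul_zero] at hk
      omega
    · exact h

end Pool.Agent.H12.HD
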