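import Pool.Agent.H12.HD.U1
import Pool.Agent.H12.HD.SaveW

/-!
# The count for one prime `q = a n + 1` (MP_76589c_co)
-/

set_option autoImplicit false

namespace Pool.Agent.H12.HD

open Finset

/-- a composite order divisible by `a n + 1` with a cyclic Hadamard difference set -/
def Hit (a n w : ℕ) : Prop :=
  0 < w ∧ (a * n + 1) ∣ 4 * w - 1 ∧ a * n + 1 ≠ 4 * w - 1 ∧
    ∃ D : Finset (ZMod (4 * w - 1)), IsHDS w D

theorem alternatives {X a n w : ℕ} (hn : n.Prime) (hn2 : n ≠ 2)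
    (hq : (a * n + 1).Prime) (hX : w ≤ X) (h : Hit a n w) :
    (a * n + 1) * (a * n + 1) ∣ 4 * w - 1 ∨ (a * n + 1) * n ∣ 4 * w - 1 ∨
    (∃ k ∈ Icc 1 (4 * X), (a * n + 1) * (n * k + 1) ∣ 4 * w - 1) ∨
    (∃ d : ℕ, 2 ≤ d ∧ d * d ≤ 4 * X ∧ d ∣ 4 * w ∧ a * n + 1 ∣ d ^ a - 1) ∨
    (∃ u : ℕ, u * (a * n + 1) + 1 = 4 * w ∧ 1 < u ∧ ∃ J M : ℤ, 1 ≤ M ∧ |J| ≤ M ∧
      ((u : ℤ) - 1) * a = 4 * (n * M + J)) := by
  obtain ⟨hw, ⟨u, hu⟩, hne, hD⟩ := h
  set q := a * n + 1 with hqdef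
  have hu0 : u ≠ 0 := by
    rintro rfl
    rw [mul_zero] at hu
    omega
  have hu1 : u ≠ 1 := by
    rintro rfl
    rw [mul_one] at hu
    exact hne hu.symm
  have hu' : 1 < u := by omega
  have hv : u * q + 1 = 4 * w := by
    rw [mul_comm, ← hu]
    omega
  have huX : u ≤ 4 * X := by
    have : u * 1 ≤ u * q := Nat.mul_le_mul le_rfl (by omega)
    omega
  have htr : ∀ v : ℕ, v = u * q → (∃ D : Finset (ZMod v), IsHDS w D) →
      ∃ D : Finset (ZMod (u * q)), IsHDS w D := by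
    rintro v rfl h
    exact h
  obtain ⟨D, hD⟩ := htr _ (by omega) hD
  by_cases h1 : q ∣ u
  · left
    rw [hu]
    exact mul_dvd_mul_left q h1
  right
  by_cases h2 : n ∣ Nat.totient u
  · obtain ⟨m, hm, hm'⟩ := dvd_totient hn hu0 h2
    rcases hm' with rfl | ⟨k, hk, rfl⟩
    · left
      rw [hu]
      exact mul_dvd_mul_left q hm
    · right
      left
      refine ⟨k, ?_, ?_⟩
      · rw [mem_Icc]
        refine ⟨hk, ?_⟩
        have h3 := Nat.le_of_dvd (by omega) hm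
        have h4 : 1 * k ≤ n * k := Nat.mul_le_mul hn.one_le le_rfl
        omega
      · rw [hu]
        exact mul_dvd_mul_left q hm
  right
  right
  have : Fact q.Prime := ⟨hq⟩
  by_cases h3 : ∀ p : ℕ, p.Prime → p ∣ w → ((p : ZMod q)) ^ a ≠ 1
  · right
    exact ⟨u, hv, hu', norm_test hn hn2 hq hqdef hu' h1 h2 hv h3 D hD⟩
  · left
    push Not at h3
    obtain ⟨p, hp, hpw, hpa⟩ := h3
    obtain ⟨c, hc, hc2, hp2⟩ := cofac hp hpw hv
    have hcc : (p : ZMod q) * (c : ZMod q) = 1 := by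
      have := congrArg (fun z : ℕ => (z : ZMod q)) hc
      push_cast at this
      rw [this, ZMod.natCast_self]
      ring
    have hca : (c : ZMod q) ^ a = 1 := by
      have h2 : ((p : ZMod q) * (c : ZMod q)) ^ a = 1 := by rw [hcc, one_pow]
      rwa [mul_pow, hpa, one_mul] at h2
    have hdvd : ∀ x : ℕ, 2 ≤ x → (x : ZMod q) ^ a = 1 → q ∣ x ^ a - 1 := by
      intro x hx hxa
      have h1 : 1 ≤ x ^ a := Nat.one_le_pow _ _ (by omega)
      rw [← ZMod.natCast_eq_zero_iff, Nat.cast_sub h1]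
      push_cast
      rw [hxa, sub_self]
    rcases Nat.lt_or_ge p c with h4 | h4
    · refine ⟨p, hp2, ?_, Dvd.dvd.mul_left hpw 4, hdvd p hp2 hpa⟩
      have : p * p ≤ p * c := Nat.mul_le_mul le_rfl h4.le
      omega
    · refine ⟨c, hc2, ?_, ?_, hdvd c hc2 hca⟩
      · have : c * c ≤ p * c := Nat.mul_le_mul h4 le_rfl
        omega
      · rw [← hv, ← hc]
        exact dvd_mul_left _ _

/-- orders satisfying the norm equation -/
theorem norm_count {X a n : ℕ} (ha : 0 < a) (hn : 2 ≤ n) (S : Finset ℕ)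
    (hS : ∀ w ∈ S, w ≤ X ∧ ∃ u : ℕ, u * (a * n + 1) + 1 = 4 * w ∧ 1 < u ∧
      ∃ J M : ℤ, 1 ≤ M ∧ |J| ≤ M ∧ ((u : ℤ) - 1) * a = 4 * (n * M + J)) :
    (S.card : ℝ) ≤ 32 * (X : ℝ) ^ 2 / (a * n ^ 4) + 2 * X / n ^ 2 := by
  classical
  set m : ℕ := 2 * X / n ^ 2 with hm
  set T : ℕ → Finset ℕ := fun M => S.filter fun w => ∃ u : ℕ, u * (a * n + 1) + 1 = 4 * w ∧
    |(a : ℝ) * u - ((a : ℝ) + 4 * n * M)| ≤ 4 * M with hT
  have hcover : S ⊆ (Icc 1 m).biUnion T := by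
    intro w hw
    obtain ⟨hwX, u, hu, hu1, J, M, hM, hJ, heq⟩ := hS w hw
    obtain ⟨k, hk⟩ : ∃ k : ℕ, M = k := ⟨M.toNat, (Int.toNat_of_nonneg (by omega)).symm⟩
    rw [hk] at hM hJ heq
    obtain ⟨x, rfl⟩ : ∃ x, u = x + 1 := ⟨u - 1, by omega⟩
    have habs := abs_le.1 hJ
    rw [mem_biUnion]
    refine ⟨k, ?_, ?_⟩
    · rw [mem_Icc]
      refine ⟨by exact_mod_cast hM, ?_⟩
      rw [hm, Nat.le_div_iff_mul_le (by positivity)]
      -- k * n^2 ≤ 2 X
      have h1 : 2 * (n : ℤ) * k ≤ (x : ℤ) * a := by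
        have h2 : ((x + 1 : ℕ) : ℤ) - 1 = x := by push_cast; ring
        rw [h2] at heq
        rw [heq]
        have h3 : (2 : ℤ) ≤ n := by exact_mod_cast hn
        have h4 : (0 : ℤ) ≤ k := by positivity
        nlinarith [habs.1, habs.2]
      have h1' : 2 * n * k ≤ x * a := by exact_mod_cast h1
      have h2 : x * (a * n) ≤ 4 * X := by
        have h3 : x * (a * n) ≤ (x + 1) * (a * n + 1) := Nat.mul_le_mul (by omega) (by omega)
        omega
      have h3 : 2 * n * k * n ≤ x * a * n := Nat.mul_le_mul h1' le_rfl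
      have h4 : 2 * (k * n ^ 2) = 2 * n * k * n := by ring
      have h5 : x * a * n = x * (a * n) := by ring
      omega
    · rw [hT]
      simp only [mem_filter]
      refine ⟨hw, x + 1, hu, ?_⟩
      have h2 : ((x + 1 : ℕ) : ℤ) - 1 = x := by push_cast; ring
      rw [h2] at heq
      have h3 : (a : ℝ) * ((x + 1 : ℕ) : ℝ) - ((a : ℝ) + 4 * n * k) = ((4 * J : ℤ) : ℝ) := by
        have h4 : (x : ℝ) * a = 4 * (n * k + J) := by exact_mod_cast heq
        push_cast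
        linarith
      rw [h3, ← Int.cast_abs, abs_mul]
      have h5 : |(4 : ℤ)| * |J| ≤ 4 * k := by
        rw [abs_of_pos (by norm_num : (0 : ℤ) < 4)]
        omega
      exact_mod_cast h5
  have hTc : ∀ M ∈ Icc 1 m, ((T M).card : ℝ) ≤ 8 * m / a + 1 := by
    intro M hM
    rw [mem_Icc] at hM
    have hinj : Set.InjOn (fun w : ℕ => (4 * w - 1) / (a * n + 1)) (T M : Set ℕ) := by
      intro x hx y hy hxy
      rw [hT] at hx hy
      simp only [coe_filter, Set.mem_ofPred_eq] at hx hy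
      obtain ⟨-, u, hu, -⟩ := hx
      obtain ⟨-, u', hu', -⟩ := hy
      have h1 : 4 * x - 1 = u * (a * n + 1) := by omega
      have h2 : 4 * y - 1 = u' * (a * n + 1) := by omega
      have h3 : (4 * x - 1) / (a * n + 1) = (4 * y - 1) / (a * n + 1) := hxy
      rw [h1, h2, Nat.mul_div_cancel _ (by omega), Nat.mul_div_cancel _ (by omega)] at h3
      rw [h3] at hu
      omega
    rw [← card_image_of_injOn hinj]
    have h1 := card_interval ha ((a : ℝ) + 4 * n * M) (4 * M) (by positivity)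
      ((T M).image fun w : ℕ => (4 * w - 1) / (a * n + 1)) (by
        intro j hj
        obtain ⟨w, hw, rfl⟩ := mem_image.1 hj
        rw [hT] at hw
        simp only [mem_filter] at hw
        obtain ⟨-, u, hu, hu'⟩ := hw
        have h1 : 4 * w - 1 = u * (a * n + 1) := by omega
        simp only [h1]
        rw [Nat.mul_div_cancel _ (by omega)]
        exact hu')
    refine h1.trans ?_
    have ha0 : (0 : ℝ) < a := by exact_mod_cast ha
    have hMm : (M : ℝ) ≤ m := by exact_mod_cast hM.2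
    have h2 : 2 * (4 * (M : ℝ)) / a ≤ 8 * m / a := by
      apply div_le_div_of_nonneg_right _ ha0.le
      linarith
    linarith
  have h1 : (S.card : ℝ) ≤ ∑ M ∈ Icc 1 m, ((T M).card : ℝ) := by
    have := (card_le_card hcover).trans card_biUnion_le
    exact_mod_cast this
  have h2 : ∑ M ∈ Icc 1 m, ((T M).card : ℝ) ≤ m * (8 * m / a + 1) := by
    refine (sum_le_card_nsmul _ _ _ hTc).trans ?_
    rw [Nat.card_Icc, Nat.add_sub_cancel, nsmul_eq_mul]
  have ha0 : (0 : ℝ) < a := by exact_mod_cast ha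
  have hn0 : (0 : ℝ) < n := by exact_mod_cast (by omega : 0 < n)
  have hmle : (m : ℝ) ≤ 2 * X / n ^ 2 := by
    have : ((2 * X / n ^ 2 : ℕ) : ℝ) ≤ ((2 * X : ℕ) : ℝ) / ((n ^ 2 : ℕ) : ℝ) := Nat.cast_div_le
    push_cast at this
    exact this
  have hm0 : (0 : ℝ) ≤ m := by positivity
  calc (S.card : ℝ) ≤ m * (8 * m / a + 1) := h1.trans h2
    _ ≤ (2 * X / n ^ 2) * (8 * (2 * X / n ^ 2) / a + 1) := by
        refine mul_le_mul hmle ?_ (by positivity) (by positivity)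
        have : 8 * (m : ℝ) / a ≤ 8 * (2 * X / n ^ 2) / a :=
          div_le_div_of_nonneg_right (by linarith) ha0.le
        linarith
    _ = _ := by
        field_simp
        ring

/-- the count for one prime -/
theorem per_pair {X a n : ℕ} (ha : 0 < a) (hn : n.Prime) (hn2 : n ≠ 2)
    (hq : (a * n + 1).Prime) (S : Finset ℕ) (hS : ∀ w ∈ S, w ≤ X ∧ Hit a n w) :
    (S.card : ℝ) ≤ (10 + 5 * (1 + Real.log ((4 * X : ℕ) : ℝ))) * X * (1 / (a : ℝ)) * (1 / (n : ℝ) ^ 2)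
      + (32 * (X : ℝ) ^ 2 * (1 / (a : ℝ)) * (1 / (n : ℝ) ^ 4) + 2 * X * (1 / (n : ℝ) ^ 2))
      + ∑ d ∈ (Icc 2 (Nat.sqrt (4 * X))).filter (fun d => a * n + 1 ∣ d ^ a - 1),
        (4 * X / ((d : ℝ) * (a * n)) + 1) := by
  classical
  set q := a * n + 1 with hqdef
  have hq0 : 0 < q := by omega
  have ha0 : (0 : ℝ) < a := by exact_mod_cast ha
  have hn0 : (0 : ℝ) < n := by exact_mod_cast hn.pos
  have hX0 : (0 : ℝ) ≤ X := by positivity
  have ha1 : (1 : ℝ) ≤ a := by exact_mod_cast ha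
  have hn1 : (1 : ℝ) ≤ n := by exact_mod_cast hn.one_le
  have hqan : (a : ℝ) * n ≤ q := by
    rw [hqdef]
    push_cast
    linarith
  set S1 := S.filter fun w => q * q ∣ 4 * w - 1 with hS1
  set S2 := S.filter fun w => q * n ∣ 4 * w - 1 with hS2
  set S3 := (Icc 1 (4 * X)).biUnion fun k => S.filter fun w => q * (n * k + 1) ∣ 4 * w - 1 with hS3
  set R := (Icc 2 (Nat.sqrt (4 * X))).filter (fun d => q ∣ d ^ a - 1) with hR
  set S4 := R.biUnion fun d => S.filter fun w => d ∣ 4 * w with hS4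
  set S5 := S.filter fun w => ∃ u : ℕ, u * q + 1 = 4 * w ∧ 1 < u ∧ ∃ J M : ℤ, 1 ≤ M ∧ |J| ≤ M ∧
      ((u : ℤ) - 1) * a = 4 * (n * M + J) with hS5
  have hcover : S ⊆ S1 ∪ (S2 ∪ (S3 ∪ (S4 ∪ S5))) := by
    intro w hw
    obtain ⟨hwX, hh⟩ := hS w hw
    rcases alternatives hn hn2 hq hwX hh with h | h | ⟨k, hk, h⟩ | ⟨d, hd2, hdd, hdw, hda⟩ | h
    · exact mem_union_left _ (mem_filter.2 ⟨hw, h⟩)
    · exact mem_union_right _ (mem_union_left _ (mem_filter.2 ⟨hw, h⟩))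
    · refine mem_union_right _ (mem_union_right _ (mem_union_left _ ?_))
      exact mem_biUnion.2 ⟨k, hk, mem_filter.2 ⟨hw, h⟩⟩
    · refine mem_union_right _ (mem_union_right _ (mem_union_right _ (mem_union_left _ ?_)))
      refine mem_biUnion.2 ⟨d, mem_filter.2 ⟨mem_Icc.2 ⟨hd2, Nat.le_sqrt.2 hdd⟩, hda⟩,
        mem_filter.2 ⟨hw, hdw⟩⟩
    · refine mem_union_right _ (mem_union_right _ (mem_union_right _ (mem_union_right _ ?_)))
      exact mem_filter.2 ⟨hw, h⟩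
  have hcard : S.card ≤ S1.card + (S2.card + (S3.card + (S4.card + S5.card))) := by
    refine (card_le_card hcover).trans ((card_union_le _ _).trans ?_)
    refine Nat.add_le_add_left ((card_union_le _ _).trans ?_) _
    refine Nat.add_le_add_left ((card_union_le _ _).trans ?_) _
    exact Nat.add_le_add_left (card_union_le _ _) _
  have hcard' : (S.card : ℝ) ≤ S1.card + (S2.card + (S3.card + (S4.card + S5.card))) := by
    exact_mod_cast hcard
  have key : ∀ E : ℝ, 0 < E → (a : ℝ) * n ^ 2 ≤ E →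
      5 * (X : ℝ) / E ≤ 5 * X * (1 / (a : ℝ)) * (1 / (n : ℝ) ^ 2) := by
    intro E hE hle
    have h1 : 5 * (X : ℝ) / E ≤ 5 * X / (a * n ^ 2) :=
      div_le_div_of_nonneg_left (by positivity) (by positivity) hle
    refine h1.trans (le_of_eq ?_)
    field_simp
  have h1 : (S1.card : ℝ) ≤ 5 * X * (1 / (a : ℝ)) * (1 / (n : ℝ) ^ 2) := by
    have h2 := ap4 (X := X) (E := q * q) (Nat.mul_pos hq0 hq0) S1 (fun w hw => by
      rw [hS1, mem_filter] at hw
      exact ⟨(hS w hw.1).2.1, (hS w hw.1).1, hw.2⟩)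
    refine h2.trans (key _ (by exact_mod_cast Nat.mul_pos hq0 hq0) ?_)
    push_cast
    have h3 : (a : ℝ) * (n : ℝ) ^ 2 ≤ (a : ℝ) * ((a : ℝ) * (n : ℝ) ^ 2) := by
      refine mul_le_mul_of_nonneg_left ?_ ha0.le
      nlinarith [sq_nonneg (n : ℝ)]
    have h4 : (a : ℝ) * ((a : ℝ) * (n : ℝ) ^ 2) = ((a : ℝ) * n) * ((a : ℝ) * n) := by ring
    have h5 : ((a : ℝ) * n) * ((a : ℝ) * n) ≤ (q : ℝ) * q :=
      mul_le_mul hqan hqan (by positivity) (by positivity)
    linarith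
  have h2 : (S2.card : ℝ) ≤ 5 * X * (1 / (a : ℝ)) * (1 / (n : ℝ) ^ 2) := by
    have h2 := ap4 (X := X) (E := q * n) (Nat.mul_pos hq0 hn.pos) S2 (fun w hw => by
      rw [hS2, mem_filter] at hw
      exact ⟨(hS w hw.1).2.1, (hS w hw.1).1, hw.2⟩)
    refine h2.trans (key _ (by exact_mod_cast Nat.mul_pos hq0 hn.pos) ?_)
    push_cast
    calc (a : ℝ) * n ^ 2 = (a * n) * n := by ring
      _ ≤ (q : ℝ) * n := mul_le_mul_of_nonneg_right hqan hn0.le
  have h3 : (S3.card : ℝ) ≤ 5 * (1 + Real.log ((4 * X : ℕ) : ℝ)) * X * (1 / (a : ℝ)) *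
      (1 / (n : ℝ) ^ 2) := by
    have h4 : (S3.card : ℝ) ≤ ∑ k ∈ Icc 1 (4 * X),
        ((S.filter fun w => q * (n * k + 1) ∣ 4 * w - 1).card : ℝ) := by
      rw [hS3]
      exact_mod_cast card_biUnion_le
    refine h4.trans ?_
    have h5 : ∀ k ∈ Icc 1 (4 * X), ((S.filter fun w => q * (n * k + 1) ∣ 4 * w - 1).card : ℝ) ≤
        5 * X * (1 / (a : ℝ)) * (1 / (n : ℝ) ^ 2) * (1 / k) := by
      intro k hk
      rw [mem_Icc] at hk
      have hk0 : (0 : ℝ) < k := by exact_mod_cast hk.1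
      have h6 := ap4 (X := X) (E := q * (n * k + 1)) (Nat.mul_pos hq0 (by omega))
        (S.filter fun w => q * (n * k + 1) ∣ 4 * w - 1) (fun w hw => by
          rw [mem_filter] at hw
          exact ⟨(hS w hw.1).2.1, (hS w hw.1).1, hw.2⟩)
      refine h6.trans ?_
      have h7 : (a : ℝ) * n ^ 2 * k ≤ ((q * (n * k + 1) : ℕ) : ℝ) := by
        push_cast
        calc (a : ℝ) * n ^ 2 * k = (a * n) * (n * k) := by ring
          _ ≤ (q : ℝ) * (n * k + 1) :=
              mul_le_mul hqan (by linarith) (by positivity) (by positivity)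
      calc 5 * (X : ℝ) / ((q * (n * k + 1) : ℕ) : ℝ) ≤ 5 * X / (a * n ^ 2 * k) :=
            div_le_div_of_nonneg_left (by positivity) (by positivity) h7
        _ = _ := by field_simp
    refine (sum_le_sum h5).trans ?_
    rw [← mul_sum]
    have h8 := sum_harm (4 * X)
    have h9 : (0 : ℝ) ≤ 5 * X * (1 / (a : ℝ)) * (1 / (n : ℝ) ^ 2) := by positivity
    calc 5 * (X : ℝ) * (1 / (a : ℝ)) * (1 / (n : ℝ) ^ 2) * ∑ i ∈ Icc 1 (4 * X), 1 / (i : ℝ)
        ≤ 5 * (X : ℝ) * (1 / (a : ℝ)) * (1 / (n : ℝ) ^ 2) * (1 + Real.log ((4 * X : ℕ) : ℝ)) :=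
          mul_le_mul_of_nonneg_left h8 h9
      _ = _ := by ring
  have h4 : (S4.card : ℝ) ≤ ∑ d ∈ R, (4 * X / ((d : ℝ) * (a * n)) + 1) := by
    have h5 : (S4.card : ℝ) ≤ ∑ d ∈ R, ((S.filter fun w => d ∣ 4 * w).card : ℝ) := by
      rw [hS4]
      exact_mod_cast card_biUnion_le
    refine h5.trans (sum_le_sum fun d hd => ?_)
    rw [hR, mem_filter, mem_Icc] at hd
    have hd0 : (0 : ℝ) < d := by exact_mod_cast (by omega : 0 < d)
    have h6 := ap_dq (X := X) (d := d) (q := q) (by omega) hq0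
      (S.filter fun w => d ∣ 4 * w) (fun w hw => by
        rw [mem_filter] at hw
        exact ⟨(hS w hw.1).2.1, (hS w hw.1).1, hw.2, (hS w hw.1).2.2.1⟩)
    refine h6.trans (add_le_add_left ?_ 1)
    refine div_le_div_of_nonneg_left (by positivity) (by positivity) ?_
    exact mul_le_mul_of_nonneg_left hqan hd0.le
  have h5 : (S5.card : ℝ) ≤ 32 * (X : ℝ) ^ 2 * (1 / (a : ℝ)) * (1 / (n : ℝ) ^ 4) +
      2 * X * (1 / (n : ℝ) ^ 2) := by
    have h6 := norm_count (X := X) ha hn.two_le S5 (fun w hw => by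
      rw [hS5, mem_filter] at hw
      exact ⟨(hS w hw.1).1, hw.2⟩)
    refine h6.trans (le_of_eq ?_)
    field_simp
  have h6 : (10 + 5 * (1 + Real.log ((4 * X : ℕ) : ℝ))) * X * (1 / (a : ℝ)) * (1 / (n : ℝ) ^ 2) =
      5 * X * (1 / (a : ℝ)) * (1 / (n : ℝ) ^ 2) + (5 * X * (1 / (a : ℝ)) * (1 / (n : ℝ) ^ 2) +
      5 * (1 + Real.log ((4 * X : ℕ) : ℝ)) * X * (1 / (a : ℝ)) * (1 / (n : ℝ) ^ 2)) := by ring
  rw [h6]
  linarith

end Pool.Agent.H12.HD
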