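import Pool.Agent.H12.HD.U2

/-!
# A power saving over all `w` (MP_76589c_co)
-/

set_option autoImplicit false

namespace Pool.Agent.H12.HD

open Finset

/-- sums over pairs `(a, n)` and small `d` with `a n + 1 ∣ d ^ a - 1` -/
theorem dsum {z n0 N D : ℕ} (P : Finset (ℕ × ℕ))
    (hP : ∀ p ∈ P, (1 ≤ p.1 ∧ p.1 ≤ z) ∧ (n0 ≤ p.2 ∧ p.2 ≤ N) ∧ (p.1 * p.2 + 1).Prime)
    (g : ℕ → ℕ → ℝ) (hg : ∀ d a, 0 ≤ g d a) :
    ∑ p ∈ P, ∑ d ∈ (Icc 2 D).filter (fun d => p.1 * p.2 + 1 ∣ d ^ p.1 - 1), g d p.1 ≤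
      ∑ d ∈ Icc 2 D, ∑ a ∈ Icc 1 z, ((a : ℝ) * ((Nat.log 2 D : ℕ) + 1)) * g d a := by
  classical
  have h1 : ∑ p ∈ P, ∑ d ∈ (Icc 2 D).filter (fun d => p.1 * p.2 + 1 ∣ d ^ p.1 - 1), g d p.1 =
      ∑ d ∈ Icc 2 D, ∑ p ∈ P.filter (fun p => p.1 * p.2 + 1 ∣ d ^ p.1 - 1), g d p.1 := by
    simp_rw [sum_filter]
    exact sum_comm
  rw [h1]
  refine sum_le_sum fun d hd => ?_
  rw [mem_Icc] at hd
  have hmaps : ∀ p ∈ P.filter (fun p => p.1 * p.2 + 1 ∣ d ^ p.1 - 1), p.1 ∈ Icc 1 z := by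
    intro p hp
    rw [mem_filter] at hp
    exact mem_Icc.2 (hP p hp.1).1
  rw [← sum_fiberwise_of_maps_to hmaps]
  refine sum_le_sum fun a ha => ?_
  rw [mem_Icc] at ha
  set F := (P.filter (fun p => p.1 * p.2 + 1 ∣ d ^ p.1 - 1)).filter (fun p => p.1 = a) with hF
  have h2 : ∑ p ∈ F, g d p.1 = F.card * g d a := by
    rw [sum_congr rfl (g := fun _ => g d a), sum_const, nsmul_eq_mul]
    intro p hp
    rw [hF, mem_filter] at hp
    rw [hp.2]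
  rw [h2]
  refine mul_le_mul_of_nonneg_right ?_ (hg d a)
  have h3 : F.card ≤ (d ^ a - 1).primeFactors.card := by
    have hinj : Set.InjOn (fun p : ℕ × ℕ => p.1 * p.2 + 1) (F : Set (ℕ × ℕ)) := by
      intro x hx y hy hxy
      rw [hF] at hx hy
      simp only [coe_filter, Set.mem_ofPred_eq] at hx hy
      obtain ⟨-, hx⟩ := hx
      obtain ⟨-, hy⟩ := hy
      have h4 : x.1 * x.2 + 1 = y.1 * y.2 + 1 := hxy
      rw [hx, hy] at h4
      have h5 : x.2 = y.2 := Nat.eq_of_mul_eq_mul_left ha.1 (by omega)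
      exact Prod.ext (hx.trans hy.symm) h5
    rw [← card_image_of_injOn hinj]
    refine card_le_card fun x hx => ?_
    obtain ⟨p, hp, rfl⟩ := mem_image.1 hx
    rw [hF, mem_filter, mem_filter] at hp
    obtain ⟨⟨hpP, hdvd⟩, hpa⟩ := hp
    rw [Nat.mem_primeFactors]
    refine ⟨(hP p hpP).2.2, by rw [← hpa]; exact hdvd, ?_⟩
    have : 1 < d ^ a := Nat.one_lt_pow (by omega) (by omega)
    omega
  have h4 : F.card ≤ a * (Nat.log 2 D + 1) := by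
    refine h3.trans ((card_pf_log (by omega) ha.1).trans ?_)
    exact Nat.mul_le_mul le_rfl (Nat.add_le_add_right (Nat.log_mono_right hd.2) 1)
  exact_mod_cast h4

theorem sum_prod {P : Finset (ℕ × ℕ)} {z n0 N : ℕ} (hP : P ⊆ Icc 1 z ×ˢ Icc n0 N)
    (f g : ℕ → ℝ) (hf : ∀ a, 0 ≤ f a) (hg : ∀ a, 0 ≤ g a) :
    ∑ p ∈ P, f p.1 * g p.2 ≤ (∑ a ∈ Icc 1 z, f a) * ∑ n ∈ Icc n0 N, g n := by
  rw [sum_mul_sum, ← sum_product']
  exact sum_le_sum_of_subset_of_nonneg hP fun p _ _ => mul_nonneg (hf _) (hg _)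

/-- the count before the numerical estimates -/
theorem raw_count {X z zB n0 : ℕ} {E L D : ℝ} (hn0 : 0 < n0) (hX : 0 < X) (hz : z ≤ 4 * X)
    (hE0 : 0 ≤ E) (hL : L = 1 + Real.log ((4 * X : ℕ) : ℝ))
    (hD : D = ((Nat.sqrt (4 * X) : ℕ) : ℝ)) (S : Finset ℕ)
    (hS : ∀ w ∈ S, w ≤ X ∧ ∃ a n : ℕ, 0 < a ∧ a ≤ z ∧ n.Prime ∧ n ≠ 2 ∧ n0 ≤ n ∧
      (a * n + 1).Prime ∧ Hit a n w ∧ ((a : ℝ) * (a * n + 1) ≤ E ∨ a ≤ zB)) :
    (S.card : ℝ) ≤
      (10 + 5 * L) * X * (L * (2 / n0)) + 32 * (X : ℝ) ^ 2 * (1 / (n0 : ℝ) ^ 2) * (L * (2 / n0))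
        + 2 * X * (z * (2 / n0)) + (2 * L) * (4 * X / n0) * (z * L)
        + (D * (z * L) + E * (L * L)) + (2 * L) * (D * (zB * zB)) := by
  classical
  set N := 4 * X with hN
  have hn00 : (0 : ℝ) < n0 := by exact_mod_cast hn0
  have hX0 : (0 : ℝ) < X := by exact_mod_cast hX
  have hN1 : (1 : ℝ) ≤ (N : ℝ) := by exact_mod_cast (by omega : 1 ≤ N)
  have hL1 : 1 ≤ L := by
    have := Real.log_nonneg hN1
    rw [hL]
    linarith
  have hL0 : 0 < L := by linarith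
  have hD0 : 0 ≤ D := by rw [hD]; positivity
  set P : Finset (ℕ × ℕ) := (Icc 1 z ×ˢ Icc n0 N).filter fun p =>
    p.2.Prime ∧ p.2 ≠ 2 ∧ (p.1 * p.2 + 1).Prime ∧
      ((p.1 : ℝ) * (p.1 * p.2 + 1) ≤ E ∨ p.1 ≤ zB) with hP
  have hPsub : P ⊆ Icc 1 z ×ˢ Icc n0 N := filter_subset _ _
  have hPm : ∀ p ∈ P, (1 ≤ p.1 ∧ p.1 ≤ z) ∧ (n0 ≤ p.2 ∧ p.2 ≤ N) ∧ (p.1 * p.2 + 1).Prime := by
    intro p hp
    rw [hP, mem_filter, mem_product, mem_Icc, mem_Icc] at hp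
    exact ⟨hp.1.1, hp.1.2, hp.2.2.2.1⟩
  have hcover : S ⊆ P.biUnion fun p => S.filter fun w => Hit p.1 p.2 w := by
    intro w hw
    obtain ⟨hwX, a, n, ha, haz, hn, hn2, hnn, hq, hh, hE⟩ := hS w hw
    rw [mem_biUnion]
    refine ⟨(a, n), ?_, mem_filter.2 ⟨hw, hh⟩⟩
    rw [hP, mem_filter, mem_product, mem_Icc, mem_Icc]
    refine ⟨⟨⟨ha, haz⟩, ⟨hnn, ?_⟩⟩, hn, hn2, hq, hE⟩
    have h1 := hh.1
    have h2 := Nat.le_of_dvd (by omega) hh.2.1
    have h3 : 1 * n ≤ a * n := Nat.mul_le_mul ha le_rfl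
    omega
  have h1 : (S.card : ℝ) ≤ ∑ p ∈ P, ((S.filter fun w => Hit p.1 p.2 w).card : ℝ) := by
    have := (card_le_card hcover).trans card_biUnion_le
    exact_mod_cast this
  set R : ℕ × ℕ → Finset ℕ := fun p =>
    (Icc 2 (Nat.sqrt N)).filter (fun d => p.1 * p.2 + 1 ∣ d ^ p.1 - 1) with hR
  have h2 : ∀ p ∈ P, ((S.filter fun w => Hit p.1 p.2 w).card : ℝ) ≤
      (10 + 5 * L) * X * ((1 / (p.1 : ℝ)) * (1 / (p.2 : ℝ) ^ 2)) +
      32 * (X : ℝ) ^ 2 * (1 / (n0 : ℝ) ^ 2) * ((1 / (p.1 : ℝ)) * (1 / (p.2 : ℝ) ^ 2)) +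
      2 * X * ((1 : ℝ) * (1 / (p.2 : ℝ) ^ 2)) +
      (∑ d ∈ R p, 4 * X / ((d : ℝ) * p.1 * n0) + ((R p).card : ℝ)) := by
    intro p hp
    have hp' := hp
    rw [hP, mem_filter, mem_product, mem_Icc, mem_Icc] at hp'
    obtain ⟨⟨⟨ha1, ha2⟩, ⟨hn1, hn2'⟩⟩, hn, hn2, hq, hE⟩ := hp'
    have h3 := per_pair (X := X) ha1 hn hn2 hq (S.filter fun w => Hit p.1 p.2 w) (fun w hw => by
      rw [mem_filter] at hw
      exact ⟨(hS w hw.1).1, hw.2⟩)
    refine h3.trans ?_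
    have ha0 : (0 : ℝ) < p.1 := by exact_mod_cast ha1
    have hnn0 : (0 : ℝ) < p.2 := by exact_mod_cast hn.pos
    have hnle : (n0 : ℝ) ≤ p.2 := by exact_mod_cast hn1
    have h4 : 32 * (X : ℝ) ^ 2 * (1 / (p.1 : ℝ)) * (1 / (p.2 : ℝ) ^ 4) ≤
        32 * (X : ℝ) ^ 2 * (1 / (n0 : ℝ) ^ 2) * ((1 / (p.1 : ℝ)) * (1 / (p.2 : ℝ) ^ 2)) := by
      have h5 : (1 : ℝ) / (p.2 : ℝ) ^ 2 ≤ 1 / (n0 : ℝ) ^ 2 :=
        one_div_le_one_div_of_le (by positivity) (pow_le_pow_left₀ hn00.le hnle 2)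
      have h6 : (1 : ℝ) / (p.2 : ℝ) ^ 4 = 1 / (p.2 : ℝ) ^ 2 * (1 / (p.2 : ℝ) ^ 2) := by
        field_simp
      rw [h6]
      calc 32 * (X : ℝ) ^ 2 * (1 / (p.1 : ℝ)) * (1 / (p.2 : ℝ) ^ 2 * (1 / (p.2 : ℝ) ^ 2))
          = (32 * (X : ℝ) ^ 2 * ((1 / (p.1 : ℝ)) * (1 / (p.2 : ℝ) ^ 2))) * (1 / (p.2 : ℝ) ^ 2) := by
            ring
        _ ≤ (32 * (X : ℝ) ^ 2 * ((1 / (p.1 : ℝ)) * (1 / (p.2 : ℝ) ^ 2))) * (1 / (n0 : ℝ) ^ 2) :=
            mul_le_mul_of_nonneg_left h5 (by positivity)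
        _ = _ := by ring
    have h7 : ∑ d ∈ R p, (4 * X / ((d : ℝ) * (p.1 * p.2)) + 1) ≤
        ∑ d ∈ R p, 4 * X / ((d : ℝ) * p.1 * n0) + ((R p).card : ℝ) := by
      rw [sum_add_distrib, sum_const, nsmul_eq_mul, mul_one]
      refine add_le_add_left (sum_le_sum fun d hd => ?_) _
      rw [hR, mem_filter, mem_Icc] at hd
      have hd0 : (0 : ℝ) < d := by exact_mod_cast (by omega : 0 < d)
      refine div_le_div_of_nonneg_left (by positivity) (by positivity) ?_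
      rw [mul_assoc]
      exact mul_le_mul_of_nonneg_left (mul_le_mul_of_nonneg_left hnle ha0.le) hd0.le
    have h8 : (10 + 5 * (1 + Real.log ((4 * X : ℕ) : ℝ))) * X * (1 / (p.1 : ℝ)) *
        (1 / (p.2 : ℝ) ^ 2) = (10 + 5 * L) * X * ((1 / (p.1 : ℝ)) * (1 / (p.2 : ℝ) ^ 2)) := by
      rw [hL, hN]
      ring
    rw [h8]
    have h9 : 2 * (X : ℝ) * (1 / (p.2 : ℝ) ^ 2) = 2 * X * ((1 : ℝ) * (1 / (p.2 : ℝ) ^ 2)) := by ring
    rw [h9]
    have h10 : ∑ d ∈ (Icc 2 (Nat.sqrt (4 * X))).filter (fun d => p.1 * p.2 + 1 ∣ d ^ p.1 - 1),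
        (4 * X / ((d : ℝ) * (p.1 * p.2)) + 1) = ∑ d ∈ R p, (4 * X / ((d : ℝ) * (p.1 * p.2)) + 1) :=
      rfl
    rw [h10]
    linarith
  have h3 : (S.card : ℝ) ≤
      (10 + 5 * L) * X * ∑ p ∈ P, ((1 / (p.1 : ℝ)) * (1 / (p.2 : ℝ) ^ 2)) +
      32 * (X : ℝ) ^ 2 * (1 / (n0 : ℝ) ^ 2) * ∑ p ∈ P, ((1 / (p.1 : ℝ)) * (1 / (p.2 : ℝ) ^ 2)) +
      2 * X * ∑ p ∈ P, ((1 : ℝ) * (1 / (p.2 : ℝ) ^ 2)) +
      (∑ p ∈ P, ∑ d ∈ R p, 4 * X / ((d : ℝ) * p.1 * n0) + ∑ p ∈ P, ((R p).card : ℝ)) := by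
    refine h1.trans ((sum_le_sum h2).trans (le_of_eq ?_))
    rw [sum_add_distrib, sum_add_distrib, sum_add_distrib, sum_add_distrib, mul_sum, mul_sum,
      mul_sum]
  have hharm : ∀ y : ℕ, y ≤ N → ∑ a ∈ Icc 1 y, (1 : ℝ) / a ≤ L := by
    intro y hy
    rw [hL]
    refine le_trans ?_ (sum_harm N)
    exact sum_le_sum_of_subset_of_nonneg (Icc_subset_Icc_right hy) fun i _ _ => by positivity
  have hsq := sum_inv_sq' hn0 N
  have hlg : ((Nat.log 2 (Nat.sqrt N) : ℕ) : ℝ) + 1 ≤ 2 * L := by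
    have hs0 : Nat.sqrt N ≠ 0 := by
      rw [Ne, Nat.sqrt_eq_zero]
      omega
    have hsN : Nat.sqrt N ≤ N := Nat.sqrt_le_self N
    have h3 : (2 : ℝ) ^ (Nat.log 2 (Nat.sqrt N)) ≤ N := by
      exact_mod_cast (Nat.pow_log_le_self 2 hs0).trans hsN
    have h4 : ((Nat.log 2 (Nat.sqrt N) : ℕ) : ℝ) * Real.log 2 ≤ Real.log N := by
      rw [← Real.log_pow]
      exact Real.log_le_log (by positivity) h3
    have h6 : (1 / 2 : ℝ) ≤ Real.log 2 := by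
      have := Real.log_two_gt_d9
      linarith
    have h8 : ((Nat.log 2 (Nat.sqrt N) : ℕ) : ℝ) * (1 / 2) ≤
        ((Nat.log 2 (Nat.sqrt N) : ℕ) : ℝ) * Real.log 2 :=
      mul_le_mul_of_nonneg_left h6 (by positivity)
    rw [hL]
    linarith
  -- the first three sums
  have s1 : ∑ p ∈ P, ((1 / (p.1 : ℝ)) * (1 / (p.2 : ℝ) ^ 2)) ≤ L * (2 / n0) := by
    refine (sum_prod hPsub (fun a => 1 / (a : ℝ)) (fun n => 1 / (n : ℝ) ^ 2)
      (fun a => by positivity) (fun n => by positivity)).trans ?_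
    exact mul_le_mul (hharm z hz) hsq (sum_nonneg fun i _ => by positivity) hL0.le
  have s2 : ∑ p ∈ P, ((1 : ℝ) * (1 / (p.2 : ℝ) ^ 2)) ≤ (z : ℝ) * (2 / n0) := by
    refine (sum_prod hPsub (fun _ : ℕ => (1 : ℝ)) (fun n : ℕ => 1 / (n : ℝ) ^ 2)
      (fun a => zero_le_one) (fun n => by positivity)).trans ?_
    rw [sum_const, Nat.card_Icc, Nat.add_sub_cancel, nsmul_eq_mul, mul_one]
    exact mul_le_mul_of_nonneg_left hsq (by positivity)
  -- the weighted sum over `d`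
  have s3 : ∑ p ∈ P, ∑ d ∈ R p, 4 * X / ((d : ℝ) * p.1 * n0) ≤
      (2 * L) * (4 * X / n0) * (z * L) := by
    have h4 := dsum (D := Nat.sqrt N) P hPm (fun d a => 4 * X / ((d : ℝ) * a * n0))
      (fun d a => by positivity)
    refine h4.trans ?_
    have h5 : ∀ d ∈ Icc 2 (Nat.sqrt N), ∑ a ∈ Icc 1 z,
        ((a : ℝ) * ((Nat.log 2 (Nat.sqrt N) : ℕ) + 1)) * (4 * X / ((d : ℝ) * a * n0)) ≤
        (2 * L) * (4 * X / n0) * z * (1 / d) := by
      intro d hd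
      rw [mem_Icc] at hd
      have hd0 : (0 : ℝ) < d := by exact_mod_cast (by omega : 0 < d)
      have h6 : ∀ a ∈ Icc 1 z,
          ((a : ℝ) * ((Nat.log 2 (Nat.sqrt N) : ℕ) + 1)) * (4 * X / ((d : ℝ) * a * n0)) ≤
          (2 * L) * (4 * X / n0) * (1 / d) := by
        intro a ha
        rw [mem_Icc] at ha
        have ha0 : (0 : ℝ) < a := by exact_mod_cast ha.1
        have h7 : ((a : ℝ) * ((Nat.log 2 (Nat.sqrt N) : ℕ) + 1)) * (4 * X / ((d : ℝ) * a * n0)) =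
            (((Nat.log 2 (Nat.sqrt N) : ℕ) : ℝ) + 1) * ((4 * X / n0) * (1 / d)) := by
          field_simp
        rw [h7, mul_assoc (2 * L)]
        exact mul_le_mul_of_nonneg_right hlg (by positivity)
      refine (sum_le_card_nsmul _ _ _ h6).trans (le_of_eq ?_)
      rw [Nat.card_Icc, Nat.add_sub_cancel, nsmul_eq_mul]
      ring
    refine (sum_le_sum h5).trans ?_
    rw [← mul_sum]
    have h6 : ∑ d ∈ Icc 2 (Nat.sqrt N), (1 : ℝ) / d ≤ L := by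
      refine le_trans ?_ (hharm (Nat.sqrt N) (Nat.sqrt_le_self N))
      exact sum_le_sum_of_subset_of_nonneg (Icc_subset_Icc_left (by norm_num))
        fun i _ _ => by positivity
    calc (2 * L) * (4 * X / n0) * z * ∑ d ∈ Icc 2 (Nat.sqrt N), (1 : ℝ) / d
        ≤ (2 * L) * (4 * X / n0) * z * L := mul_le_mul_of_nonneg_left h6 (by positivity)
      _ = _ := by ring
  -- the number of pairs
  have s4 : ∑ p ∈ P, ((R p).card : ℝ) ≤
      (D * (z * L) + E * (L * L)) + (2 * L) * (D * (zB * zB)) := by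
    have h4 : ∑ p ∈ P, ((R p).card : ℝ) ≤
        ∑ p ∈ P.filter (fun p => (p.1 : ℝ) * (p.1 * p.2 + 1) ≤ E), ((R p).card : ℝ) +
        ∑ p ∈ P.filter (fun p => p.1 ≤ zB), ((R p).card : ℝ) := by
      have h5 : P ⊆ P.filter (fun p => (p.1 : ℝ) * (p.1 * p.2 + 1) ≤ E) ∪
          P.filter (fun p => p.1 ≤ zB) := by
        intro p hp
        have hp' := hp
        rw [hP, mem_filter] at hp'
        rcases hp'.2.2.2.2 with h | h
        · exact mem_union_left _ (mem_filter.2 ⟨hp, h⟩)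
        · exact mem_union_right _ (mem_filter.2 ⟨hp, h⟩)
      refine (sum_le_sum_of_subset_of_nonneg h5 fun i _ _ => by positivity).trans ?_
      rw [← sum_union_inter]
      linarith [sum_nonneg (s := P.filter (fun p => (p.1 : ℝ) * (p.1 * p.2 + 1) ≤ E) ∩
        P.filter (fun p => p.1 ≤ zB)) (f := fun p => ((R p).card : ℝ)) fun i _ => by positivity]
    refine h4.trans (add_le_add ?_ ?_)
    · have h5 : ∀ p ∈ P.filter (fun p => (p.1 : ℝ) * (p.1 * p.2 + 1) ≤ E), ((R p).card : ℝ) ≤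
          D * ((1 : ℝ) * (1 / (p.2 : ℝ))) + E * ((1 / (p.1 : ℝ)) * (1 / (p.2 : ℝ))) := by
        intro p hp
        rw [mem_filter] at hp
        obtain ⟨hpP, hE⟩ := hp
        obtain ⟨ha, hn, hq⟩ := hPm p hpP
        have ha0 : (0 : ℝ) < p.1 := by exact_mod_cast ha.1
        have hn1 : 0 < p.2 := by omega
        have hnn0 : (0 : ℝ) < p.2 := by exact_mod_cast hn1
        have h6 := roots_count (q := p.1 * p.2 + 1) (a := p.1) (D := Nat.sqrt N) hq ha.1 (R p)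
          (fun d hd => by
            rw [hR, mem_filter, mem_Icc] at hd
            refine ⟨hd.1.2, ?_⟩
            have h7 : 1 ≤ d ^ p.1 := Nat.one_le_pow _ _ (by omega)
            have h8 := (ZMod.natCast_eq_zero_iff _ _).2 hd.2
            rw [Nat.cast_sub h7] at h8
            push_cast at h8
            exact sub_eq_zero.1 h8)
        have h7 : ((R p).card : ℝ) ≤ p.1 * (((Nat.sqrt N / (p.1 * p.2 + 1) : ℕ) : ℝ) + 1) := by
          exact_mod_cast h6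
        have h8 : ((Nat.sqrt N / (p.1 * p.2 + 1) : ℕ) : ℝ) ≤ D / (p.1 * p.2) := by
          have h9 : ((Nat.sqrt N / (p.1 * p.2 + 1) : ℕ) : ℝ) ≤
              ((Nat.sqrt N : ℕ) : ℝ) / ((p.1 * p.2 + 1 : ℕ) : ℝ) := Nat.cast_div_le
          refine h9.trans ?_
          rw [hD]
          refine div_le_div_of_nonneg_left (by positivity) (by positivity) ?_
          push_cast
          linarith
        have h9 : (p.1 : ℝ) * (D / (p.1 * p.2)) = D * ((1 : ℝ) * (1 / (p.2 : ℝ))) := by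
          field_simp
        have h10 : (p.1 : ℝ) ≤ E * ((1 / (p.1 : ℝ)) * (1 / (p.2 : ℝ))) := by
          have h11 : (p.1 : ℝ) * (p.1 * p.2) ≤ E := by
            refine le_trans ?_ hE
            exact mul_le_mul_of_nonneg_left (by linarith) ha0.le
          have h12 : E * ((1 / (p.1 : ℝ)) * (1 / (p.2 : ℝ))) = E / (p.1 * p.2) := by field_simp
          rw [h12, le_div_iff₀ (by positivity)]
          exact h11
        calc ((R p).card : ℝ) ≤ p.1 * (((Nat.sqrt N / (p.1 * p.2 + 1) : ℕ) : ℝ) + 1) := h7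
          _ ≤ p.1 * (D / (p.1 * p.2) + 1) :=
              mul_le_mul_of_nonneg_left (by linarith) ha0.le
          _ = p.1 * (D / (p.1 * p.2)) + p.1 := by ring
          _ ≤ _ := by rw [h9]; linarith
      refine (sum_le_sum h5).trans ?_
      have hsplit : ∑ p ∈ P.filter (fun p => (p.1 : ℝ) * (p.1 * p.2 + 1) ≤ E),
          (D * ((1 : ℝ) * (1 / (p.2 : ℝ))) + E * ((1 / (p.1 : ℝ)) * (1 / (p.2 : ℝ)))) =
          D * ∑ p ∈ P.filter (fun p => (p.1 : ℝ) * (p.1 * p.2 + 1) ≤ E),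
            ((1 : ℝ) * (1 / (p.2 : ℝ))) +
          E * ∑ p ∈ P.filter (fun p => (p.1 : ℝ) * (p.1 * p.2 + 1) ≤ E),
            ((1 / (p.1 : ℝ)) * (1 / (p.2 : ℝ))) := by
        rw [sum_add_distrib, mul_sum, mul_sum]
      rw [hsplit]
      have hsub : P.filter (fun p => (p.1 : ℝ) * (p.1 * p.2 + 1) ≤ E) ⊆ Icc 1 z ×ˢ Icc n0 N :=
        (filter_subset _ _).trans hPsub
      have hnL : ∑ n ∈ Icc n0 N, (1 : ℝ) / n ≤ L := by
        refine le_trans ?_ (hharm N le_rfl)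
        exact sum_le_sum_of_subset_of_nonneg (Icc_subset_Icc_left hn0)
          fun i _ _ => by positivity
      have h6 := sum_prod hsub (fun _ : ℕ => (1 : ℝ)) (fun n : ℕ => 1 / (n : ℝ))
        (fun a => zero_le_one) (fun n => by positivity)
      have h7 := sum_prod hsub (fun a : ℕ => 1 / (a : ℝ)) (fun n : ℕ => 1 / (n : ℝ))
        (fun a => by positivity) (fun n => by positivity)
      rw [sum_const, Nat.card_Icc, Nat.add_sub_cancel, nsmul_eq_mul, mul_one] at h6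
      have h8 : (z : ℝ) * ∑ n ∈ Icc n0 N, (1 : ℝ) / n ≤ z * L :=
        mul_le_mul_of_nonneg_left hnL (by positivity)
      have h9 : (∑ a ∈ Icc 1 z, (1 : ℝ) / a) * ∑ n ∈ Icc n0 N, (1 : ℝ) / n ≤ L * L :=
        mul_le_mul (hharm z hz) hnL (sum_nonneg fun i _ => by positivity) hL0.le
      exact add_le_add (mul_le_mul_of_nonneg_left (h6.trans h8) hD0)
        (mul_le_mul_of_nonneg_left (h7.trans h9) hE0)
    · have h5 : ∑ p ∈ P.filter (fun p => p.1 ≤ zB), ((R p).card : ℝ) =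
          ∑ p ∈ P.filter (fun p => p.1 ≤ zB), ∑ d ∈ R p, (1 : ℝ) := by
        refine sum_congr rfl fun p _ => ?_
        rw [sum_const, nsmul_eq_mul, mul_one]
      rw [h5]
      refine (dsum (z := zB) (n0 := n0) (N := N) (D := Nat.sqrt N)
        (P.filter (fun p => p.1 ≤ zB)) (fun p hp => ?_) (fun _ _ : ℕ => (1 : ℝ))
        (fun _ _ => zero_le_one)).trans ?_
      · rw [mem_filter] at hp
        exact ⟨⟨(hPm p hp.1).1.1, hp.2⟩, (hPm p hp.1).2⟩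
      · have h6 : ∀ d ∈ Icc 2 (Nat.sqrt N), ∑ a ∈ Icc 1 zB,
            ((a : ℝ) * ((Nat.log 2 (Nat.sqrt N) : ℕ) + 1)) * 1 ≤ zB * (zB * (2 * L)) := by
          intro d _
          refine (sum_le_card_nsmul (Icc 1 zB) _ ((zB : ℝ) * (2 * L)) fun a ha => ?_).trans ?_
          · rw [mem_Icc] at ha
            rw [mul_one]
            have : (a : ℝ) ≤ zB := by exact_mod_cast ha.2
            exact mul_le_mul this hlg (by positivity) (by positivity)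
          · rw [Nat.card_Icc, Nat.add_sub_cancel, nsmul_eq_mul]
        refine (sum_le_card_nsmul _ _ _ h6).trans ?_
        rw [Nat.card_Icc, nsmul_eq_mul]
        have h7 : ((Nat.sqrt N + 1 - 2 : ℕ) : ℝ) ≤ D := by
          rw [hD]
          exact_mod_cast (by omega : Nat.sqrt N + 1 - 2 ≤ Nat.sqrt N)
        calc ((Nat.sqrt N + 1 - 2 : ℕ) : ℝ) * (zB * (zB * (2 * L)))
            ≤ D * (zB * (zB * (2 * L))) := mul_le_mul_of_nonneg_right h7 (by positivity)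
          _ = _ := by ring
  have t1 := mul_le_mul_of_nonneg_left s1 (show 0 ≤ (10 + 5 * L) * (X : ℝ) by positivity)
  have t2 := mul_le_mul_of_nonneg_left s1
    (show 0 ≤ 32 * (X : ℝ) ^ 2 * (1 / (n0 : ℝ) ^ 2) by positivity)
  have t3 := mul_le_mul_of_nonneg_left s2 (show 0 ≤ 2 * (X : ℝ) by positivity)
  linarith

end Pool.Agent.H12.HD
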