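import Pool.Agent.H12.HD.U3

/-!
# A power saving over all `w`: the theorem (MP_76589c_co)
-/

set_option autoImplicit false

namespace Pool.Agent.H12.HD

open Finset

/-- the numerical estimates -/
theorem numeric {x δ n0 z zB D E L : ℝ} (hx : 1 ≤ x) (hδ : 0 < δ) (hn0 : x ^ (1 / 3 + δ) ≤ n0)
    (hz0 : 0 ≤ z) (hz : z ≤ x ^ (1 / 3 - δ)) (hzB0 : 0 ≤ zB) (hzB : zB ≤ x ^ (1 / 4 - δ))
    (hD0 : 0 ≤ D) (hD : D ≤ 2 * x ^ (1 / 2 : ℝ)) (hE : E = x ^ (1 - δ)) (hL : 1 ≤ L) :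
    (10 + 5 * L) * x * (L * (2 / n0)) + 32 * x ^ 2 * (1 / n0 ^ 2) * (L * (2 / n0))
        + 2 * x * (z * (2 / n0)) + (2 * L) * (4 * x / n0) * (z * L)
        + (D * (z * L) + E * (L * L)) + (2 * L) * (D * (zB * zB)) ≤ 113 * L ^ 2 * x ^ (1 - δ) := by
  have hx0 : 0 < x := by linarith
  have hL0 : 0 < L := by linarith
  have hn00 : 0 < n0 := lt_of_lt_of_le (by positivity) hn0
  set y := x ^ (1 - δ) with hy
  have hy0 : 0 < y := by positivity
  have hi : 1 / n0 ≤ x ^ (-(1 / 3 + δ)) := by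
    rw [Real.rpow_neg hx0.le, ← one_div]
    exact one_div_le_one_div_of_le (by positivity) hn0
  have hi0 : 0 < 1 / n0 := by positivity
  have hLL : L ≤ L ^ 2 := by nlinarith
  have h1L : 1 ≤ L ^ 2 := by nlinarith
  -- first
  have a1 : x * (1 / n0) ≤ y := by
    calc x * (1 / n0) ≤ x * x ^ (-(1 / 3 + δ)) := mul_le_mul_of_nonneg_left hi hx0.le
      _ = x ^ (2 / 3 - δ) := by
          nth_rw 1 [← Real.rpow_one x]
          rw [← Real.rpow_add hx0]
          congr 1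
          ring
      _ ≤ y := rpow_mono hx (by linarith)
  have a2 : x ^ 2 * (1 / n0) ^ 3 ≤ y := by
    calc x ^ 2 * (1 / n0) ^ 3 ≤ x ^ 2 * (x ^ (-(1 / 3 + δ))) ^ 3 :=
          mul_le_mul_of_nonneg_left (pow_le_pow_left₀ hi0.le hi 3) (by positivity)
      _ = x ^ (1 - 3 * δ) := by
          rw [← Real.rpow_natCast x 2, ← Real.rpow_natCast (x ^ (-(1 / 3 + δ))) 3,
            ← Real.rpow_mul hx0.le, ← Real.rpow_add hx0]
          congr 1
          push_cast
          ring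
      _ ≤ y := rpow_mono hx (by linarith)
  have a3 : x * (z * (1 / n0)) ≤ y := by
    calc x * (z * (1 / n0)) ≤ x * (x ^ (1 / 3 - δ) * x ^ (-(1 / 3 + δ))) :=
          mul_le_mul_of_nonneg_left (mul_le_mul hz hi hi0.le (by positivity)) hx0.le
      _ = x ^ (1 - 2 * δ) := by
          nth_rw 1 [← Real.rpow_one x]
          rw [← Real.rpow_add hx0, ← Real.rpow_add hx0]
          congr 1
          ring
      _ ≤ y := rpow_mono hx (by linarith)
  have a5 : D * z ≤ 2 * y := by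
    calc D * z ≤ (2 * x ^ (1 / 2 : ℝ)) * x ^ (1 / 3 - δ) := mul_le_mul hD hz hz0 (by positivity)
      _ = 2 * x ^ (5 / 6 - δ) := by
          rw [mul_assoc, ← Real.rpow_add hx0]
          congr 2
          ring
      _ ≤ 2 * y := by
          have := rpow_mono hx (show 5 / 6 - δ ≤ 1 - δ by linarith)
          linarith
  have a6 : D * (zB * zB) ≤ 2 * y := by
    calc D * (zB * zB) ≤ (2 * x ^ (1 / 2 : ℝ)) * (x ^ (1 / 4 - δ) * x ^ (1 / 4 - δ)) :=
          mul_le_mul hD (mul_le_mul hzB hzB hzB0 (by positivity)) (by positivity) (by positivity)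
      _ = 2 * x ^ (1 - 2 * δ) := by
          rw [mul_assoc, ← Real.rpow_add hx0, ← Real.rpow_add hx0]
          congr 2
          ring
      _ ≤ 2 * y := by
          have := rpow_mono hx (show 1 - 2 * δ ≤ 1 - δ by linarith)
          linarith
  have b1 : (10 + 5 * L) * x * (L * (2 / n0)) ≤ 30 * L ^ 2 * y := by
    have e1 : (10 + 5 * L) * x * (L * (2 / n0)) = (2 * (10 + 5 * L) * L) * (x * (1 / n0)) := by
      ring
    rw [e1]
    refine mul_le_mul ?_ a1 (by positivity) (by positivity)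
    nlinarith
  have b2 : 32 * x ^ 2 * (1 / n0 ^ 2) * (L * (2 / n0)) ≤ 64 * L ^ 2 * y := by
    have e1 : 32 * x ^ 2 * (1 / n0 ^ 2) * (L * (2 / n0)) = (64 * L) * (x ^ 2 * (1 / n0) ^ 3) := by
      field_simp
      ring
    rw [e1]
    exact mul_le_mul (by linarith) a2 (by positivity) (by positivity)
  have b3 : 2 * x * (z * (2 / n0)) ≤ 4 * L ^ 2 * y := by
    have e1 : 2 * x * (z * (2 / n0)) = 4 * (x * (z * (1 / n0))) := by ring
    rw [e1]
    exact mul_le_mul (by linarith) a3 (by positivity) (by positivity)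
  have b4 : (2 * L) * (4 * x / n0) * (z * L) ≤ 8 * L ^ 2 * y := by
    have e1 : (2 * L) * (4 * x / n0) * (z * L) = (8 * L ^ 2) * (x * (z * (1 / n0))) := by ring
    rw [e1]
    exact mul_le_mul le_rfl a3 (by positivity) (by positivity)
  have b5 : D * (z * L) + E * (L * L) ≤ 3 * L ^ 2 * y := by
    have e1 : D * (z * L) = L * (D * z) := by ring
    have e2 : L * (D * z) ≤ L ^ 2 * (2 * y) := mul_le_mul hLL a5 (by positivity) (by positivity)
    rw [e1, hE]
    nlinarith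
  have b6 : (2 * L) * (D * (zB * zB)) ≤ 4 * L ^ 2 * y := by
    have e1 : L * (D * (zB * zB)) ≤ L ^ 2 * (2 * y) :=
      mul_le_mul hLL a6 (by positivity) (by positivity)
    linarith
  linarith

/-- **A power saving over all `w`.** -/
theorem theoremU {δ : ℝ} (hδ : 0 < δ) (hδ3 : δ ≤ 1 / 3) :
    ∃ C : ℝ, 0 < C ∧ ∀ X : ℕ, 0 < X → ∀ S : Finset ℕ,
      (∀ w ∈ S, w ≤ X ∧ ∃ a n : ℕ, 0 < a ∧ n.Prime ∧ (a * n + 1).Prime ∧ Hit a n w ∧
        (X : ℝ) ^ (1 / 3 + δ) ≤ n ∧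
        ((a : ℝ) * (a * n + 1) ≤ (X : ℝ) ^ (1 - δ) ∨ (a : ℝ) ≤ (X : ℝ) ^ (1 / 4 - δ))) →
      (S.card : ℝ) ≤ C * (X : ℝ) ^ (1 - δ / 2) := by
  refine ⟨113 * (3 + 4 / δ) ^ 2 + 8, by positivity, ?_⟩
  intro X hX S hS
  have hX1 : (1 : ℝ) ≤ X := by exact_mod_cast hX
  have hX0 : (0 : ℝ) < X := by linarith
  rcases Nat.lt_or_ge X 9 with h9 | h9
  · have h1 : S ⊆ Icc 1 X := by
      intro w hw
      obtain ⟨h1, a, n, -, -, -, h2, -⟩ := hS w hw
      exact mem_Icc.2 ⟨h2.1, h1⟩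
    have h2 := card_le_card h1
    rw [Nat.card_Icc] at h2
    have h3 : (S.card : ℝ) ≤ 8 := by exact_mod_cast (by omega : S.card ≤ 8)
    have h4 : (1 : ℝ) ≤ (X : ℝ) ^ (1 - δ / 2) := Real.one_le_rpow hX1 (by linarith)
    have h5 : (0 : ℝ) ≤ 113 * (3 + 4 / δ) ^ 2 := by positivity
    nlinarith
  set n0 : ℕ := ⌈(X : ℝ) ^ (1 / 3 + δ)⌉₊ with hn0
  set z : ℕ := ⌊(X : ℝ) ^ (1 / 3 - δ)⌋₊ with hz
  set zB : ℕ := ⌊(X : ℝ) ^ (1 / 4 - δ)⌋₊ with hzB
  have hn0pos : 0 < n0 := Nat.ceil_pos.2 (by positivity)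
  have hzle : (z : ℝ) ≤ (X : ℝ) ^ (1 / 3 - δ) := Nat.floor_le (by positivity)
  have hzBle : (zB : ℝ) ≤ (X : ℝ) ^ (1 / 4 - δ) := Nat.floor_le (by positivity)
  have hn0le : (X : ℝ) ^ (1 / 3 + δ) ≤ n0 := Nat.le_ceil _
  have hz4 : z ≤ 4 * X := by
    have h1 : (z : ℝ) ≤ X := by
      refine hzle.trans ?_
      calc (X : ℝ) ^ (1 / 3 - δ) ≤ (X : ℝ) ^ (1 : ℝ) := rpow_mono hX1 (by linarith)
        _ = X := Real.rpow_one _
    have h2 : z ≤ X := by exact_mod_cast h1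
    omega
  set L : ℝ := 1 + Real.log ((4 * X : ℕ) : ℝ) with hL
  set D : ℝ := ((Nat.sqrt (4 * X) : ℕ) : ℝ) with hD
  have hraw := raw_count (X := X) (z := z) (zB := zB) (n0 := n0) (E := (X : ℝ) ^ (1 - δ))
    hn0pos hX hz4 (by positivity) hL hD S (fun w hw => by
      obtain ⟨hwX, a, n, ha, hn, hq, hh, hnX, hE⟩ := hS w hw
      have ha0 : (0 : ℝ) < a := by exact_mod_cast ha
      refine ⟨hwX, a, n, ha, ?_, hn, ?_, Nat.ceil_le.2 hnX, hq, hh, ?_⟩
      · rw [hz]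
        refine Nat.le_floor ?_
        rcases hE with h | h
        · have h1 : (a : ℝ) ^ 2 * (X : ℝ) ^ (1 / 3 + δ) ≤ (X : ℝ) ^ (1 - δ) := by
            have h2 : (a : ℝ) * (a * n) ≤ (X : ℝ) ^ (1 - δ) := by
              refine le_trans ?_ h
              exact mul_le_mul_of_nonneg_left (by linarith) ha0.le
            have h3 : (a : ℝ) ^ 2 * (X : ℝ) ^ (1 / 3 + δ) ≤ (a : ℝ) ^ 2 * n :=
              mul_le_mul_of_nonneg_left hnX (by positivity)
            nlinarith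
          have h2 : (X : ℝ) ^ (1 - δ) = ((X : ℝ) ^ (1 / 3 - δ)) ^ 2 * (X : ℝ) ^ (1 / 3 + δ) := by
            rw [← Real.rpow_natCast, ← Real.rpow_mul hX0.le, ← Real.rpow_add hX0]
            congr 1
            push_cast
            ring
          rw [h2] at h1
          have h3 : (a : ℝ) ^ 2 ≤ ((X : ℝ) ^ (1 / 3 - δ)) ^ 2 :=
            le_of_mul_le_mul_right h1 (by positivity)
          exact (pow_le_pow_iff_left₀ ha0.le (by positivity) two_ne_zero).1 h3
        · exact h.trans (rpow_mono hX1 (by linarith))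
      · rintro rfl
        have h1 : (9 : ℝ) ≤ X := by exact_mod_cast h9
        have h2 : (9 : ℝ) ^ (1 / 3 : ℝ) ≤ (X : ℝ) ^ (1 / 3 + δ) :=
          (Real.rpow_le_rpow (by norm_num) h1 (by norm_num)).trans (rpow_mono hX1 (by linarith))
        have h3 : (2 : ℝ) < (9 : ℝ) ^ (1 / 3 : ℝ) := by
          have h4 : ((2 : ℝ) ^ (3 : ℕ)) ^ (1 / 3 : ℝ) < (9 : ℝ) ^ (1 / 3 : ℝ) :=
            Real.rpow_lt_rpow (by norm_num) (by norm_num) (by norm_num)
          rw [← Real.rpow_natCast, ← Real.rpow_mul (by norm_num)] at h4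
          norm_num at h4
          exact h4
        push_cast at hnX
        linarith
      · rcases hE with h | h
        · exact Or.inl h
        · exact Or.inr (Nat.le_floor h))
  have hL1 : 1 ≤ L := by
    have : (1 : ℝ) ≤ ((4 * X : ℕ) : ℝ) := by exact_mod_cast (by omega : 1 ≤ 4 * X)
    have := Real.log_nonneg this
    rw [hL]
    linarith
  have hDle : D ≤ 2 * (X : ℝ) ^ (1 / 2 : ℝ) := by
    have h1 : D ^ 2 ≤ 4 * X := by
      rw [hD, sq]
      exact_mod_cast Nat.sqrt_le (4 * X)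
    have h2 : (2 * (X : ℝ) ^ (1 / 2 : ℝ)) ^ 2 = 4 * X := by
      rw [mul_pow, ← Real.rpow_natCast ((X : ℝ) ^ (1 / 2 : ℝ)), ← Real.rpow_mul hX0.le]
      norm_num
    rw [← h2] at h1
    exact (pow_le_pow_iff_left₀ (by positivity) (by positivity) two_ne_zero).1 h1
  have hnum := numeric (x := X) (n0 := n0) (z := z) (zB := zB) (D := D)
    (E := (X : ℝ) ^ (1 - δ)) (L := L) hX1 hδ hn0le (by positivity) hzle (by positivity) hzBle
    (by positivity) hDle rfl hL1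
  have hLle : L ≤ (3 + 4 / δ) * (X : ℝ) ^ (δ / 4) := by
    have h1 : Real.log ((4 * X : ℕ) : ℝ) = Real.log 4 + Real.log X := by
      push_cast
      rw [Real.log_mul (by norm_num) hX0.ne']
    have h2 : Real.log X ≤ (X : ℝ) ^ (δ / 4) / (δ / 4) := Real.log_le_rpow_div hX0.le (by positivity)
    have h3 : Real.log 4 ≤ 2 := by
      have h4 : Real.log 4 = 2 * Real.log 2 := by
        rw [show (4 : ℝ) = 2 ^ 2 by norm_num, Real.log_pow]
        norm_num
      have := Real.log_two_lt_d9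
      linarith
    have h4 : (1 : ℝ) ≤ (X : ℝ) ^ (δ / 4) := Real.one_le_rpow hX1 (by positivity)
    have h5 : (X : ℝ) ^ (δ / 4) / (δ / 4) = (4 / δ) * (X : ℝ) ^ (δ / 4) := by
      field_simp
    rw [h5] at h2
    rw [hL, h1]
    linarith
  calc (S.card : ℝ) ≤ 113 * L ^ 2 * (X : ℝ) ^ (1 - δ) := hraw.trans hnum
    _ ≤ 113 * ((3 + 4 / δ) * (X : ℝ) ^ (δ / 4)) ^ 2 * (X : ℝ) ^ (1 - δ) := by
        refine mul_le_mul_of_nonneg_right ?_ (by positivity)
        exact mul_le_mul_of_nonneg_left (pow_le_pow_left₀ (by linarith) hLle 2) (by norm_num)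
    _ = 113 * (3 + 4 / δ) ^ 2 * (X : ℝ) ^ (1 - δ / 2) := by
        have h1 : ((X : ℝ) ^ (δ / 4)) ^ 2 * (X : ℝ) ^ (1 - δ) = (X : ℝ) ^ (1 - δ / 2) := by
          rw [← Real.rpow_natCast, ← Real.rpow_mul hX0.le, ← Real.rpow_add hX0]
          congr 1
          push_cast
          ring
        rw [← h1]
        ring
    _ ≤ (113 * (3 + 4 / δ) ^ 2 + 8) * (X : ℝ) ^ (1 - δ / 2) := by
        refine mul_le_mul_of_nonneg_right (by linarith) (by positivity)

end Pool.Agent.H12.HD
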